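import Mathlib

/-!
Reduced families of vectors with respect to the maximum norm, with pivots.
-/

set_option autoImplicit false
set_option linter.unusedSectionVars false
set_option linter.unusedVariables false

namespace Pool.Agent.K6.H78.MR

open Finset

variable {r N : ℕ}

/-- reduced families: `b i = b' i + ∑_{j < i} c i j b' j` -/
structure Rd (b : Fin r → Fin N → ℝ) (f : Fin r → Fin N) (b' : Fin r → Fin N → ℝ)
    (c : Fin r → Fin r → ℝ) : Prop where
  exp : ∀ i, b i = b' i + ∑ j, (if j < i then c i j else 0) • b' j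
  cb : ∀ i j, |c i j| ≤ 1 / 2
  zero : ∀ i j, j < i → b' i (f j) = 0
  max : ∀ i l, |b' i l| ≤ |b' i (f i)|
  grow : ∀ i j : Fin r, (i : ℕ) + 1 = j → |b' i (f i)| ≤ 2 * |b' j (f j)|
  pos : ∀ i, 0 < |b' i (f i)|

theorem Rd.norm {b : Fin r → Fin N → ℝ} {f : Fin r → Fin N} {b' : Fin r → Fin N → ℝ}
    {c : Fin r → Fin r → ℝ} (h : Rd b f b' c) (i : Fin r) : ‖b' i‖ = |b' i (f i)| := by
  apply le_antisymm
  · rw [pi_norm_le_iff_of_nonneg (abs_nonneg _)]
    intro l
    rw [Real.norm_eq_abs]
    exact h.max i l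
  · have := norm_le_pi_norm (b' i) (f i)
    rwa [Real.norm_eq_abs] at this

theorem Rd.grow' {b : Fin r → Fin N → ℝ} {f : Fin r → Fin N} {b' : Fin r → Fin N → ℝ}
    {c : Fin r → Fin r → ℝ} (h : Rd b f b' c) (n : ℕ) : ∀ i j : Fin r, (i : ℕ) + n = j →
    |b' i (f i)| ≤ 2 ^ n * |b' j (f j)| := by
  induction n with
  | zero =>
    intro i j hij
    have : i = j := Fin.ext (by omega)
    rw [this]; simp
  | succ n ih =>
    intro i j hij
    have hk : (i : ℕ) + n < r := by have := j.2; omega
    have h1 := ih i ⟨(i : ℕ) + n, hk⟩ rfl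
    have h2 := h.grow ⟨(i : ℕ) + n, hk⟩ j (by simp only; omega)
    have h3 : (0 : ℝ) < 2 ^ n := by positivity
    rw [pow_succ]
    nlinarith

/-- the tail -/
theorem Rd.tail {b : Fin (r + 1) → Fin N → ℝ} {f : Fin (r + 1) → Fin N}
    {b' : Fin (r + 1) → Fin N → ℝ} {c : Fin (r + 1) → Fin (r + 1) → ℝ} (h : Rd b f b' c) :
    Rd (fun i => b i.succ - c i.succ 0 • b 0) (fun i => f i.succ) (fun i => b' i.succ)
      (fun i j => c i.succ j.succ) := by
  have hb0 : b 0 = b' 0 := by
    have := h.exp 0
    rw [this]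
    simp
  refine ⟨?_, fun i j => h.cb _ _, fun i j hij => h.zero _ _ (Fin.succ_lt_succ_iff.2 hij),
    fun i l => h.max _ _, fun i j hij => h.grow _ _ (by simp only [Fin.val_succ]; omega),
    fun i => h.pos _⟩
  intro i
  have h1 := h.exp i.succ
  rw [Fin.sum_univ_succ] at h1
  simp only [Fin.succ_pos, if_true, Fin.succ_lt_succ_iff] at h1
  rw [h1, hb0]
  abel

/-- the initial part -/
theorem Rd.init {b : Fin (r + 1) → Fin N → ℝ} {f : Fin (r + 1) → Fin N}
    {b' : Fin (r + 1) → Fin N → ℝ} {c : Fin (r + 1) → Fin (r + 1) → ℝ} (h : Rd b f b' c) :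
    Rd (fun i => b i.castSucc) (fun i => f i.castSucc) (fun i => b' i.castSucc)
      (fun i j => c i.castSucc j.castSucc) := by
  refine ⟨?_, fun i j => h.cb _ _, fun i j hij => h.zero _ _ (Fin.castSucc_lt_castSucc_iff.2 hij),
    fun i l => h.max _ _, fun i j hij => h.grow _ _ (by simp only [Fin.val_castSucc]; omega),
    fun i => h.pos _⟩
  intro i
  have h1 := h.exp i.castSucc
  rw [Fin.sum_univ_castSucc] at h1
  have h2 : ¬ Fin.last r < i.castSucc := not_lt.2 (Fin.le_last _)
  simp only [h2, if_false, Fin.castSucc_lt_castSucc_iff, zero_smul, add_zero] at h1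
  exact h1

/-- the constant for the coordinates -/
noncomputable def cC : ℕ → ℝ
  | 0 => 1
  | r + 1 => 2 * cC r + (1 + r * 2 ^ r * cC r)

theorem cC_pos (r : ℕ) : 0 < cC r := by
  induction r with
  | zero => simp [cC]
  | succ r ih => simp only [cC]; positivity

/-- **the coordinates are bounded by the norm** -/
theorem coord : ∀ (r : ℕ) (b : Fin r → Fin N → ℝ) (f : Fin r → Fin N) (b' : Fin r → Fin N → ℝ)
    (c : Fin r → Fin r → ℝ), Rd b f b' c → ∀ (q : Fin r → ℝ) (i : Fin r),
    |q i| * |b' i (f i)| ≤ cC r * ‖∑ i, q i • b i‖ := by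
  intro r
  induction r with
  | zero => intro b f b' c h q i; exact i.elim0
  | succ r ih =>
    intro b f b' c h q
    set x := ∑ i, q i • b i with hx
    have hb0 : b 0 = b' 0 := by
      have := h.exp 0
      rw [this]
      simp
    set p₀ : ℝ := q 0 + ∑ i : Fin r, q i.succ * c i.succ 0 with hp₀
    have hx1 : x - p₀ • b 0 = ∑ i : Fin r, q i.succ • (b i.succ - c i.succ 0 • b 0) := by
      rw [hx, Fin.sum_univ_succ, hp₀, add_smul, Finset.sum_smul]
      have : ∑ i : Fin r, q i.succ • (b i.succ - c i.succ 0 • b 0) =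
          ∑ i : Fin r, q i.succ • b i.succ - ∑ i : Fin r, (q i.succ * c i.succ 0) • b 0 := by
        rw [← Finset.sum_sub_distrib]
        refine sum_congr rfl fun i _ => ?_
        rw [smul_sub, smul_smul]
      rw [this]
      abel
    -- the value at the first pivot
    have hz : ∀ i : Fin r, (b i.succ - c i.succ 0 • b 0) (f 0) = 0 := by
      intro i
      have h1 := h.tail.exp i
      rw [h1]
      have h2 := h.zero i.succ 0 (Fin.succ_pos i)
      rw [Pi.add_apply, h2, zero_add, Finset.sum_apply]
      refine sum_eq_zero fun j _ => ?_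
      rw [Pi.smul_apply, h.zero j.succ 0 (Fin.succ_pos j), smul_zero]
    have hp : |p₀| * |b' 0 (f 0)| ≤ ‖x‖ := by
      have h1 := congrFun hx1 (f 0)
      rw [Finset.sum_apply] at h1
      have h2 : ∑ i : Fin r, (q i.succ • (b i.succ - c i.succ 0 • b 0)) (f 0) = 0 := by
        refine sum_eq_zero fun i _ => ?_
        rw [Pi.smul_apply, hz i, smul_zero]
      rw [h2, Pi.sub_apply, Pi.smul_apply, hb0, smul_eq_mul] at h1
      rw [← abs_mul]
      have h3 : p₀ * b' 0 (f 0) = x (f 0) := by linarith
      rw [h3]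
      have := norm_le_pi_norm x (f 0)
      rwa [Real.norm_eq_abs] at this
    have hn : ‖x - p₀ • b 0‖ ≤ 2 * ‖x‖ := by
      refine (norm_sub_le _ _).trans ?_
      rw [norm_smul, hb0, h.norm 0, Real.norm_eq_abs]
      linarith
    have hC := cC_pos r
    have htail : ∀ i : Fin r, |q i.succ| * |b' i.succ (f i.succ)| ≤ cC r * (2 * ‖x‖) := by
      intro i
      have h1 := ih _ _ _ _ h.tail (fun i => q i.succ) i
      rw [← hx1] at h1
      exact h1.trans (mul_le_mul_of_nonneg_left hn hC.le)
    have hx0 : 0 ≤ ‖x‖ := norm_nonneg _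
    intro i
    refine Fin.cases ?_ (fun i => ?_) i
    · have h1 : |q 0| ≤ |p₀| + ∑ i : Fin r, |q i.succ| * (1 / 2) := by
        have h2 : q 0 = p₀ - ∑ i : Fin r, q i.succ * c i.succ 0 := by rw [hp₀]; ring
        rw [h2]
        refine (abs_sub _ _).trans (add_le_add le_rfl ?_)
        refine (Finset.abs_sum_le_sum_abs _ _).trans (sum_le_sum fun i _ => ?_)
        rw [abs_mul]
        exact mul_le_mul_of_nonneg_left (h.cb _ _) (abs_nonneg _)
      have hA : 0 ≤ |b' 0 (f 0)| := abs_nonneg _
      have h2 : ∀ i : Fin r, |q i.succ| * (1 / 2) * |b' 0 (f 0)| ≤ 2 ^ r * (cC r * ‖x‖) := by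
        intro i
        have h3 := h.grow' ((i : ℕ) + 1) 0 i.succ (by simp)
        have h4 : (2 : ℝ) ^ ((i : ℕ) + 1) ≤ 2 ^ r := pow_le_pow_right₀ (by norm_num) (by omega)
        have h5 : |b' 0 (f 0)| ≤ 2 ^ r * |b' i.succ (f i.succ)| :=
          h3.trans (mul_le_mul_of_nonneg_right h4 (abs_nonneg _))
        calc |q i.succ| * (1 / 2) * |b' 0 (f 0)| ≤
            |q i.succ| * (1 / 2) * (2 ^ r * |b' i.succ (f i.succ)|) := by gcongr
          _ = 2 ^ r * (1 / 2) * (|q i.succ| * |b' i.succ (f i.succ)|) := by ring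
          _ ≤ 2 ^ r * (1 / 2) * (cC r * (2 * ‖x‖)) :=
            mul_le_mul_of_nonneg_left (htail i) (by positivity)
          _ = _ := by ring
      calc |q 0| * |b' 0 (f 0)| ≤ (|p₀| + ∑ i : Fin r, |q i.succ| * (1 / 2)) * |b' 0 (f 0)| :=
            mul_le_mul_of_nonneg_right h1 hA
        _ = |p₀| * |b' 0 (f 0)| + ∑ i : Fin r, |q i.succ| * (1 / 2) * |b' 0 (f 0)| := by
            rw [add_mul, Finset.sum_mul]
        _ ≤ ‖x‖ + ∑ i : Fin r, 2 ^ r * (cC r * ‖x‖) := add_le_add hp (sum_le_sum fun i _ => h2 i)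
        _ = (1 + r * 2 ^ r * cC r) * ‖x‖ := by
            rw [Finset.sum_const, Finset.card_univ, Fintype.card_fin, nsmul_eq_mul]; ring
        _ ≤ cC (r + 1) * ‖x‖ := by
            apply mul_le_mul_of_nonneg_right _ hx0
            simp only [cC]
            linarith
    · refine (htail i).trans ?_
      have : cC r * (2 * ‖x‖) = (2 * cC r) * ‖x‖ := by ring
      rw [this]
      apply mul_le_mul_of_nonneg_right _ hx0
      simp only [cC]
      have : (0 : ℝ) ≤ r * 2 ^ r * cC r := by positivity
      linarith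

/-- uniqueness of the reduced vectors -/
theorem Rd.uniq {b : Fin r → Fin N → ℝ} {f : Fin r → Fin N} {b' b₂ : Fin r → Fin N → ℝ}
    {c c₂ : Fin r → Fin r → ℝ} (h : Rd b f b' c) (h₂ : Rd b f b₂ c₂) : b' = b₂ := by
  -- strong induction
  have key : ∀ n : ℕ, ∀ i : Fin r, (i : ℕ) = n → b' i = b₂ i := by
    intro n
    induction n using Nat.strong_induction_on with
    | _ n ih =>
      intro i hi
      have h1 := h.exp i
      have h2 := h₂.exp i
      have h3 : ∀ j, j < i → b₂ j = b' j := fun j hj => (ih j (by rw [← hi]; exact hj) j rfl).symm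
      -- the coefficients agree
      have h4 : ∀ k : ℕ, ∀ j : Fin r, (j : ℕ) = k → j < i → c i j = c₂ i j := by
        intro k
        induction k using Nat.strong_induction_on with
        | _ k ihk =>
          intro j hj hji
          have e1 := congrFun h1 (f j)
          have e2 := congrFun h2 (f j)
          rw [Pi.add_apply, h.zero i j hji, zero_add, Finset.sum_apply] at e1
          rw [Pi.add_apply, h₂.zero i j hji, zero_add, Finset.sum_apply] at e2
          have e3 : ∑ l, (((if l < i then c i l else 0) • b' l) (f j) -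
              ((if l < i then c₂ i l else 0) • b₂ l) (f j)) = 0 := by
            rw [Finset.sum_sub_distrib, ← e1, ← e2, sub_self]
          rw [Finset.sum_eq_single j] at e3
          · simp only [hji, if_true, Pi.smul_apply, smul_eq_mul] at e3
            rw [h3 j hji] at e3
            have e4 : (c i j - c₂ i j) * b' j (f j) = 0 := by linarith
            have e5 : b' j (f j) ≠ 0 := abs_pos.1 (h.pos j)
            have := (mul_eq_zero.1 e4).resolve_right e5
            linarith
          · intro l _ hl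
            by_cases hli : l < i
            · simp only [hli, if_true, Pi.smul_apply, smul_eq_mul]
              rw [h3 l hli]
              rcases lt_or_gt_of_ne hl with h5 | h5
              · rw [ihk l (by rw [← hj]; exact h5) l rfl hli]
                ring
              · rw [h.zero l j h5]
                ring
            · simp [hli]
          · simp
      have h5 : ∑ j, (if j < i then c i j else 0) • b' j = ∑ j, (if j < i then c₂ i j else 0) • b₂ j := by
        refine sum_congr rfl fun j _ => ?_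
        by_cases hji : j < i
        · simp only [hji, if_true]
          rw [h4 j j rfl hji, h3 j hji]
        · simp [hji]
      rw [h5] at h1
      exact add_right_cancel (h1.symm.trans h2)
  funext i
  exact key i i rfl

end Pool.Agent.K6.H78.MR
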