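import Pool.Agent.K6.H78.MR.Crt
import Pool.Agent.K6.H78.FR.Pad

/-!
The local factors; the points; the asymptotic formula.
-/

set_option autoImplicit false
set_option linter.unusedSectionVars false
set_option linter.unusedVariables false
set_option linter.deprecated false

namespace Pool.Agent.K6.H78.MR

open Finset Matrix MeasureTheory Filter Topology
open Pool.Agent.K6.H78.MF (Pm exists_pm pm_unique pm_iff IsPoly)
open Pool.Agent.K6.H78.FR (cr sc sd tt Sys cp ext ext_smul mulHeight_eq)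

variable {r m N : ℕ}

/-- pairs of nonzero vectors which give points over `K` -/
def Cn (r m N : ℕ) (K : Type*) [Field K] :
    Set (((Fin r → Fin N) → K) × (Fin m × Fin N → K)) :=
  {x | x.1 ≠ 0 ∧ x.2 ≠ 0 ∧ ∃ (b : Matrix (Fin r) (Fin N) K) (q : Matrix (Fin m) (Fin r) K),
    x.1 = pl b ∧ x.2 = tm q b}

/-- local factors -/
structure LF (r m N : ℕ) {K : Type*} [NormedField K]
    (φ : ((Fin r → Fin N) → K) → (Fin m × Fin N → K) → ℝ) : Prop where
  continuous : ContinuousOn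
    (fun x : ((Fin r → Fin N) → K) × (Fin m × Fin N → K) => φ x.1 x.2) (Cn r m N K)
  positive : ∀ x ∈ Cn r m N K, 0 < φ x.1 x.2
  invariant : ∀ x ∈ Cn r m N K, ∀ s t : K, s ≠ 0 → t ≠ 0 → φ (s • x.1) (t • x.2) = φ x.1 x.2

theorem mem_Cn {K : Type*} [Field K] {u : Ix r m N → K} (h : pl (bm u) ≠ 0) (hq : qv u ≠ 0) :
    (pl (bm u), tm (qm u) (bm u)) ∈ Cn r m N K :=
  ⟨h, T_ne h (qv_ne.1 hq), bm u, qm u, rfl, rfl⟩

section top

variable {R : Type*} [CommRing R] [TopologicalSpace R] [IsTopologicalRing R]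

theorem cont_pl' : Continuous fun u : Ix r m N → R => pl (bm u) := by
  refine continuous_pi fun f => ?_
  unfold pl
  refine Continuous.matrix_det (continuous_matrix fun i j => ?_)
  exact continuous_apply _

theorem cont_tm' : Continuous fun u : Ix r m N → R => tm (qm u) (bm u) := by
  refine continuous_pi fun p => ?_
  have h : ∀ u : Ix r m N → R, tm (qm u) (bm u) p =
      ∑ i, u (Sum.inr (p.1, i)) * u (Sum.inl (i, p.2)) := by
    intro u
    show (qm u * bm u) p.1 p.2 = _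
    rw [Matrix.mul_apply]
    rfl
  simp only [h]
  exact continuous_finset_sum _ fun i _ => (continuous_apply _).mul (continuous_apply _)

end top

/-- the compact set of normalised pairs -/
def Kc (r m N : ℕ) : Set (Ix r m N → ℝ) :=
  {u | ‖bv u‖ ≤ 1 ∧ ‖pl (bm u)‖ = 1 ∧ ‖qv u‖ = 1}

theorem Kc_compact : IsCompact (Kc r m N) := by
  refine Metric.isCompact_of_isClosed_isBounded ?_ ?_
  · have e : Kc r m N = {u | ‖bv u‖ ≤ 1} ∩ {u | ‖pl (bm u)‖ = 1} ∩ {u | ‖qv u‖ = 1} := by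
      ext u
      simp only [Kc, Set.mem_setOf_eq, Set.mem_inter_iff]
      tauto
    rw [e]
    exact ((isClosed_le cont_bv.norm continuous_const).inter
      (isClosed_eq cont_plb.norm continuous_const)).inter (isClosed_eq cont_qv.norm continuous_const)
  · rw [isBounded_iff_forall_norm_le]
    refine ⟨1, fun u hu => ?_⟩
    rw [pi_norm_le_iff_of_nonneg zero_le_one]
    intro i
    rcases i with i | i
    · exact (norm_le_pi_norm (bv u) i).trans hu.1
    · exact (norm_le_pi_norm (qv u) i).trans hu.2.2.le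

theorem Kc_ne {u : Ix r m N → ℝ} (h : u ∈ Kc r m N) : pl (bm u) ≠ 0 ∧ qv u ≠ 0 := by
  obtain ⟨_, h2, h3⟩ := h
  constructor
  · intro h0
    rw [h0, norm_zero] at h2
    norm_num at h2
  · intro h0
    rw [h0, norm_zero] at h3
    norm_num at h3

/-- normalised bases -/
theorem norm_basis {b : Matrix (Fin r) (Fin N) ℝ} (h : pl b ≠ 0) :
    ∃ (M : Matrix (Fin r) (Fin r) ℝ) (b₁ : Matrix (Fin r) (Fin N) ℝ), M.det ≠ 0 ∧ b = M * b₁ ∧
      (∀ i l, |b₁ i l| ≤ 1) ∧ ‖pl b₁‖ = 1 := by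
  obtain ⟨f₀, _⟩ := Function.ne_iff.1 h
  have : Nonempty (Fin r → Fin N) := ⟨f₀⟩
  obtain ⟨f, hf⟩ := Finite.exists_max fun f => |pl b f|
  set D := pl b f with hD
  have hD0 : 0 < |D| := by
    by_contra hc
    rw [not_lt] at hc
    apply h
    funext g
    have := (hf g).trans hc
    exact abs_eq_zero.1 (le_antisymm this (abs_nonneg _))
  have hDne : D ≠ 0 := abs_pos.1 hD0
  set M := b.submatrix id f with hM
  have hMD : M.det = D := rfl
  set b₁ : Matrix (Fin r) (Fin N) ℝ := D⁻¹ • (M.adjugate * b) with hb₁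
  have hb : b = M * b₁ := by
    rw [hb₁, Matrix.mul_smul, ← Matrix.mul_assoc, Matrix.mul_adjugate, hMD, Matrix.smul_mul,
      Matrix.one_mul, smul_smul, inv_mul_cancel₀ hDne, one_smul]
  have hpl : ∀ g, pl b g = D * pl b₁ g := by
    intro g
    have := congrFun (pl_mul M b₁) g
    rw [← hb] at this
    exact this
  have hent : ∀ i l, b₁ i l = D⁻¹ * pl b (Function.update f i l) := by
    intro i l
    rw [hb₁, Matrix.smul_apply, smul_eq_mul]
    congr 1
    have h1 : (M.adjugate * b) i l = (M.adjugate *ᵥ fun k => b k l) i := rfl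
    rw [h1, ← Matrix.cramer_eq_adjugate_mulVec, Matrix.cramer_apply]
    unfold pl
    congr 1
    ext k j
    rw [Matrix.updateCol_apply, Matrix.submatrix_apply]
    by_cases hj : j = i
    · rw [if_pos hj, hj, Function.update_self]; rfl
    · rw [if_neg hj, Function.update_of_ne hj]; rfl
  refine ⟨M, b₁, by rw [hMD]; exact hDne, hb, ?_, ?_⟩
  · intro i l
    rw [hent, abs_mul, abs_inv, inv_mul_le_one₀ hD0]
    exact hf _
  · apply le_antisymm
    · rw [pi_norm_le_iff_of_nonneg zero_le_one]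
      intro g
      rw [Real.norm_eq_abs]
      have h1 : |pl b g| ≤ |D| := hf g
      rw [hpl g, abs_mul] at h1
      by_contra hc
      rw [not_le] at hc
      nlinarith
    · have h1 : pl b₁ f = 1 := by
        have := hpl f
        have h2 : D * pl b₁ f = D * 1 := by rw [mul_one]; exact this.symm
        exact mul_left_cancel₀ hDne h2
      have h2 := norm_le_pi_norm (pl b₁) f
      rw [h1, norm_one] at h2
      exact h2

theorem tm_smul {R : Type*} [CommRing R] (c : R) (q : Matrix (Fin m) (Fin r) R)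
    (b : Matrix (Fin r) (Fin N) R) : tm (c • q) b = c • tm q b := by
  funext p
  show ((c • q) * b) p.1 p.2 = c * (q * b) p.1 p.2
  rw [Matrix.smul_mul]
  rfl

theorem exists_Kc {u : Ix r m N → ℝ} (h : pl (bm u) ≠ 0) (hq : qv u ≠ 0) :
    ∃ u' ∈ Kc r m N, ∃ s t : ℝ, s ≠ 0 ∧ t ≠ 0 ∧ pl (bm u) = s • pl (bm u') ∧
    tm (qm u) (bm u) = t • tm (qm u') (bm u') := by
  obtain ⟨M, b₁, hM, hb, hb1, hb2⟩ := norm_basis h
  set q₁ := qm u * M with hq₁
  have hT₁ : tm (qm u) (bm u) = tm q₁ b₁ := by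
    rw [hq₁, tm_gl, ← hb]
  have hTne : tm (qm u) (bm u) ≠ 0 := T_ne h (qv_ne.1 hq)
  have hq₁0 : (fun p : Fin m × Fin r => q₁ p.1 p.2) ≠ 0 := by
    intro h0
    apply hTne
    rw [hT₁]
    have h1 : q₁ = 0 := by
      ext j i
      exact congrFun h0 (j, i)
    rw [h1]
    funext p
    show ((0 : Matrix (Fin m) (Fin r) ℝ) * b₁) p.1 p.2 = 0
    rw [Matrix.zero_mul]
    rfl
  set c := ‖(fun p : Fin m × Fin r => q₁ p.1 p.2)‖ with hc
  have hc0 : 0 < c := norm_pos_iff.2 hq₁0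
  refine ⟨gl b₁ (c⁻¹ • q₁), ⟨?_, hb2, ?_⟩, M.det, c, hM, hc0.ne', ?_, ?_⟩
  · rw [pi_norm_le_iff_of_nonneg zero_le_one]
    exact fun p => hb1 p.1 p.2
  · have h1 : qv (gl b₁ (c⁻¹ • q₁)) = c⁻¹ • fun p : Fin m × Fin r => q₁ p.1 p.2 := rfl
    rw [h1, norm_smul, norm_inv, Real.norm_eq_abs, abs_of_pos hc0, ← hc]
    exact inv_mul_cancel₀ hc0.ne'
  · rw [bm_gl]
    conv_lhs => rw [hb, pl_mul]
    rfl
  · rw [bm_gl, qm_gl, hT₁, tm_smul, smul_smul, mul_inv_cancel₀ hc0.ne', one_smul]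

/-- the real part of the height -/
noncomputable def Ph (e : ℕ) (φ : ((Fin r → Fin N) → ℝ) → (Fin m × Fin N → ℝ) → ℝ)
    (u : Ix r m N → ℝ) : ℝ :=
  ‖pl (bm u)‖ ^ e * ‖tm (qm u) (bm u)‖ ^ (r * m) * φ (pl (bm u)) (tm (qm u) (bm u))

theorem RH_of_LF {hne : Nonempty (PP r m N)} {e : ℕ} (he : N = m + e)
    {φ : ((Fin r → Fin N) → ℝ) → (Fin m × Fin N → ℝ) → ℝ} (h : LF r m N φ) :
    (sys r m N hne).RH (Ph e φ) ∧ Lw r m N e (Ph e φ) := by
  have hcomp : ContinuousOn (fun u : Ix r m N → ℝ => φ (pl (bm u)) (tm (qm u) (bm u)))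
      (sys r m N hne).Om := by
    have h1 := h.continuous.comp (f := fun u : Ix r m N → ℝ => (pl (bm u), tm (qm u) (bm u)))
      (s := (sys r m N hne).Om) (cont_pl'.prodMk cont_tm').continuousOn
      (fun u hu => mem_Cn hu.1 hu.2)
    exact h1
  refine ⟨⟨?_, ?_, ?_⟩, ?_⟩
  · exact (((cont_pl' (r := r) (m := m) (N := N) (R := ℝ)).norm.pow e).mul
      ((cont_tm' (R := ℝ)).norm.pow _)).continuousOn.mul hcomp
  · intro u hu
    have h1 := mem_Cn hu.1 hu.2
    have h2 := norm_pos_iff.2 h1.1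
    have h3 := norm_pos_iff.2 h1.2.1
    have h4 := h.positive _ h1
    simp only at h2 h3 h4
    unfold Ph
    positivity
  · intro a ha u hu
    have h1 := mem_Cn hu.1 hu.2
    have hat := ha true
    have haf := ha false
    have e1 : pl (bm (sc (sys r m N hne).bk a u)) = (a true ^ r) • pl (bm u) := by
      rw [bm_sc, pl_smul]
      rfl
    have e2 : tm (qm (sc (sys r m N hne).bk a u)) (bm (sc (sys r m N hne).bk a u)) =
        (a false * a true) • tm (qm u) (bm u) := by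
      rw [bm_sc, qm_sc]
      funext p
      show ((a false • qm u) * (a true • bm u)) p.1 p.2 = (a false * a true) * (qm u * bm u) p.1 p.2
      rw [Matrix.smul_mul, Matrix.mul_smul, smul_smul]
      rfl
    have h2 := h.invariant _ h1 (a true ^ r) (a false * a true) (by positivity) (by positivity)
    simp only at h2
    unfold Ph
    rw [e1, e2, h2, norm_smul, norm_smul, Real.norm_eq_abs, Real.norm_eq_abs,
      abs_of_pos (by positivity : (0 : ℝ) < a true ^ r),
      abs_of_pos (by positivity : (0 : ℝ) < a false * a true),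
      mul_pow, mul_pow, mul_pow, ← pow_mul, tt_eq]
    have h3 : a true ^ (r * N) = a true ^ (r * e) * a true ^ (r * m) := by
      rw [← pow_add, he]
      congr 1
      ring
    rw [h3, mul_comm m r]
    ring
  · obtain ⟨κ, hκ, hκ'⟩ : ∃ κ : ℝ, 0 < κ ∧ ∀ u ∈ Kc r m N, κ ≤ φ (pl (bm u)) (tm (qm u) (bm u)) := by
      by_cases hne' : (Kc r m N).Nonempty
      · obtain ⟨u₀, hu₀, hmin⟩ := Kc_compact.exists_isMinOn hne' (hcomp.mono fun u hu => Kc_ne hu)
        exact ⟨_, h.positive _ (mem_Cn (Kc_ne hu₀).1 (Kc_ne hu₀).2), fun u hu => hmin hu⟩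
      · exact ⟨1, one_pos, fun u hu => absurd ⟨u, hu⟩ hne'⟩
    refine ⟨κ, hκ, fun u hu hu' => ?_⟩
    obtain ⟨u₁, hu₁, s, t, hs, ht, e1, e2⟩ := exists_Kc hu hu'
    have h1 := h.invariant _ (mem_Cn (Kc_ne hu₁).1 (Kc_ne hu₁).2) s t hs ht
    simp only at h1
    have h2 := hκ' u₁ hu₁
    rw [← h1, ← e1, ← e2] at h2
    unfold Ph
    have h3 : 0 ≤ ‖pl (bm u)‖ ^ e * ‖tm (qm u) (bm u)‖ ^ (r * m) := by positivity
    calc κ * (‖tm (qm u) (bm u)‖ ^ (r * m) * ‖pl (bm u)‖ ^ e) =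
        ‖pl (bm u)‖ ^ e * ‖tm (qm u) (bm u)‖ ^ (r * m) * κ := by ring
      _ ≤ _ := mul_le_mul_of_nonneg_left h2 h3

section padic

variable {p : ℕ} [hp : Fact p.Prime]

theorem pl_cp (z : Ix r m N → ℤ) : pl (bm (cp p z)) = cp p (pl (bm z)) := by
  funext f
  exact pl_map (Int.castRingHom ℚ_[p]) (bm z) f

theorem tm_cp (z : Ix r m N → ℤ) : tm (qm (cp p z)) (bm (cp p z)) = cp p (tm (qm z) (bm z)) := by
  funext x
  show (qm (cp p z) * bm (cp p z)) x.1 x.2 = (((qm z * bm z) x.1 x.2 : ℤ) : ℚ_[p])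
  rw [Matrix.mul_apply, Matrix.mul_apply]
  push_cast
  rfl

/-- the compact set of primitive pairs -/
def Kp (r m N p : ℕ) [Fact p.Prime] : Set (Ix r m N → ℚ_[p]) :=
  {u | ‖u‖ ≤ 1 ∧ ‖pl (bm u)‖ = 1 ∧ ‖qv u‖ = 1}

theorem Kp_compact : IsCompact (Kp r m N p) := by
  refine Metric.isCompact_of_isClosed_isBounded ?_ ?_
  · have e : Kp r m N p = {u | ‖u‖ ≤ 1} ∩ {u | ‖pl (bm u)‖ = 1} ∩ {u | ‖qv u‖ = 1} := by
      ext u
      simp only [Kp, Set.mem_setOf_eq, Set.mem_inter_iff]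
      tauto
    rw [e]
    refine ((isClosed_le continuous_norm continuous_const).inter
      (isClosed_eq cont_pl'.norm continuous_const)).inter (isClosed_eq ?_ continuous_const)
    unfold qv
    exact Continuous.norm (by fun_prop)
  · rw [isBounded_iff_forall_norm_le]
    exact ⟨1, fun u hu => hu.1⟩

theorem Kp_mem {u : Ix r m N → ℚ_[p]} (hu : u ∈ Kp r m N p) :
    (pl (bm u), tm (qm u) (bm u)) ∈ Cn r m N ℚ_[p] := by
  refine mem_Cn ?_ ?_
  · intro h0
    have := hu.2.1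
    rw [h0, norm_zero] at this
    norm_num at this
  · intro h0
    have := hu.2.2
    rw [h0, norm_zero] at this
    norm_num at this

theorem cp_mem {hne : Nonempty (PP r m N)} {z : Ix r m N → ℤ} (h : (sys r m N hne).Lc p z) :
    cp p z ∈ Kp r m N p := by
  have h := lc_iff.1 h
  refine ⟨FR.norm_cp_le z, ?_, ?_⟩
  · rw [pl_cp]
    exact FR.norm_cp h.1
  · exact FR.norm_cp (v := qv z) h.2

/-- the local factor at an integer pair -/
noncomputable def fp (p : ℕ) [Fact p.Prime]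
    (φ : ((Fin r → Fin N) → ℚ_[p]) → (Fin m × Fin N → ℚ_[p]) → ℝ) (z : Ix r m N → ℤ) : ℝ :=
  φ (cp p (pl (bm z))) (cp p (tm (qm z) (bm z)))

theorem FH_of_LF {hne : Nonempty (PP r m N)}
    {φ : ((Fin r → Fin N) → ℚ_[p]) → (Fin m × Fin N → ℚ_[p]) → ℝ}
    (h : LF r m N φ) : (sys r m N hne).FH {p} (fp p φ) := by
  refine FR.FH_of_cont (K := Kp r m N p) Kp_compact
    (ψ := fun u => φ (pl (bm u)) (tm (qm u) (bm u))) ?_ ?_ (fun z hz => cp_mem hz) fun z => ?_
  · exact h.continuous.comp (f := fun u : Ix r m N → ℚ_[p] => (pl (bm u), tm (qm u) (bm u)))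
      (s := Kp r m N p) (cont_pl'.prodMk cont_tm').continuousOn (fun u hu => Kp_mem hu)
  · exact fun u hu => h.positive _ (Kp_mem hu)
  · show φ _ _ = φ _ _
    rw [pl_cp, tm_cp]

end padic

/-! ### the points -/

/-- the points -/
def UU (r m N : ℕ) : Set (PP r m N) :=
  {P | ∃ (b : Matrix (Fin r) (Fin N) ℚ) (q : Matrix (Fin m) (Fin r) ℚ),
    P.1.rep = pl b ∧ P.2.rep = tm q b ∧ Rk q}

theorem exists_rep (hr : 1 ≤ r) {P : PP r m N} (h : P ∈ UU r m N) : ∃ z, Gd z ∧ IsRep z P := by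
  classical
  obtain ⟨b, q, hpl, hT, hrk⟩ := h
  have hpl0 : pl b ≠ 0 := by
    rw [← hpl]; exact P.1.rep_nonzero
  obtain ⟨z₀, c, hz₀, hc, hx⟩ := exists_pm (x := fun p : Fin r × Fin N => b p.1 p.2) (by
    intro h0
    apply hpl0
    have hv : b = 0 := by
      ext i l
      exact congrFun h0 (i, l)
    funext f
    unfold pl
    rw [hv]
    have : Nonempty (Fin r) := ⟨⟨0, hr⟩⟩
    exact Matrix.det_zero)
  set b₀ : Matrix (Fin r) (Fin N) ℤ := Matrix.of fun i l => z₀ (i, l) with hb₀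
  have hb : b = c • b₀.map (Int.castRingHom ℚ) := by
    ext i l
    exact congrFun hx (i, l)
  have hp₀ : pl b = fun f => c ^ r * (pl b₀ f : ℤ) := by
    rw [hb, pl_smul]
    funext f
    rw [pl_map]
    rfl
  have hp₀0 : pl b₀ ≠ 0 := by
    intro h0
    apply hpl0
    rw [hp₀, h0]
    funext p
    simp
  obtain ⟨b', g, hPm, hb', hdet⟩ := exists_prim b₀ hp₀0
  set gq : Matrix (Fin r) (Fin r) ℚ := (Int.castRingHom ℚ).mapMatrix g with hgq
  have hgdet : gq.det = (g.det : ℤ) := by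
    rw [hgq, ← RingHom.map_det]
    rfl
  have hgdet0 : gq.det ≠ 0 := by
    rw [hgdet]
    exact_mod_cast hdet
  set q₁ : Matrix (Fin m) (Fin r) ℚ := c • (q * gq) with hq₁
  have hrk₁ : Rk q₁ := (hrk.mul hgdet0).smul hc
  have hT₁ : tm q b = tm q₁ (b'.map (Int.castRingHom ℚ)) := by
    unfold tm
    funext p
    rw [hq₁, hb, hb']
    have : (g * b').map (Int.castRingHom ℚ) = gq * b'.map (Int.castRingHom ℚ) := Matrix.map_mul
    rw [this, Matrix.mul_smul, Matrix.smul_mul, Matrix.mul_assoc]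
  obtain ⟨zq, c', hzq, hc', hx'⟩ := exists_pm (x := fun p : Fin m × Fin r => q₁ p.1 p.2) (by
    intro h0
    apply hrk₁.ne hr
    ext j i
    exact congrFun h0 (j, i))
  set q' : Matrix (Fin m) (Fin r) ℤ := Matrix.of fun j i => zq (j, i) with hq'
  have hq₁' : q₁ = c' • q'.map (Int.castRingHom ℚ) := by
    ext j i
    exact congrFun hx' (j, i)
  have hrk' : Rk (q'.map (Int.castRingHom ℚ)) := by
    have h1 : q'.map (Int.castRingHom ℚ) = c'⁻¹ • q₁ := by
      rw [hq₁', smul_smul, inv_mul_cancel₀ hc', one_smul]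
    rw [h1]
    exact hrk₁.smul (inv_ne_zero hc')
  refine ⟨gl b' q', ⟨hPm, hzq, hrk'⟩, ⟨c ^ r * (g.det : ℤ), ?_, ?_⟩, ⟨c', hc', ?_⟩⟩
  · exact mul_ne_zero (pow_ne_zero r hc) (by exact_mod_cast hdet)
  · rw [hpl, hp₀, hb', pl_mul]
    funext f
    rw [bm_gl, Int.cast_mul]
    ring
  · rw [hT, hT₁, hq₁', tm_smul]
    funext p
    have h1 : tm (q'.map (Int.castRingHom ℚ)) (b'.map (Int.castRingHom ℚ)) p = ((tm q' b' p : ℤ) : ℚ) := by
      show (q'.map (Int.castRingHom ℚ) * b'.map (Int.castRingHom ℚ)) p.1 p.2 = _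
      rw [← Matrix.map_mul]
      rfl
    rw [Pi.smul_apply, smul_eq_mul, h1]
    rfl

theorem rep_mem (hr : 1 ≤ r) {z : Ix r m N → ℤ} (hz : Gd z) {P : PP r m N} (h : IsRep z P) :
    P ∈ UU r m N := by
  classical
  obtain ⟨⟨c, hc, h1⟩, d, hd, h2⟩ := h
  set D : Fin r → ℚ := Function.update (fun _ => (1 : ℚ)) ⟨0, hr⟩ c with hD
  have hDd : (Matrix.diagonal D).det = c := by
    rw [Matrix.det_diagonal, hD, Finset.prod_update_of_mem (Finset.mem_univ _)]
    simp
  set D' : Fin r → ℚ := Function.update (fun _ => (1 : ℚ)) ⟨0, hr⟩ c⁻¹ with hD'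
  have hDd' : (Matrix.diagonal D').det = c⁻¹ := by
    rw [Matrix.det_diagonal, hD', Finset.prod_update_of_mem (Finset.mem_univ _)]
    simp
  have hDD : Matrix.diagonal D' * Matrix.diagonal D = 1 := by
    rw [Matrix.diagonal_mul_diagonal, ← Matrix.diagonal_one]
    congr 1
    funext i
    rw [hD, hD']
    by_cases hi : i = ⟨0, hr⟩
    · rw [hi, Function.update_self, Function.update_self, inv_mul_cancel₀ hc]
    · rw [Function.update_of_ne hi, Function.update_of_ne hi, one_mul]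
  set b₀ : Matrix (Fin r) (Fin N) ℚ := (bm z).map (Int.castRingHom ℚ) with hb₀
  set q₀ : Matrix (Fin m) (Fin r) ℚ := (qm z).map (Int.castRingHom ℚ) with hq₀
  refine ⟨Matrix.diagonal D * b₀, d • (q₀ * Matrix.diagonal D'), ?_, ?_, ?_⟩
  · rw [h1, pl_mul, hDd]
    funext f
    rw [hb₀, pl_map]
    rfl
  · rw [h2]
    funext p
    show d * (((tm (qm z) (bm z) p : ℤ)) : ℚ) = ((d • (q₀ * Matrix.diagonal D')) * (Matrix.diagonal D * b₀)) p.1 p.2
    rw [Matrix.smul_mul, Matrix.smul_apply, smul_eq_mul]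
    congr 1
    rw [Matrix.mul_assoc, ← Matrix.mul_assoc (Matrix.diagonal D'), hDD, Matrix.one_mul, hq₀, hb₀,
      ← Matrix.map_mul]
    rfl
  · exact (hz.2.2.mul (by rw [hDd']; exact inv_ne_zero hc)).smul hd

end Pool.Agent.K6.H78.MR
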