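import Pool.Agent.K6.H78.MR.Rg

/-!
The crude bounds for the cells.
-/

set_option autoImplicit false
set_option linter.unusedSectionVars false
set_option linter.unusedVariables false
set_option linter.deprecated false

namespace Pool.Agent.K6.H78.MR

open Finset Matrix MeasureTheory
open Pool.Agent.K6.H78.MF (Pm exists_pm pm_unique pm_iff IsPoly)
open Pool.Agent.K6.H78.FR (cr sc sd tt Sys)

variable {r m N : ℕ} {hne : Nonempty (PP (r + 1) m N)}

/-- the lower bound for the height -/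
def Lw (r m N e : ℕ) (Φ : (Ix r m N → ℝ) → ℝ) : Prop :=
  ∃ κ : ℝ, 0 < κ ∧ ∀ u : Ix r m N → ℝ, pl (bm u) ≠ 0 → qv u ≠ 0 →
    κ * (‖tm (qm u) (bm u)‖ ^ (r * m) * ‖pl (bm u)‖ ^ e) ≤ Φ u

/-- reduced representatives -/
theorem exists_rdz (hS : (sys (r + 1) m N hne).Ok) {H : PP (r + 1) m N → ℝ} {y : Bool → ℝ}
    {P : PP (r + 1) m N} (hP : P ∈ (sys (r + 1) m N hne).Cl H y) : ∃ z, (sys (r + 1) m N hne).Good z ∧
      (sys (r + 1) m N hne).pt z = P ∧ sd (sys (r + 1) m N hne).bk y z ∈ (sys (r + 1) m N hne).AA ∧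
      ∃ f b' c, Rd (rl (bm z)) f b' c := by
  obtain ⟨z, h1, h2, h3, h4⟩ := hP
  obtain ⟨g, g', f, b', c, e1, e2, hrd⟩ := exists_rd_int (good_iff.1 h1).1.ne
  set γ : GG (r + 1) := (⟨g, g', e1, e2⟩, 1) with hγ
  have hg := hS.good_act γ z h1
  refine ⟨(sys (r + 1) m N hne).actZ γ z, hg, ?_, ?_, f, b', c, hrd⟩
  · rw [← h2]
    exact (hS.pt_iff z _ h1 hg).2 ⟨γ, rfl⟩
  · rw [hS.sd_act]
    exact hS.aa_act h3

theorem pl_sd {y : Bool → ℝ} (z : Ix (r + 1) m N → ℤ) :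
    ‖pl (bm (sd (sys (r + 1) m N hne).bk y z))‖ = |(y true)⁻¹| ^ (r + 1) * ‖pl (bm (cr z))‖ := by
  rw [FR.sd_eq, bm_sc, pl_smul]
  have h : (fun f => ((y true)⁻¹) ^ (r + 1) * pl (bm (cr z)) f) =
      ((y true)⁻¹) ^ (r + 1) • pl (bm (cr z)) := rfl
  rw [h, norm_smul, norm_pow, Real.norm_eq_abs]

theorem aa_pl {u : Ix (r + 1) m N → ℝ} (h : u ∈ (sys (r + 1) m N hne).AA) :
    1 ≤ ‖pl (bm u)‖ ∧ ‖pl (bm u)‖ < Real.exp ((r + 1 : ℕ) : ℝ) := by
  obtain ⟨⟨h1, h2⟩, h3⟩ := h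
  obtain ⟨h4, h5⟩ := h3 true (by intro h; exact Bool.noConfusion h)
  have h4' : 0 ≤ (1 / ((r + 1 : ℕ) : ℝ)) * Real.log ‖pl (bm u)‖ := h4
  have h5' : (1 / ((r + 1 : ℕ) : ℝ)) * Real.log ‖pl (bm u)‖ < 1 := h5
  have hr0 : (0 : ℝ) < ((r + 1 : ℕ) : ℝ) := by positivity
  have hp : 0 < ‖pl (bm u)‖ := norm_pos_iff.2 h1
  rw [one_div_mul_eq_div] at h4' h5'
  rw [div_lt_one hr0] at h5'
  constructor
  · have h6 : 0 ≤ Real.log ‖pl (bm u)‖ := by
      have := mul_nonneg h4' hr0.le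
      rwa [div_mul_cancel₀ _ hr0.ne'] at this
    by_contra hc
    rw [not_le] at hc
    exact absurd (Real.log_neg hp hc) (not_lt.2 h6)
  · rw [← Real.log_lt_iff_lt_exp hp]
    exact h5'

theorem le_max_of_pow {x c : ℝ} {n : ℕ} (hx : 0 ≤ x) (hn : n ≠ 0) (h : x ^ n ≤ c) : x ≤ max 1 c := by
  by_contra hc
  rw [not_le, max_lt_iff] at hc
  have h1 : x ≤ x ^ n := by
    calc x = x ^ 1 := (pow_one x).symm
      _ ≤ x ^ n := pow_le_pow_right₀ hc.1.le (Nat.one_le_iff_ne_zero.2 hn)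
  linarith [hc.2]

/-- the bound for the rows -/
theorem row_bound (hS : (sys (r + 1) m N hne).Ok) (hm : 1 ≤ m) {e : ℕ} {Φ : (Ix (r + 1) m N → ℝ) → ℝ}
    (hΦ : (sys (r + 1) m N hne).RH Φ) (hL : Lw (r + 1) m N e Φ) {S₀ : Finset ℕ}
    {f : (Ix (r + 1) m N → ℤ) → ℝ} (hf : (sys (r + 1) m N hne).FH S₀ f) {H : PP (r + 1) m N → ℝ}
    (hH : (sys (r + 1) m N hne).HH Φ f H) : ∃ A : ℝ, 1 ≤ A ∧ ∀ y : Bool → ℝ, (∀ β, 0 < y β) →
      ∀ z, (sys (r + 1) m N hne).Good z → (sys (r + 1) m N hne).pt z ∈ (sys (r + 1) m N hne).Cl H y →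
      ∀ j, ‖∑ i, ((qm z j i : ℤ) : ℝ) • rl (bm z) i‖ ≤ A * (y false * y true) := by
  obtain ⟨m₁, M₁, hm₁, hbd⟩ := hf.bd
  obtain ⟨κ, hκ, hlow⟩ := hL
  refine ⟨max 1 (1 / (κ * m₁)), le_max_left _ _, fun y hy z hz hP j => ?_⟩
  obtain ⟨h1, h2⟩ := (hS.mem_Cl hz).1 hP
  rw [hS.height hΦ hH hy hz] at h2
  obtain ⟨h3, h4⟩ := aa_pl h1
  set u := sd (sys (r + 1) m N hne).bk y z with hu
  have h5 := hlow u h1.1.1 h1.1.2
  have h6 := hΦ.pos u h1.1
  have h7 := (hbd z fun p hp => hz.1 p (hf.prime p hp)).1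
  have h8 : Φ u * m₁ ≤ 1 := (mul_le_mul_of_nonneg_left h7 h6.le).trans h2
  have h9 : 1 ≤ ‖pl (bm u)‖ ^ e := one_le_pow₀ h3
  set τ := ‖tm (qm u) (bm u)‖ with hτ
  have hτ0 : 0 ≤ τ := norm_nonneg _
  have h10 : τ ^ ((r + 1) * m) ≤ 1 / (κ * m₁) := by
    rw [le_div_iff₀ (by positivity)]
    have h11 : κ * (τ ^ ((r + 1) * m) * 1) ≤ κ * (τ ^ ((r + 1) * m) * ‖pl (bm u)‖ ^ e) := by gcongr
    calc τ ^ ((r + 1) * m) * (κ * m₁) = (κ * (τ ^ ((r + 1) * m) * 1)) * m₁ := by ring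
      _ ≤ Φ u * m₁ := mul_le_mul_of_nonneg_right (h11.trans h5) hm₁.le
      _ ≤ 1 := h8
  have h11 : τ ≤ max 1 (1 / (κ * m₁)) := le_max_of_pow hτ0 (by positivity) h10
  have hyt := hy true
  have hyf := hy false
  apply rl_mul_norm (qm z) (bm z) j (by positivity)
  intro l
  have h12 : |tm (qm u) (bm u) (j, l)| ≤ τ := norm_le_pi_norm (tm (qm u) (bm u)) (j, l)
  have h13 : tm (qm u) (bm u) (j, l) = (((qm z * bm z) j l : ℤ) : ℝ) / (y false * y true) := by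
    show (qm u * bm u) j l = _
    rw [Matrix.mul_apply, Matrix.mul_apply]
    push_cast
    rw [sum_div]
    refine sum_congr rfl fun i _ => ?_
    show ((z (Sum.inr (j, i)) : ℝ) / y false) * ((z (Sum.inl (i, l)) : ℝ) / y true) = _
    rw [div_mul_div_comm]
    rfl
  rw [h13, abs_div, abs_of_pos (by positivity : 0 < y false * y true), div_le_iff₀ (by positivity)] at h12
  exact h12.trans (mul_le_mul_of_nonneg_right h11 (by positivity))

/-- the window -/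
noncomputable def Wd (r : ℕ) (Y : ℝ) : Finset ℤ :=
  Finset.Icc (Int.log 2 (Y ^ (r + 1) / ((r + 1).factorial * 2 ^ (r + 1))))
    (Int.log 2 (Real.exp ((r + 1 : ℕ) : ℝ) * Y ^ (r + 1)))

theorem Wd_sum (r n : ℕ) : ∃ C : ℝ, 0 < C ∧ ∀ Y : ℝ, 0 < Y →
    ∑ s ∈ Wd r Y, ((2 : ℝ) ^ s) ^ n ≤ C * (Y ^ (r + 1)) ^ n := by
  obtain ⟨n₀, hn₀⟩ := pow_unbounded_of_one_lt
    (Real.exp ((r + 1 : ℕ) : ℝ) * ((r + 1).factorial * 2 ^ (r + 1))) (show (1 : ℝ) < 2 by norm_num)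
  refine ⟨(n₀ + 1) * Real.exp ((r + 1 : ℕ) : ℝ) ^ n, by positivity, fun Y hY => ?_⟩
  set x := Y ^ (r + 1) / ((r + 1).factorial * 2 ^ (r + 1)) with hx
  have hF : (0 : ℝ) < ((r + 1).factorial : ℝ) := by exact_mod_cast Nat.factorial_pos _
  have hx0 : 0 < x := by positivity
  have hE := Real.exp_pos ((r + 1 : ℕ) : ℝ)
  set w := Real.exp ((r + 1 : ℕ) : ℝ) * Y ^ (r + 1) with hw
  have hw0 : 0 < w := by positivity
  have h1 : w ≤ 2 ^ n₀ * x := by
    have h2 : w = (Real.exp ((r + 1 : ℕ) : ℝ) * ((r + 1).factorial * 2 ^ (r + 1))) * x := by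
      rw [hw, hx]
      field_simp
    rw [h2]
    exact mul_le_mul_of_nonneg_right hn₀.le hx0.le
  have h2 := lg_mono hw0 h1
  rw [lg_two_pow _ hx0] at h2
  have h3 : ((Wd r Y).card : ℝ) ≤ n₀ + 1 := by
    have h4 : (Wd r Y).card ≤ n₀ + 1 := by
      have h5 : Wd r Y = Finset.Icc (Int.log 2 x) (Int.log 2 w) := rfl
      rw [h5, Int.card_Icc]
      omega
    exact_mod_cast h4
  have h4 : ∀ s ∈ Wd r Y, ((2 : ℝ) ^ s) ^ n ≤ w ^ n := by
    intro s hs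
    unfold Wd at hs
    rw [Finset.mem_Icc] at hs
    apply pow_le_pow_left₀ (by positivity)
    exact (zpow_le_zpow_right₀ (by norm_num) hs.2).trans (lg_self hw0).1
  refine (sum_le_card_nsmul _ _ _ h4).trans ?_
  rw [nsmul_eq_mul]
  calc ((Wd r Y).card : ℝ) * w ^ n ≤ (n₀ + 1) * w ^ n :=
        mul_le_mul_of_nonneg_right h3 (by positivity)
    _ = _ := by rw [hw, mul_pow]; ring

/-- the facts about a reduced representative -/
theorem rd_facts {z : Ix (r + 1) m N → ℤ} {y : Bool → ℝ} (hy : ∀ β, 0 < y β)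
    (hA : sd (sys (r + 1) m N hne).bk y z ∈ (sys (r + 1) m N hne).AA)
    {f : Fin (r + 1) → Fin N} {b' : Fin (r + 1) → Fin N → ℝ} {c : Fin (r + 1) → Fin (r + 1) → ℝ}
    (h : Rd (rl (bm z)) f b' c) :
    y true ^ (r + 1) ≤ (r + 1).factorial * ∏ i, |b' i (f i)| ∧
    ∏ i, |b' i (f i)| ≤ Real.exp ((r + 1 : ℕ) : ℝ) * y true ^ (r + 1) ∧
    ∑ i, Int.log 2 |b' i (f i)| ∈ Wd r (y true) := by
  obtain ⟨h1, h2⟩ := aa_pl hA
  have hY := hy true
  rw [pl_sd, abs_of_pos (inv_pos.2 hY), inv_pow, inv_mul_eq_div] at h1 h2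
  have hYr : 0 < y true ^ (r + 1) := by positivity
  rw [le_div_iff₀ hYr, one_mul] at h1
  rw [div_lt_iff₀ hYr] at h2
  have h3 := rd_lower h
  have h4 := rd_upper h
  have h5 : (Matrix.of (rl (bm z)) : Matrix (Fin (r + 1)) (Fin N) ℝ) = bm (cr z) := rfl
  rw [h5] at h3 h4
  have hF : (0 : ℝ) < ((r + 1).factorial : ℝ) := by exact_mod_cast Nat.factorial_pos _
  have e1 : y true ^ (r + 1) ≤ (r + 1).factorial * ∏ i, |b' i (f i)| := h1.trans h4
  have e2 : ∏ i, |b' i (f i)| ≤ Real.exp ((r + 1 : ℕ) : ℝ) * y true ^ (r + 1) := h3.trans h2.le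
  refine ⟨e1, e2, ?_⟩
  unfold Wd
  rw [Finset.mem_Icc]
  set s := ∑ i, Int.log 2 |b' i (f i)| with hs
  have hlog : Int.log 2 ((2 : ℝ) ^ s) = s := by
    have := Int.log_zpow (R := ℝ) (b := 2) (by norm_num) s
    rw [Nat.cast_ofNat] at this
    exact this
  have e3 : (2 : ℝ) ^ s ≤ ∏ i, |b' i (f i)| := by
    rw [hs, ← prod_zp]
    exact Finset.prod_le_prod (fun i _ => by positivity) fun i _ => (lg_self (h.pos i)).1
  have e4 : ∏ i, |b' i (f i)| ≤ 2 ^ s * 2 ^ (r + 1) := by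
    have h6 : ∏ i, |b' i (f i)| ≤ ∏ i : Fin (r + 1), ((2 : ℝ) ^ (Int.log 2 |b' i (f i)|) * 2) := by
      refine Finset.prod_le_prod (fun i _ => abs_nonneg _) fun i _ => ?_
      have := (lg_self (h.pos i)).2
      rw [zpow_add_one₀ (by norm_num)] at this
      exact this.le
    rw [Finset.prod_mul_distrib, prod_zp, prod_const, card_univ, Fintype.card_fin] at h6
    exact h6
  constructor
  · have h6 : y true ^ (r + 1) / ((r + 1).factorial * 2 ^ (r + 1)) ≤ 2 ^ s := by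
      rw [div_le_iff₀ (by positivity)]
      calc y true ^ (r + 1) ≤ (r + 1).factorial * ∏ i, |b' i (f i)| := e1
        _ ≤ (r + 1).factorial * (2 ^ s * 2 ^ (r + 1)) := mul_le_mul_of_nonneg_left e4 hF.le
        _ = _ := by ring
    have h7 := lg_mono (by positivity) h6
    rwa [hlog] at h7
  · have h7 := lg_mono (by positivity) (e3.trans e2)
    rwa [hlog] at h7

/-- the smallest and the largest vector -/
theorem rd_ends {z : Ix (r + 1) m N → ℤ} {y : Bool → ℝ} (hy : ∀ β, 0 < y β)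
    (hA : sd (sys (r + 1) m N hne).bk y z ∈ (sys (r + 1) m N hne).AA)
    {f : Fin (r + 1) → Fin N} {b' : Fin (r + 1) → Fin N → ℝ} {c : Fin (r + 1) → Fin (r + 1) → ℝ}
    (h : Rd (rl (bm z)) f b' c) :
    |b' 0 (f 0)| ≤ 2 ^ r * (Real.exp 1 * y true) ∧
    y true ≤ (r + 1).factorial * (2 ^ r * |b' (Fin.last r) (f (Fin.last r))|) := by
  obtain ⟨h1, h2, _⟩ := rd_facts hy hA h
  have hY := hy true
  have hF : (1 : ℝ) ≤ ((r + 1).factorial : ℝ) := by exact_mod_cast Nat.one_le_iff_ne_zero.2 (Nat.factorial_ne_zero _)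
  constructor
  · have h3 : |b' 0 (f 0)| ^ (r + 1) ≤ (2 ^ r * (Real.exp 1 * y true)) ^ (r + 1) := by
      have h4 : ∏ _i : Fin (r + 1), |b' 0 (f 0)| ≤ ∏ i : Fin (r + 1), (2 ^ r * |b' i (f i)|) :=
        Finset.prod_le_prod (fun i _ => abs_nonneg _) fun i _ => rd_mono h (Fin.zero_le i)
      rw [prod_const, card_univ, Fintype.card_fin, Finset.prod_mul_distrib, prod_const, card_univ,
        Fintype.card_fin] at h4
      refine h4.trans ?_
      rw [mul_pow, mul_pow]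
      apply mul_le_mul_of_nonneg_left _ (by positivity)
      have h5 : Real.exp 1 ^ (r + 1) = Real.exp ((r + 1 : ℕ) : ℝ) := by
        rw [← Real.exp_nat_mul, mul_one]
      rw [h5]
      exact h2
    exact le_of_pow_le_pow_left₀ (by omega) (by positivity) h3
  · have h3 : y true ^ (r + 1) ≤
        ((r + 1).factorial * (2 ^ r * |b' (Fin.last r) (f (Fin.last r))|)) ^ (r + 1) := by
      have h4 : ∏ i : Fin (r + 1), |b' i (f i)| ≤
          ∏ _i : Fin (r + 1), (2 ^ r * |b' (Fin.last r) (f (Fin.last r))|) :=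
        Finset.prod_le_prod (fun i _ => abs_nonneg _) fun i _ => rd_mono h (Fin.le_last i)
      rw [prod_const, card_univ, Fintype.card_fin] at h4
      rw [mul_pow]
      refine h1.trans ?_
      apply mul_le_mul _ h4 (Finset.prod_nonneg fun i _ => abs_nonneg _) (by positivity)
      calc ((r + 1).factorial : ℝ) = ((r + 1).factorial : ℝ) ^ 1 := (pow_one _).symm
        _ ≤ _ := pow_le_pow_right₀ hF (by omega)
    exact le_of_pow_le_pow_left₀ (by omega) (by positivity) h3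

end Pool.Agent.K6.H78.MR
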