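import Pool.Agent.K6.H78.MR.Fin

/-!
The rank.
-/

set_option autoImplicit false
set_option linter.unusedSectionVars false
set_option linter.unusedVariables false
set_option linter.deprecated false

namespace Pool.Agent.K6.H78.MR

open Matrix

variable {r m N : ℕ}

theorem rank_pl {b : Matrix (Fin r) (Fin N) ℚ} (h : pl b ≠ 0) : b.rank = r := by
  obtain ⟨f, hf⟩ := Function.ne_iff.1 h
  apply le_antisymm
  · have := b.rank_le_height
    simpa using this
  · have h1 : b.submatrix id f = b * (1 : Matrix (Fin N) (Fin N) ℚ).submatrix id f := by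
      ext i j
      rw [Matrix.mul_apply, Finset.sum_eq_single (f j)]
      · rw [Matrix.submatrix_apply, Matrix.submatrix_apply, id, id, Matrix.one_apply_eq, mul_one]
      · intro l _ hl
        rw [Matrix.submatrix_apply, id, Matrix.one_apply_ne hl, mul_zero]
      · intro hl
        exact absurd (Finset.mem_univ _) hl
    have h2 : (b.submatrix id f).rank = r := by
      have h3 : IsUnit (b.submatrix id f) := by
        rw [Matrix.isUnit_iff_isUnit_det]
        exact isUnit_iff_ne_zero.2 hf
      rw [Matrix.rank_of_isUnit _ h3, Fintype.card_fin]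
    have h4 := Matrix.rank_mul_le_left b ((1 : Matrix (Fin N) (Fin N) ℚ).submatrix id f)
    rw [← h1, h2] at h4
    exact h4

theorem rk_rank {b : Matrix (Fin r) (Fin N) ℚ} (h : pl b ≠ 0) {q : Matrix (Fin m) (Fin r) ℚ} :
    Rk q ↔ (q * b).rank = r := by
  constructor
  · rintro ⟨p, hp⟩
    apply le_antisymm
    · exact (Matrix.rank_mul_le_left q b).trans (by simpa using q.rank_le_width)
    · have h1 : b = p * (q * b) := by rw [← Matrix.mul_assoc, hp, Matrix.one_mul]
      have h2 := Matrix.rank_mul_le_right p (q * b)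
      rw [← h1, rank_pl h] at h2
      exact h2
  · intro hr
    have h1 : r ≤ q.rank := by
      have h7 := Matrix.rank_mul_le_left q b
      rw [hr] at h7
      exact h7
    have h2 : LinearMap.ker q.mulVecLin = ⊥ := by
      have h3 := LinearMap.finrank_range_add_finrank_ker q.mulVecLin
      rw [Module.finrank_fin_fun] at h3
      have h4 : Module.finrank ℚ (LinearMap.range q.mulVecLin) = q.rank := rfl
      rw [h4] at h3
      have h5 : Module.finrank ℚ (LinearMap.ker q.mulVecLin) = 0 := by omega
      exact Submodule.finrank_eq_zero.1 h5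
    obtain ⟨g, hg⟩ := LinearMap.exists_leftInverse_of_injective _ h2
    refine ⟨LinearMap.toMatrix' g, ?_⟩
    have h6 : LinearMap.toMatrix' (g ∘ₗ q.mulVecLin) = LinearMap.toMatrix' g * q := by
      rw [LinearMap.toMatrix'_comp, ← Matrix.toLin'_apply', LinearMap.toMatrix'_toLin']
    rw [← h6, hg, LinearMap.toMatrix'_id]

theorem UU_eq {P : PP r m N} : P ∈ UU r m N ↔ (∃ (b : Matrix (Fin r) (Fin N) ℚ)
    (q : Matrix (Fin m) (Fin r) ℚ), P.1.rep = pl b ∧ P.2.rep = tm q b) ∧
    (Matrix.of fun j l => P.2.rep (j, l)).rank = r := by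
  have key : ∀ (b : Matrix (Fin r) (Fin N) ℚ) (q : Matrix (Fin m) (Fin r) ℚ), P.2.rep = tm q b →
      (Matrix.of fun j l => P.2.rep (j, l)) = q * b := by
    intro b q h
    ext j l
    rw [Matrix.of_apply, h]
    rfl
  constructor
  · rintro ⟨b, q, h1, h2, h3⟩
    have h0 : pl b ≠ 0 := by rw [← h1]; exact P.1.rep_nonzero
    exact ⟨⟨b, q, h1, h2⟩, by rw [key b q h2]; exact (rk_rank h0).1 h3⟩
  · rintro ⟨⟨b, q, h1, h2⟩, h3⟩
    have h0 : pl b ≠ 0 := by rw [← h1]; exact P.1.rep_nonzero
    rw [key b q h2] at h3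
    exact ⟨b, q, h1, h2, (rk_rank h0).2 h3⟩

end Pool.Agent.K6.H78.MR
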