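import Pool.Agent.K6.H78.MF.Prim

/-!
Matrices of rank `r`: maximal minors, primitive integer matrices.
-/

set_option autoImplicit false
set_option linter.unusedSectionVars false
set_option linter.unusedVariables false

namespace Pool.Agent.K6.H78.MR

open Finset Matrix
open Pool.Agent.K6.H78.MF (Pm exists_pm pm_unique pm_iff)

variable {r m N : ℕ}

section ring

variable {R : Type*} [CommRing R]

/-- the maximal minors -/
def pl (b : Matrix (Fin r) (Fin N) R) : (Fin r → Fin N) → R := fun f => (b.submatrix id f).det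

theorem mul_sub (g : Matrix (Fin m) (Fin r) R) (b : Matrix (Fin r) (Fin N) R) {n : ℕ}
    (f : Fin n → Fin N) : (g * b).submatrix id f = g * b.submatrix id f := by
  ext i j
  simp [Matrix.mul_apply]

theorem pl_mul (g : Matrix (Fin r) (Fin r) R) (b : Matrix (Fin r) (Fin N) R) :
    pl (g * b) = fun f => g.det * pl b f := by
  funext f
  unfold pl
  rw [mul_sub, det_mul]

theorem pl_map {S : Type*} [CommRing S] (φ : R →+* S) (b : Matrix (Fin r) (Fin N) R)
    (f : Fin r → Fin N) : pl (b.map φ) f = φ (pl b f) := by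
  unfold pl
  rw [RingHom.map_det]
  rfl

/-- the product as a vector -/
def tm (q : Matrix (Fin m) (Fin r) R) (b : Matrix (Fin r) (Fin N) R) : Fin m × Fin N → R :=
  fun p => (q * b) p.1 p.2

theorem tm_gl (q : Matrix (Fin m) (Fin r) R) (g : Matrix (Fin r) (Fin r) R)
    (b : Matrix (Fin r) (Fin N) R) : tm (q * g) b = tm q (g * b) := by
  unfold tm
  rw [Matrix.mul_assoc]

theorem tm_inj {q q' : Matrix (Fin m) (Fin r) R} {b b' : Matrix (Fin r) (Fin N) R}
    (h : tm q b = tm q' b') : q * b = q' * b' := by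
  ext i j
  exact congrFun h (i, j)

end ring

theorem sel (N r : ℕ) (b : Matrix (Fin r) (Fin N) ℤ) (f : Fin r → Fin N) :
    b * (1 : Matrix (Fin N) (Fin N) ℤ).submatrix id f = b.submatrix id f := by
  ext i j
  simp [Matrix.mul_apply, Matrix.one_apply]

/-- right inverses of primitive matrices -/
theorem dual_of_pm {b : Matrix (Fin r) (Fin N) ℤ} (h : Pm (pl b)) :
    ∃ ξ : Matrix (Fin N) (Fin r) ℤ, b * ξ = 1 := by
  obtain ⟨c, hc⟩ := h.bezout
  refine ⟨∑ f : Fin r → Fin N, c f • ((1 : Matrix (Fin N) (Fin N) ℤ).submatrix id f *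
    (b.submatrix id f).adjugate), ?_⟩
  rw [Matrix.mul_sum]
  have h1 : ∀ f : Fin r → Fin N, b * (c f • ((1 : Matrix (Fin N) (Fin N) ℤ).submatrix id f *
      (b.submatrix id f).adjugate)) = (c f * pl b f) • (1 : Matrix (Fin r) (Fin r) ℤ) := by
    intro f
    rw [Matrix.mul_smul, ← Matrix.mul_assoc, sel, Matrix.mul_adjugate, smul_smul]
    rfl
  rw [Finset.sum_congr rfl fun f _ => h1 f, ← Finset.sum_smul, hc, one_smul]

/-- a nonzero minor (proof of helper548) -/
theorem exists_minor {K : Type*} [Field K] {k N : ℕ} {B : Matrix (Fin k) (Fin N) K}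
    (h1 : LinearIndependent K B.row) : ∃ J : Fin k → Fin N, (B.submatrix id J).det ≠ 0 := by
  have h2 : B.rank = k := by
    have := LinearIndependent.rank_matrix h1
    rwa [Fintype.card_fin] at this
  have h3 := h2
  rw [Matrix.rank_eq_finrank_span_cols] at h3
  obtain ⟨f, hf, -, hli⟩ := Submodule.exists_fun_fin_finrank_span_eq K (Set.range B.col)
  have hf' : ∀ s : Fin k, ∃ j, B.col j = f (Fin.cast h3.symm s) := fun s => hf _
  choose J hJ using hf'
  refine ⟨J, ?_⟩
  have h4 : LinearIndependent K (B.submatrix id J).col := by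
    have h5 := hli.comp (Fin.cast h3.symm) (Fin.cast_injective _)
    have h6 : (B.submatrix id J).col = f ∘ (Fin.cast h3.symm) := by
      funext s
      exact hJ s
    rw [h6]
    exact h5
  have h5 : IsUnit (B.submatrix id J) := Matrix.linearIndependent_cols_iff_isUnit.1 h4
  exact ((Matrix.isUnit_iff_isUnit_det _).1 h5).ne_zero

/-- a combination of the rows which vanishes, if all minors vanish -/
theorem exists_comb {K : Type*} [Field K] {b : Matrix (Fin r) (Fin N) K} (h : pl b = 0) :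
    ∃ c : Fin r → K, c ≠ 0 ∧ ∀ l, ∑ i, c i * b i l = 0 := by
  by_contra hcon
  push Not at hcon
  have h1 : LinearIndependent K b.row := by
    rw [Fintype.linearIndependent_iff]
    intro c hc
    by_contra h0
    have hc0 : c ≠ 0 := by
      intro h2
      apply h0
      intro i
      rw [h2]
      rfl
    obtain ⟨l, hl⟩ := hcon c hc0
    apply hl
    have h2 := congrFun hc l
    simpa [Finset.sum_apply] using h2
  obtain ⟨J, hJ⟩ := exists_minor h1
  exact hJ (congrFun h J)

/-- a step towards primitive matrices -/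
theorem prim_step (b : Matrix (Fin r) (Fin N) ℤ) {p : ℕ} (hp : p.Prime)
    (h : ∀ f, (p : ℤ) ∣ pl b f) : ∃ (b' : Matrix (Fin r) (Fin N) ℤ)
    (g : Matrix (Fin r) (Fin r) ℤ), b = g * b' ∧ g.det = p := by
  have : Fact p.Prime := ⟨hp⟩
  have h1 : pl (b.map (Int.castRingHom (ZMod p))) = 0 := by
    funext f
    rw [pl_map]
    exact (ZMod.intCast_zmod_eq_zero_iff_dvd _ _).2 (h f)
  obtain ⟨c, hc, hcl⟩ := exists_comb h1
  obtain ⟨i₀, hi₀⟩ := Function.ne_iff.1 hc
  simp only [Pi.zero_apply] at hi₀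
  -- normalise
  set d : Fin r → ZMod p := fun i => (c i₀)⁻¹ * c i with hd
  have hd0 : d i₀ = 1 := inv_mul_cancel₀ hi₀
  have hdl : ∀ l, ∑ i, d i * (b i l : ZMod p) = 0 := by
    intro l
    have h2 := hcl l
    have h3 : ∑ i, d i * (b i l : ZMod p) = (c i₀)⁻¹ * ∑ i, c i *
        (b.map (Int.castRingHom (ZMod p))) i l := by
      rw [mul_sum]
      refine sum_congr rfl fun i _ => ?_
      rw [hd]
      simp [mul_assoc]
    rw [h3, h2, mul_zero]
  set e : Fin r → ℤ := fun i => if i = i₀ then 1 else ((d i).val : ℤ) with he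
  have hed : ∀ i, ((e i : ℤ) : ZMod p) = d i := by
    intro i
    rw [he]
    by_cases hi : i = i₀
    · simp [hi, hd0]
    · simp [hi]
  have hdiv : ∀ l, (p : ℤ) ∣ ∑ i, e i * b i l := by
    intro l
    rw [← ZMod.intCast_zmod_eq_zero_iff_dvd]
    push_cast
    simp only [hed]
    exact hdl l
  choose x hx using hdiv
  -- the new matrix and the transformation
  set v : Fin r → ℤ := fun j => if j = i₀ then (p : ℤ) else -e j with hv
  refine ⟨b.updateRow i₀ x, (1 : Matrix (Fin r) (Fin r) ℤ).updateRow i₀ v, ?_, ?_⟩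
  · ext i l
    rw [Matrix.mul_apply]
    by_cases hi : i = i₀
    · subst hi
      rw [← Finset.add_sum_erase _ _ (Finset.mem_univ i)]
      have h2 : ∑ j ∈ univ.erase i, (1 : Matrix (Fin r) (Fin r) ℤ).updateRow i v i j *
          b.updateRow i x j l = -∑ j ∈ univ.erase i, e j * b j l := by
        rw [← Finset.sum_neg_distrib]
        refine sum_congr rfl fun j hj => ?_
        have hj' : j ≠ i := (Finset.mem_erase.1 hj).1
        rw [Matrix.updateRow_self, Matrix.updateRow_ne hj', hv]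
        simp [hj']
      have h3 := hx l
      rw [← Finset.add_sum_erase _ _ (Finset.mem_univ i)] at h3
      have h4 : e i = 1 := by rw [he]; simp
      rw [h2, Matrix.updateRow_self, Matrix.updateRow_self]
      have h5 : v i = p := by rw [hv]; simp
      rw [h5]
      rw [h4, one_mul] at h3
      linarith
    · rw [Finset.sum_eq_single i]
      · rw [Matrix.updateRow_ne hi, Matrix.updateRow_ne hi, Matrix.one_apply_eq, one_mul]
      · intro j _ hj
        rw [Matrix.updateRow_ne hi, Matrix.one_apply_ne (Ne.symm hj), zero_mul]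
      · simp
  · have h2 : ((1 : Matrix (Fin r) (Fin r) ℤ).updateRow i₀ v).det =
        ((1 : Matrix (Fin r) (Fin r) ℤ).updateCol i₀ v).det := by
      rw [← Matrix.det_transpose, ← Matrix.updateCol_transpose, Matrix.transpose_one]
    rw [h2, ← Matrix.cramer_apply, Matrix.cramer_one]
    simp [hv]

/-- primitive bases -/
theorem exists_prim (b : Matrix (Fin r) (Fin N) ℤ) (h : pl b ≠ 0) :
    ∃ (b' : Matrix (Fin r) (Fin N) ℤ) (g : Matrix (Fin r) (Fin r) ℤ),
      Pm (pl b') ∧ b = g * b' ∧ g.det ≠ 0 := by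
  obtain ⟨f₀, hf₀⟩ := Function.ne_iff.1 h
  obtain ⟨D, hD⟩ : ∃ D, (pl b f₀).natAbs = D := ⟨_, rfl⟩
  induction D using Nat.strong_induction_on generalizing b with
  | _ D ih =>
    by_cases hP : Pm (pl b)
    · exact ⟨b, 1, hP, by rw [Matrix.one_mul], by simp⟩
    · unfold MF.Pm at hP
      push Not at hP
      obtain ⟨p, hp, hpd⟩ := hP
      have hp0 : (p : ℤ) ≠ 0 := by exact_mod_cast hp.ne_zero
      obtain ⟨b', g, hb, hg⟩ := prim_step b hp hpd
      have hpl : pl b f₀ = (p : ℤ) * pl b' f₀ := by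
        rw [hb, pl_mul, hg]
      have h2 : pl b' f₀ ≠ 0 := by
        intro h0
        apply hf₀
        rw [hpl, h0]
        simp
      have h3 : (pl b' f₀).natAbs < D := by
        rw [← hD, hpl, Int.natAbs_mul, Int.natAbs_natCast]
        have h4 : 0 < (pl b' f₀).natAbs := Int.natAbs_pos.2 h2
        have := hp.two_le
        nlinarith
      obtain ⟨b'', g', h4, h5, h6⟩ := ih _ h3 b' (fun h0 => h2 (by rw [h0]; rfl)) h2 rfl
      refine ⟨b'', g * g', h4, ?_, ?_⟩
      · rw [hb, h5, Matrix.mul_assoc]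
      · rw [Matrix.det_mul, hg]
        exact mul_ne_zero hp0 h6

/-- primitivity of the product -/
theorem pm_T {b : Matrix (Fin r) (Fin N) ℤ} {q : Matrix (Fin m) (Fin r) ℤ} (h : Pm (pl b)) :
    Pm (tm q b) ↔ Pm (fun p : Fin m × Fin r => q p.1 p.2) := by
  obtain ⟨ξ, hξ⟩ := dual_of_pm h
  constructor
  · intro h1 p hp hd
    refine h1 p hp fun x => ?_
    unfold tm
    rw [Matrix.mul_apply]
    exact Finset.dvd_sum fun i _ => (hd (x.1, i)).mul_right _
  · intro h1 p hp hd
    refine h1 p hp fun x => ?_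
    have h2 : q = (q * b) * ξ := by rw [Matrix.mul_assoc, hξ, Matrix.mul_one]
    show (p : ℤ) ∣ q x.1 x.2
    rw [h2, Matrix.mul_apply]
    exact Finset.dvd_sum fun i _ => (hd (x.1, i)).mul_right _

section field

variable {K : Type*} [Field K]

/-- right inverses over a field -/
theorem exists_right {b : Matrix (Fin r) (Fin N) K} (h : pl b ≠ 0) :
    ∃ ξ : Matrix (Fin N) (Fin r) K, b * ξ = 1 := by
  obtain ⟨f, hf⟩ := Function.ne_iff.1 h
  have hf' : IsUnit (b.submatrix id f).det := isUnit_iff_ne_zero.2 hf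
  refine ⟨(1 : Matrix (Fin N) (Fin N) K).submatrix id f * (b.submatrix id f)⁻¹, ?_⟩
  rw [← Matrix.mul_assoc]
  have h1 : b * (1 : Matrix (Fin N) (Fin N) K).submatrix id f = b.submatrix id f := by
    ext i j
    simp [Matrix.mul_apply, Matrix.one_apply]
  rw [h1, Matrix.mul_nonsing_inv _ hf']

theorem T_ne {b : Matrix (Fin r) (Fin N) K} {q : Matrix (Fin m) (Fin r) K} (h : pl b ≠ 0)
    (hq : q ≠ 0) : tm q b ≠ 0 := by
  obtain ⟨ξ, hξ⟩ := exists_right h
  intro h0
  apply hq
  have h1 : q * b = 0 := by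
    ext i j
    exact congrFun h0 (i, j)
  have h2 : q = (q * b) * ξ := by rw [Matrix.mul_assoc, hξ, Matrix.mul_one]
  rw [h2, h1, Matrix.zero_mul]

/-- full column rank -/
def Rk (q : Matrix (Fin m) (Fin r) K) : Prop := ∃ p : Matrix (Fin r) (Fin m) K, p * q = 1

theorem Rk.mul {q : Matrix (Fin m) (Fin r) K} (h : Rk q) {g : Matrix (Fin r) (Fin r) K}
    (hg : g.det ≠ 0) : Rk (q * g) := by
  obtain ⟨p, hp⟩ := h
  refine ⟨g⁻¹ * p, ?_⟩
  rw [Matrix.mul_assoc, ← Matrix.mul_assoc p, hp, Matrix.one_mul,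
    Matrix.nonsing_inv_mul _ (isUnit_iff_ne_zero.2 hg)]

theorem Rk.smul {q : Matrix (Fin m) (Fin r) K} (h : Rk q) {c : K} (hc : c ≠ 0) : Rk (c • q) := by
  obtain ⟨p, hp⟩ := h
  refine ⟨c⁻¹ • p, ?_⟩
  rw [Matrix.smul_mul, Matrix.mul_smul, smul_smul, inv_mul_cancel₀ hc, one_smul, hp]

theorem Rk.ne {q : Matrix (Fin m) (Fin r) K} (hr : 1 ≤ r) (h : Rk q) : q ≠ 0 := by
  obtain ⟨p, hp⟩ := h
  rintro rfl
  rw [Matrix.mul_zero] at hp
  have := congrFun (congrFun hp ⟨0, hr⟩) ⟨0, hr⟩
  rw [Matrix.one_apply_eq] at this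
  exact zero_ne_one this

/-- columns of matrices of full column rank are not zero -/
theorem Rk.col {q : Matrix (Fin m) (Fin r) K} (h : Rk q) (i : Fin r) : ∃ j, q j i ≠ 0 := by
  by_contra hcon
  push Not at hcon
  obtain ⟨p, hp⟩ := h
  have := congrFun (congrFun hp i) i
  rw [Matrix.one_apply_eq, Matrix.mul_apply] at this
  apply zero_ne_one (α := K)
  rw [← this]
  symm
  exact Finset.sum_eq_zero fun j _ => by rw [hcon j, mul_zero]

end field

end Pool.Agent.K6.H78.MR
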