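import Pool.Agent.K6.H78.MR.Tl
import Pool.Agent.K6.H78.MF.Geo

/-!
Lemmas on one block.
-/

set_option autoImplicit false
set_option linter.unusedSectionVars false
set_option linter.unusedVariables false

namespace Pool.Agent.K6.H78.MR

open Finset Matrix MeasureTheory
open Pool.Agent.K6.H78.MF (Pm exists_pm pm_unique pm_iff IsPoly)

variable {r m N : ℕ}

/-- the bound for the group elements -/
theorem g_bound {β : Matrix (Fin r) (Fin N) ℝ} {g : Matrix (Fin r) (Fin r) ℝ} {K : ℝ}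
    (hβ : ∀ i l, |β i l| ≤ K) (hg : ∀ i l, |(g * β) i l| ≤ K) (hp : 1 ≤ ‖pl β‖) (i j : Fin r) :
    |g i j| ≤ r.factorial * K ^ r := by
  obtain ⟨f, hf⟩ : ∃ f, 1 ≤ |pl β f| := by
    by_contra hcon
    push Not at hcon
    have : ‖pl β‖ < 1 := by
      rw [pi_norm_lt_iff one_pos]
      intro f
      rw [Real.norm_eq_abs]
      exact hcon f
    linarith
  set M := β.submatrix id f with hM
  have h1 : (M.updateRow j (∑ k, g i k • M k)).det = g i j • M.det := Matrix.det_updateRow_sum M j _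
  have h2 : ∑ k, g i k • M k = fun l => (g * β) i (f l) := by
    funext l
    rw [Finset.sum_apply, Matrix.mul_apply]
    rfl
  have h3 : |(M.updateRow j (∑ k, g i k • M k)).det| ≤ r.factorial * ∏ i : Fin r, K := by
    apply abs_det_le_prod
    intro i' l
    by_cases hi : i' = j
    · subst hi
      rw [Matrix.updateRow_self, h2]
      exact hg i (f l)
    · rw [Matrix.updateRow_ne hi]
      exact hβ i' (f l)
  rw [prod_const, card_univ, Fintype.card_fin, h1, smul_eq_mul, abs_mul] at h3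
  have h4 : 1 ≤ |M.det| := hf
  have h5 := abs_nonneg (g i j)
  nlinarith

/-- the set of the bounded unimodular matrices is finite -/
theorem units_fin (r : ℕ) (M : ℝ) :
    {g : (Matrix (Fin r) (Fin r) ℤ)ˣ | ∀ i j, |((g : Matrix (Fin r) (Fin r) ℤ) i j : ℝ)| ≤ M}.Finite := by
  classical
  set P : Finset (Fin r → Fin r → ℤ) :=
    Fintype.piFinset fun _ => Fintype.piFinset fun _ => Icc (-⌈M⌉) ⌈M⌉ with hP
  refine Set.Finite.of_finite_image (f := fun g : (Matrix (Fin r) (Fin r) ℤ)ˣ =>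
    ((fun i j => (g : Matrix (Fin r) (Fin r) ℤ) i j) : Fin r → Fin r → ℤ)) ?_ (by
      intro g _ h _ he
      apply Units.ext
      ext i j
      exact congrFun (congrFun he i) j)
  refine P.finite_toSet.subset ?_
  rintro _ ⟨g, hg, rfl⟩
  rw [mem_coe]
  rw [hP, Fintype.mem_piFinset]
  intro i
  rw [Fintype.mem_piFinset]
  intro j
  rw [Finset.mem_Icc]
  obtain ⟨h1, h2⟩ := abs_le.1 (hg i j)
  have h3 := Int.le_ceil M
  constructor
  · have h4 : (-(⌈M⌉ : ℝ)) ≤ (g : Matrix (Fin r) (Fin r) ℤ) i j := by linarith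
    exact_mod_cast h4
  · have h4 : ((g : Matrix (Fin r) (Fin r) ℤ) i j : ℝ) ≤ ⌈M⌉ := by linarith
    exact_mod_cast h4

/-- matrices of lower rank modulo a prime -/
theorem card_pl0 (r N : ℕ) (p : ℕ) (hp : p.Prime) :
    {b : Matrix (Fin (r + 1)) (Fin N) (ZMod p) | pl b = 0}.ncard ≤ (r + 1) * p ^ (r + r * N) := by
  classical
  have : Fact p.Prime := ⟨hp⟩
  set φ : Fin (r + 1) × ((Fin r → ZMod p) × (Fin r → Fin N → ZMod p)) →
      Matrix (Fin (r + 1)) (Fin N) (ZMod p) := fun x =>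
    Matrix.of (Fin.insertNth (α := fun _ => Fin N → ZMod p) x.1 (∑ j, x.2.1 j • x.2.2 j) x.2.2) with hφ
  have hsub : {b : Matrix (Fin (r + 1)) (Fin N) (ZMod p) | pl b = 0} ⊆ Set.range φ := by
    intro b hb
    obtain ⟨c, hc, hcl⟩ := exists_comb hb
    obtain ⟨i₀, hi₀⟩ := Function.ne_iff.1 hc
    have hi₀' : c i₀ ≠ 0 := hi₀
    refine ⟨(i₀, (fun j => -(c i₀)⁻¹ * c (i₀.succAbove j)), fun j => b (i₀.succAbove j)), ?_⟩
    rw [hφ]
    ext i l
    simp only [Matrix.of_apply]
    rcases Fin.eq_self_or_eq_succAbove i₀ i with h | ⟨j, h⟩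
    · rw [h, Fin.insertNth_apply_same, Finset.sum_apply]
      have h1 := hcl l
      rw [Fin.sum_univ_succAbove _ i₀] at h1
      have h2 : ∑ j, ((-(c i₀)⁻¹ * c (i₀.succAbove j)) • b (i₀.succAbove j)) l =
          -(c i₀)⁻¹ * ∑ j, c (i₀.succAbove j) * b (i₀.succAbove j) l := by
        rw [mul_sum]
        refine sum_congr rfl fun j _ => ?_
        rw [Pi.smul_apply, smul_eq_mul, mul_assoc]
      rw [h2, (eq_neg_of_add_eq_zero_right h1), neg_mul_neg, ← mul_assoc, inv_mul_cancel₀ hi₀', one_mul]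
    · rw [h, Fin.insertNth_apply_succAbove]
  have h1 := Set.ncard_le_ncard hsub (Set.toFinite _)
  refine h1.trans ?_
  rw [← Set.image_univ]
  refine (Set.ncard_image_le (Set.toFinite _)).trans ?_
  rw [Set.ncard_univ, Nat.card_eq_fintype_card, Fintype.card_prod, Fintype.card_prod,
    Fintype.card_fin, Fintype.card_fun, Fintype.card_fun, Fintype.card_fun, ZMod.card,
    Fintype.card_fin, Fintype.card_fin, ← pow_mul, ← pow_add, mul_comm N r]

/-- the maximal minors are polynomials -/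
theorem poly_det {σ : Type} {n : ℕ} (M : (σ → ℝ) → Matrix (Fin n) (Fin n) ℝ)
    (h : ∀ i j, IsPoly fun u => M u i j) : IsPoly fun u => (M u).det := by
  choose P hP using h
  refine ⟨(Matrix.of P).det, fun y => ?_⟩
  rw [RingHom.map_det]
  have h1 : (((M y).det : ℝ) : ℂ) = ((M y).map (Complex.ofRealHom)).det := by
    rw [← RingHom.mapMatrix_apply, ← RingHom.map_det]
    rfl
  rw [h1]
  congr 1
  ext i j
  rw [Matrix.map_apply, RingHom.mapMatrix_apply, Matrix.map_apply, Matrix.of_apply]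
  exact hP i j y

theorem pl_norm_gl {b : Matrix (Fin r) (Fin N) ℝ} {g : Matrix (Fin r) (Fin r) ℝ}
    (hg : |g.det| = 1) : ‖pl (g * b)‖ = ‖pl b‖ := by
  rw [pl_mul]
  have h : (fun f => g.det * pl b f) = g.det • pl b := rfl
  rw [h, norm_smul, Real.norm_eq_abs, hg, one_mul]

theorem pl_smul {R : Type*} [CommRing R] (a : R) (b : Matrix (Fin r) (Fin N) R) :
    pl (a • b) = fun f => a ^ r * pl b f := by
  funext f
  unfold pl
  have : (a • b).submatrix id f = a • b.submatrix id f := rfl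
  rw [this, Matrix.det_smul, Fintype.card_fin]

theorem det_unit (g : (Matrix (Fin r) (Fin r) ℤ)ˣ) :
    (g : Matrix (Fin r) (Fin r) ℤ).det = 1 ∨ (g : Matrix (Fin r) (Fin r) ℤ).det = -1 := by
  apply Int.isUnit_iff.1
  apply IsUnit.of_mul_eq_one (b := ((g⁻¹ : (Matrix (Fin r) (Fin r) ℤ)ˣ) : Matrix (Fin r) (Fin r) ℤ).det)
  rw [← det_mul, Units.mul_inv, det_one]

end Pool.Agent.K6.H78.MR
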