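import Pool.Agent.K6.H78.MR.Rdc

/-!
Counting the last vector of a reduced family.
-/

set_option autoImplicit false
set_option linter.unusedSectionVars false
set_option linter.unusedVariables false

namespace Pool.Agent.K6.H78.MR

open Finset

variable {r N : ℕ}

theorem card_int (y ρ : ℝ) (hρ : 0 ≤ ρ) : ((Icc ⌈y - ρ⌉ ⌊y + ρ⌋).card : ℝ) ≤ 2 * ρ + 1 := by
  rw [Int.card_Icc]
  have h1 := Int.le_ceil (y - ρ)
  have h2 := Int.floor_le (y + ρ)
  rcases le_total 0 (⌊y + ρ⌋ + 1 - ⌈y - ρ⌉) with h | h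
  · have h3 : ((⌊y + ρ⌋ + 1 - ⌈y - ρ⌉).toNat : ℝ) = ((⌊y + ρ⌋ + 1 - ⌈y - ρ⌉ : ℤ) : ℝ) := by
      exact_mod_cast Int.toNat_of_nonneg h
    rw [h3]
    push_cast
    linarith
  · rw [Int.toNat_of_nonpos h]
    push_cast
    linarith

theorem mem_int {y ρ : ℝ} {a : ℤ} (h : |(a : ℝ) - y| ≤ ρ) : a ∈ Icc ⌈y - ρ⌉ ⌊y + ρ⌋ := by
  rw [Finset.mem_Icc]
  obtain ⟨h1, h2⟩ := abs_le.1 h
  exact ⟨Int.ceil_le.2 (by linarith), Int.le_floor.2 (by linarith)⟩

theorem ncard_bi {α β : Type*} [DecidableEq α] {S : Set α} {I : Finset β} {F : β → Set α} (h : S ⊆ ⋃ a ∈ I, F a)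
    (hF : ∀ a ∈ I, (F a).Finite) {B : ℝ} (hB : ∀ a ∈ I, ((F a).ncard : ℝ) ≤ B) :
    S.Finite ∧ (S.ncard : ℝ) ≤ I.card * B := by
  classical
  have hU : (⋃ a ∈ I, F a).Finite := Set.Finite.biUnion I.finite_toSet hF
  refine ⟨hU.subset h, ?_⟩
  have h1 : (S.ncard : ℝ) ≤ (⋃ a ∈ I, F a).ncard := by exact_mod_cast Set.ncard_le_ncard h hU
  refine h1.trans ?_
  have h2 : ((⋃ a ∈ I, F a).ncard : ℝ) ≤ ∑ a ∈ I, ((F a).ncard : ℝ) := by
    clear hB h1 h
    induction I using Finset.induction_on with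
    | empty => simp
    | insert a I ha ih =>
      rw [Finset.set_biUnion_insert, sum_insert ha]
      have h3 := ih (fun b hb => hF b (mem_insert_of_mem hb))
        (Set.Finite.biUnion I.finite_toSet fun b hb => hF b (mem_insert_of_mem hb))
      have h4 : ((F a ∪ ⋃ b ∈ I, F b).ncard : ℝ) ≤ (F a).ncard + (⋃ b ∈ I, F b).ncard := by
        exact_mod_cast Set.ncard_union_le _ _
      linarith
  refine h2.trans ((sum_le_sum hB).trans ?_)
  rw [sum_const, nsmul_eq_mul]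

/-- the number of integer vectors with given pivots -/
theorem cnt_last : ∀ (r : ℕ) (L : Finset (Fin N)) (f : Fin r → Fin N) (v : Fin r → Fin N → ℝ)
    (κ : Fin r → ℝ) (ρ : ℝ) (y : Fin N → ℝ) (ζ : Fin N → ℤ) (S : Set (Fin N → ℤ)), 0 ≤ ρ →
    (∀ j, 0 ≤ κ j) → (∀ i j, j < i → v i (f j) = 0) → (∀ j, |v j (f j)| ≤ 2 * κ j) →
    (∀ j, v j (f j) ≠ 0) → (∀ j, f j ∈ L) →
    (∀ x ∈ S, (∀ l, l ∉ L → x l = ζ l) ∧ ∃ (x' : Fin N → ℝ) (c : Fin r → ℝ),
      (∀ l, (x l : ℝ) - y l = x' l + ∑ j, c j * v j l) ∧ (∀ j, |c j| ≤ 1 / 2) ∧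
      (∀ j, x' (f j) = 0) ∧ ∀ l, |x' l| ≤ ρ) →
    S.Finite ∧ (S.ncard : ℝ) ≤ (∏ j, (2 * κ j + 1)) * (2 * ρ + 1) ^ (L.card - r) := by
  classical
  intro r
  induction r with
  | zero =>
    intro L f v κ ρ y ζ S hρ _ _ _ _ _ hS
    set P : Finset (Fin N → ℤ) := Fintype.piFinset fun l =>
      if l ∈ L then Icc ⌈y l - ρ⌉ ⌊y l + ρ⌋ else {ζ l} with hP
    have hsub : S ⊆ P := by
      intro x hx
      obtain ⟨h1, x', c, h2, _, _, h3⟩ := hS x hx
      rw [hP, Finset.mem_coe, Fintype.mem_piFinset]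
      intro l
      by_cases hl : l ∈ L
      · rw [if_pos hl]
        apply mem_int
        rw [h2 l]
        simpa using h3 l
      · rw [if_neg hl, mem_singleton]
        exact h1 l hl
    refine ⟨P.finite_toSet.subset hsub, ?_⟩
    have h1 : (S.ncard : ℝ) ≤ P.card := by
      have := Set.ncard_le_ncard hsub P.finite_toSet
      rw [Set.ncard_coe_finset] at this
      exact_mod_cast this
    refine h1.trans ?_
    rw [hP, Fintype.card_piFinset]
    push_cast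
    have h2 : ∀ l, ((if l ∈ L then Icc ⌈y l - ρ⌉ ⌊y l + ρ⌋ else {ζ l} : Finset ℤ).card : ℝ) ≤
        if l ∈ L then 2 * ρ + 1 else 1 := by
      intro l
      by_cases hl : l ∈ L
      · rw [if_pos hl, if_pos hl]
        exact card_int _ _ hρ
      · rw [if_neg hl, if_neg hl, card_singleton]
        norm_num
    refine (Finset.prod_le_prod (fun l _ => Nat.cast_nonneg _) fun l _ => h2 l).trans ?_
    rw [Finset.prod_ite, Finset.prod_const, Finset.prod_const_one, mul_one]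
    have h3 : (univ.filter fun l => l ∈ L) = L := by ext; simp
    rw [h3]
    simp
  | succ r ih =>
    intro L f v κ ρ y ζ S hρ hκ hz hv hv0 hfL hS
    set I : Finset ℤ := Icc ⌈y (f 0) - κ 0⌉ ⌊y (f 0) + κ 0⌋ with hI
    set F : ℤ → Set (Fin N → ℤ) := fun a => {x | x ∈ S ∧ x (f 0) = a} with hF
    have hinj : ∀ j : Fin r, f j.succ ≠ f 0 := by
      intro j h
      apply hv0 j.succ
      rw [h]
      exact hz j.succ 0 (Fin.succ_pos j)
    have hpiv : ∀ x ∈ S, ∃ c₀ : ℝ, |c₀| ≤ 1 / 2 ∧ (x (f 0) : ℝ) - y (f 0) = c₀ * v 0 (f 0) := by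
      intro x hx
      obtain ⟨h1, x', c, h2, h3, h4, h5⟩ := hS x hx
      refine ⟨c 0, h3 0, ?_⟩
      rw [h2, h4, zero_add, Fin.sum_univ_succ]
      have : ∑ i : Fin r, c i.succ * v i.succ (f 0) = 0 :=
        sum_eq_zero fun i _ => by rw [hz i.succ 0 (Fin.succ_pos i), mul_zero]
      rw [this, add_zero]
    have hcov : S ⊆ ⋃ a ∈ I, F a := by
      intro x hx
      rw [Set.mem_iUnion₂]
      refine ⟨x (f 0), ?_, hx, rfl⟩
      obtain ⟨c₀, h1, h2⟩ := hpiv x hx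
      apply mem_int
      rw [h2, abs_mul]
      have h3 := hv 0
      calc |c₀| * |v 0 (f 0)| ≤ 1 / 2 * (2 * κ 0) :=
            mul_le_mul h1 h3 (abs_nonneg _) (by norm_num)
        _ = κ 0 := by ring
    have hFa : ∀ a ∈ I, (F a).Finite ∧ ((F a).ncard : ℝ) ≤
        (∏ j : Fin r, (2 * κ j.succ + 1)) * (2 * ρ + 1) ^ ((L.erase (f 0)).card - r) := by
      intro a _
      refine ih (L.erase (f 0)) (fun j => f j.succ) (fun j => v j.succ) (fun j => κ j.succ) ρ
        (fun l => y l + ((a : ℝ) - y (f 0)) / v 0 (f 0) * v 0 l) (Function.update ζ (f 0) a) (F a) hρ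
        (fun j => hκ _) (fun i j hij => hz _ _ (Fin.succ_lt_succ_iff.2 hij)) (fun j => hv _)
        (fun j => hv0 _) (fun j => Finset.mem_erase.2 ⟨hinj j, hfL _⟩) ?_
      rintro x ⟨hx, hxa⟩
      obtain ⟨h1, x', c, h2, h3, h4, h5⟩ := hS x hx
      refine ⟨fun l hl => ?_, x', fun j => c j.succ, fun l => ?_, fun j => h3 _, fun j => h4 _, h5⟩
      · by_cases h : l = f 0
        · rw [h, hxa, Function.update_self]
        · rw [Function.update_of_ne h]
          apply h1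
          intro h6
          exact hl (Finset.mem_erase.2 ⟨h, h6⟩)
      · have h6 : c 0 = ((a : ℝ) - y (f 0)) / v 0 (f 0) := by
          rw [eq_div_iff (hv0 0), ← hxa, h2, h4, zero_add, Fin.sum_univ_succ]
          have : ∑ i : Fin r, c i.succ * v i.succ (f 0) = 0 :=
            sum_eq_zero fun i _ => by rw [hz i.succ 0 (Fin.succ_pos i), mul_zero]
          rw [this, add_zero]
        have h7 := h2 l
        rw [Fin.sum_univ_succ, h6] at h7
        linarith
    obtain ⟨h1, h2⟩ := ncard_bi hcov (fun a ha => (hFa a ha).1) fun a ha => (hFa a ha).2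
    refine ⟨h1, h2.trans ?_⟩
    have h3 : (L.erase (f 0)).card - r = L.card - (r + 1) := by
      rw [Finset.card_erase_of_mem (hfL 0)]
      omega
    rw [h3, Fin.prod_univ_succ]
    have h4 : (I.card : ℝ) ≤ 2 * κ 0 + 1 := card_int _ _ (hκ 0)
    have h5 : 0 ≤ (∏ j : Fin r, (2 * κ j.succ + 1)) * (2 * ρ + 1) ^ (L.card - (r + 1)) := by
      apply mul_nonneg
      · exact Finset.prod_nonneg fun j _ => by linarith [hκ j.succ]
      · positivity
    calc _ ≤ (2 * κ 0 + 1) * ((∏ j : Fin r, (2 * κ j.succ + 1)) *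
          (2 * ρ + 1) ^ (L.card - (r + 1))) := mul_le_mul_of_nonneg_right h4 h5
      _ = _ := by ring

end Pool.Agent.K6.H78.MR
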