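import Pool.Agent.K6.H78.MR.Cnl

/-!
Counting integer matrices with a given profile.
-/

set_option autoImplicit false
set_option linter.unusedSectionVars false
set_option linter.unusedVariables false

namespace Pool.Agent.K6.H78.MR

open Finset

variable {r N : ℕ}

theorem ncard_bw {α β : Type*} {S : Set α} {I : Finset β} {F : β → Set α} (h : S ⊆ ⋃ a ∈ I, F a)
    (hF : ∀ a ∈ I, (F a).Finite) {B : β → ℝ} (hB : ∀ a ∈ I, ((F a).ncard : ℝ) ≤ B a) :
    S.Finite ∧ (S.ncard : ℝ) ≤ ∑ a ∈ I, B a := by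
  classical
  have hU : (⋃ a ∈ I, F a).Finite := Set.Finite.biUnion I.finite_toSet hF
  refine ⟨hU.subset h, ?_⟩
  have h1 : (S.ncard : ℝ) ≤ (⋃ a ∈ I, F a).ncard := by exact_mod_cast Set.ncard_le_ncard h hU
  refine h1.trans ?_
  have h2 : ((⋃ a ∈ I, F a).ncard : ℝ) ≤ ∑ a ∈ I, ((F a).ncard : ℝ) := by
    clear hB h1 h
    induction I using Finset.induction_on with
    | empty => simp
    | insert a I ha ih =>
      rw [Finset.set_biUnion_insert, sum_insert ha]
      have h3 := ih (fun b hb => hF b (mem_insert_of_mem hb))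
        (Set.Finite.biUnion I.finite_toSet fun b hb => hF b (mem_insert_of_mem hb))
      have h4 : ((F a ∪ ⋃ b ∈ I, F b).ncard : ℝ) ≤ (F a).ncard + (⋃ b ∈ I, F b).ncard := by
        exact_mod_cast Set.ncard_union_le _ _
      linarith
  exact h2.trans (sum_le_sum hB)

/-- integer families as real families -/
def rl (b : Fin r → Fin N → ℤ) : Fin r → Fin N → ℝ := fun i l => (b i l : ℝ)

/-- bounded profile -/
def Pf (f : Fin r → Fin N) (A : Fin r → ℝ) : Set (Fin r → Fin N → ℤ) :=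
  {b | ∃ b' c, Rd (rl b) f b' c ∧ ∀ i, |b' i (f i)| ≤ 2 * A i}

theorem pf_fib {f : Fin (r + 1) → Fin N} {A : Fin (r + 1) → ℝ} (hA : ∀ i, 0 ≤ A i)
    (b₀ : Fin r → Fin N → ℤ) (hb₀ : b₀ ∈ Pf (fun i => f i.castSucc) (fun i => A i.castSucc)) :
    {b | (fun i => b i.castSucc) = b₀ ∧ b ∈ Pf f A}.Finite ∧
    ({b | (fun i => b i.castSucc) = b₀ ∧ b ∈ Pf f A}.ncard : ℝ) ≤
      (∏ j : Fin r, (2 * A j.castSucc + 1)) * (4 * A (Fin.last r) + 1) ^ (N - r) := by
  classical
  obtain ⟨v, c₀, hv, hvA⟩ := hb₀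
  set S := {b | (fun i => b i.castSucc) = b₀ ∧ b ∈ Pf f A} with hS
  set φ : (Fin (r + 1) → Fin N → ℤ) → (Fin N → ℤ) := fun b => b (Fin.last r) with hφ
  have hinj : Set.InjOn φ S := by
    rintro b ⟨h1, _⟩ b₂ ⟨h2, _⟩ h3
    funext i
    refine Fin.lastCases h3 (fun i => ?_) i
    exact congrFun (h1.trans h2.symm) i
  have h := cnt_last (N := N) r univ (fun i => f i.castSucc) v (fun i => A i.castSucc)
    (2 * A (Fin.last r)) 0 0 (φ '' S) (by linarith [hA (Fin.last r)]) (fun j => hA _) hv.zero hvA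
    (fun j => abs_pos.1 (hv.pos j)) (fun j => mem_univ _) ?_
  · obtain ⟨h1, h2⟩ := h
    refine ⟨Set.Finite.of_finite_image h1 hinj, ?_⟩
    rw [Set.ncard_image_of_injOn hinj, Finset.card_univ, Fintype.card_fin] at h2
    calc _ ≤ _ := h2
      _ = _ := by ring
  · rintro x ⟨b, ⟨h1, b', c, h2, h3⟩, rfl⟩
    refine ⟨fun l hl => absurd (mem_univ l) hl, b' (Fin.last r), fun j => c (Fin.last r) j.castSucc,
      fun l => ?_, fun j => h2.cb _ _, fun j => h2.zero _ _ (Fin.castSucc_lt_last j), fun l => ?_⟩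
    · have h4 := congrFun (h2.exp (Fin.last r)) l
      rw [Fin.sum_univ_castSucc] at h4
      simp only [lt_irrefl, if_false, zero_smul, add_zero, Fin.castSucc_lt_last, if_true,
        Pi.add_apply, Finset.sum_apply, Pi.smul_apply, smul_eq_mul] at h4
      have h5 : v = fun i => b' i.castSucc := by
        refine hv.uniq (b₂ := fun i => b' i.castSucc) (c₂ := fun i j => c i.castSucc j.castSucc) ?_
        have h6 := h2.init
        have h7 : (fun i : Fin r => rl b i.castSucc) = rl b₀ := by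
          rw [← h1]; rfl
        rw [h7] at h6
        exact h6
      rw [h5]
      show ((b (Fin.last r) l : ℤ) : ℝ) - (0 : Fin N → ℝ) l = _
      rw [Pi.zero_apply, sub_zero]
      exact h4
    · exact (h2.max _ l).trans (h3 _)

/-- **counting matrices with a bounded profile** -/
theorem cnm (N : ℕ) (K c : ℝ) (hK : 0 < K) (hc : 0 < c) : ∀ r : ℕ, r + 1 ≤ N → ∃ C : ℝ, 0 < C ∧
    ∀ (f : Fin (r + 1) → Fin N) (A : Fin (r + 1) → ℝ), (∀ i, 0 < A i) →
    (∀ i, 4 * A i + 1 ≤ K * A i) → (∀ j i, j < i → A j ≤ c * A i) →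
    (Pf f A).Finite ∧ ((Pf f A).ncard : ℝ) ≤
      C * ((∏ i, A i) ^ N * ∏ i : Fin r, (A 0 / A i.succ)) := by
  classical
  intro r
  induction r with
  | zero =>
    intro _
    refine ⟨K ^ N, by positivity, ?_⟩
    intro f A hA hAK _
    have hb₀ : (fun i => i.elim0 : Fin 0 → Fin N → ℤ) ∈
        Pf (fun i : Fin 0 => f i.castSucc) (fun i : Fin 0 => A i.castSucc) := by
      refine ⟨fun i => i.elim0, fun i => i.elim0, ⟨?_, ?_, ?_, ?_, ?_, ?_⟩, ?_⟩ <;>
        exact fun i => i.elim0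
    have h := pf_fib (fun i => (hA i).le) _ hb₀
    have h1 : {b | (fun i : Fin 0 => b i.castSucc) = (fun i => i.elim0 : Fin 0 → Fin N → ℤ) ∧
        b ∈ Pf f A} = Pf f A := by
      ext b
      simp only [Set.mem_setOf_eq, and_iff_right_iff_imp]
      intro _
      funext i
      exact i.elim0
    rw [h1] at h
    refine ⟨h.1, h.2.trans ?_⟩
    simp only [univ_eq_empty, prod_empty, one_mul, Nat.sub_zero, mul_one]
    rw [Fin.prod_univ_succ]
    simp only [univ_eq_empty, prod_empty, mul_one]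
    rw [← mul_pow]
    have h2 : (Fin.last 0) = 0 := rfl
    rw [h2]
    exact pow_le_pow_left₀ (by linarith [hA 0]) (hAK 0) N
  | succ r ih =>
    intro hN
    obtain ⟨C, hC, ih⟩ := ih (by omega)
    refine ⟨C * (K ^ (r + 1) * K ^ (N - (r + 1)) * (max c 1) ^ r), by positivity, ?_⟩
    intro f A hA hAK hAc
    obtain ⟨h1, h2⟩ := ih (fun i => f i.castSucc) (fun i => A i.castSucc) (fun i => hA _)
      (fun i => hAK _) (fun j i hji => hAc _ _ (Fin.castSucc_lt_castSucc_iff.2 hji))
    set J := h1.toFinset with hJ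
    have hcov : Pf f A ⊆ ⋃ b₀ ∈ J, {b | (fun i => b i.castSucc) = b₀ ∧ b ∈ Pf f A} := by
      intro b hb
      rw [Set.mem_iUnion₂]
      refine ⟨fun i => b i.castSucc, ?_, rfl, hb⟩
      rw [hJ, Set.Finite.mem_toFinset]
      obtain ⟨b', c', h3, h4⟩ := hb
      exact ⟨_, _, h3.init, fun i => h4 _⟩
    have h3 : ∀ b₀ ∈ J, _ ∧ _ := fun b₀ hb₀ => pf_fib (f := f) (A := A) (fun i => (hA i).le) b₀
      (by rw [hJ, Set.Finite.mem_toFinset] at hb₀; exact hb₀)
    obtain ⟨h4, h5⟩ := ncard_bi hcov (fun a ha => (h3 a ha).1) (fun a ha => (h3 a ha).2)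
    refine ⟨h4, h5.trans ?_⟩
    have h6 : (J.card : ℝ) = (Pf (fun i => f i.castSucc) (fun i => A i.castSucc)).ncard := by
      rw [hJ, Set.ncard_eq_toFinset_card _ h1]
    rw [h6]
    -- the last factor
    set a := A (Fin.last (r + 1)) with ha
    have ha0 : 0 < a := hA _
    have h7 : ∏ j : Fin (r + 1), (2 * A j.castSucc + 1) ≤ K ^ (r + 1) * ∏ j : Fin (r + 1), A j.castSucc := by
      have : ∏ j : Fin (r + 1), (K * A j.castSucc) = K ^ (r + 1) * ∏ j : Fin (r + 1), A j.castSucc := by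
        rw [Finset.prod_mul_distrib, prod_const, card_univ, Fintype.card_fin]
      rw [← this]
      refine Finset.prod_le_prod (fun j _ => by linarith [hA j.castSucc]) fun j _ => ?_
      linarith [hA j.castSucc, hAK j.castSucc]
    have h8 : (4 * a + 1) ^ (N - (r + 1)) ≤ K ^ (N - (r + 1)) * a ^ (N - (r + 1)) := by
      rw [← mul_pow]
      exact pow_le_pow_left₀ (by linarith) (hAK _) _
    have h9 : (∏ j : Fin (r + 1), A j.castSucc) * a ^ (N - (r + 1)) ≤
        (max c 1) ^ r * (a ^ N * (A 0 / a)) := by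
      rw [Fin.prod_univ_succ]
      have h10 : ∏ j : Fin r, A j.succ.castSucc ≤ (max c 1) ^ r * a ^ r := by
        have : ∏ j : Fin r, (max c 1 * a) = (max c 1) ^ r * a ^ r := by
          rw [prod_const, card_univ, Fintype.card_fin, mul_pow]
        rw [← this]
        refine Finset.prod_le_prod (fun j _ => (hA _).le) fun j _ => ?_
        refine (hAc _ _ (Fin.castSucc_lt_last _)).trans ?_
        exact mul_le_mul_of_nonneg_right (le_max_left _ _) ha0.le
      have h11 : a ^ N * (A 0 / a) = A 0 * (a ^ r * a ^ (N - (r + 1))) := by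
        have : a ^ N = a * (a ^ r * a ^ (N - (r + 1))) := by
          rw [← pow_add, ← pow_succ']
          congr 1
          omega
        rw [this]
        field_simp
      rw [h11]
      have h12 : A (Fin.castSucc 0) = A 0 := rfl
      have h0 := hA 0
      rw [h12]
      calc A 0 * (∏ j : Fin r, A j.succ.castSucc) * a ^ (N - (r + 1)) ≤
          A 0 * ((max c 1) ^ r * a ^ r) * a ^ (N - (r + 1)) := by gcongr
        _ = _ := by ring
    have hP : 0 ≤ ∏ i : Fin (r + 1), A i.castSucc := Finset.prod_nonneg fun i _ => (hA _).le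
    have hG : 0 ≤ (∏ i : Fin (r + 1), A i.castSucc) ^ N * ∏ i : Fin r, (A 0 / A i.succ.castSucc) := by
      apply mul_nonneg (pow_nonneg hP _)
      exact Finset.prod_nonneg fun i _ => div_nonneg (hA _).le (hA _).le
    have e1 : ∏ i : Fin (r + 2), A i = (∏ i : Fin (r + 1), A i.castSucc) * a := Fin.prod_univ_castSucc _
    have e2 : ∏ i : Fin (r + 1), (A 0 / A i.succ) = (∏ i : Fin r, (A 0 / A i.succ.castSucc)) * (A 0 / a) := by
      rw [Fin.prod_univ_castSucc]
      rfl
    rw [e1, e2]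
    have h13 : (∏ j : Fin (r + 1), (2 * A j.castSucc + 1)) * (4 * a + 1) ^ (N - (r + 1)) ≤
        K ^ (r + 1) * K ^ (N - (r + 1)) * (max c 1) ^ r * (a ^ N * (A 0 / a)) := by
      calc (∏ j : Fin (r + 1), (2 * A j.castSucc + 1)) * (4 * a + 1) ^ (N - (r + 1)) ≤
          (K ^ (r + 1) * ∏ j : Fin (r + 1), A j.castSucc) * (K ^ (N - (r + 1)) * a ^ (N - (r + 1))) :=
            mul_le_mul h7 h8 (by positivity) (by positivity)
        _ = K ^ (r + 1) * K ^ (N - (r + 1)) * ((∏ j : Fin (r + 1), A j.castSucc) * a ^ (N - (r + 1))) := by ring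
        _ ≤ K ^ (r + 1) * K ^ (N - (r + 1)) * ((max c 1) ^ r * (a ^ N * (A 0 / a))) :=
            mul_le_mul_of_nonneg_left h9 (by positivity)
        _ = _ := by ring
    calc _ ≤ (C * ((∏ i : Fin (r + 1), A i.castSucc) ^ N * ∏ i : Fin r, (A 0 / A i.succ.castSucc))) *
          (K ^ (r + 1) * K ^ (N - (r + 1)) * (max c 1) ^ r * (a ^ N * (A 0 / a))) := by
          apply mul_le_mul h2 h13 _ (mul_nonneg hC.le hG)
          apply mul_nonneg
          · exact Finset.prod_nonneg fun j _ => by linarith [hA j.castSucc]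
          · positivity
      _ = _ := by ring

end Pool.Agent.K6.H78.MR
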