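import Pool.Agent.K6.H78.MR.Cnm

/-!
Crude upper bounds for the number of pairs (reduced basis, coordinates).
-/

set_option autoImplicit false
set_option linter.unusedSectionVars false
set_option linter.unusedVariables false

namespace Pool.Agent.K6.H78.MR

open Finset

variable {r N M : ℕ}

theorem rd_b0 {b : Fin (r + 1) → Fin N → ℝ} {f : Fin (r + 1) → Fin N}
    {b' : Fin (r + 1) → Fin N → ℝ} {c : Fin (r + 1) → Fin (r + 1) → ℝ} (h : Rd b f b' c) :
    b 0 = b' 0 := by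
  have := h.exp 0
  rw [this]
  simp

theorem rd_one {b : Fin (r + 1) → Fin N → ℤ} {f : Fin (r + 1) → Fin N}
    {b' : Fin (r + 1) → Fin N → ℝ} {c : Fin (r + 1) → Fin (r + 1) → ℝ} (h : Rd (rl b) f b' c) :
    1 ≤ |b' 0 (f 0)| := by
  have h1 := rd_b0 h
  have h2 := h.pos 0
  rw [← h1] at h2 ⊢
  have h3 : |rl b 0 (f 0)| = ((|b 0 (f 0)| : ℤ) : ℝ) := by
    rw [Int.cast_abs]; rfl
  rw [h3] at h2 ⊢
  have h4 : 0 < |b 0 (f 0)| := by exact_mod_cast h2
  exact_mod_cast (show 1 ≤ |b 0 (f 0)| by omega)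

theorem rd_lb {b : Fin (r + 1) → Fin N → ℤ} {f : Fin (r + 1) → Fin N}
    {b' : Fin (r + 1) → Fin N → ℝ} {c : Fin (r + 1) → Fin (r + 1) → ℝ} (h : Rd (rl b) f b' c)
    (i : Fin (r + 1)) : 1 ≤ 2 ^ r * |b' i (f i)| := by
  have h1 := h.grow' (i : ℕ) 0 i (by simp)
  have h2 := rd_one h
  have h3 : (2 : ℝ) ^ (i : ℕ) ≤ 2 ^ r := pow_le_pow_right₀ (by norm_num) (by omega)
  have h4 := abs_nonneg (b' i (f i))
  nlinarith

theorem rd_mono {b : Fin (r + 1) → Fin N → ℝ} {f : Fin (r + 1) → Fin N}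
    {b' : Fin (r + 1) → Fin N → ℝ} {c : Fin (r + 1) → Fin (r + 1) → ℝ} (h : Rd b f b' c)
    {i j : Fin (r + 1)} (hij : i ≤ j) : |b' i (f i)| ≤ 2 ^ r * |b' j (f j)| := by
  have h1 := h.grow' ((j : ℕ) - i) i j (by
    have : (i : ℕ) ≤ j := hij
    omega)
  refine h1.trans (mul_le_mul_of_nonneg_right ?_ (abs_nonneg _))
  exact pow_le_pow_right₀ (by norm_num) (by omega)

theorem prod_zp {ι : Type*} (s : Finset ι) (a : ι → ℤ) : ∏ i ∈ s, (2 : ℝ) ^ (a i) = 2 ^ (∑ i ∈ s, a i) := by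
  classical
  induction s using Finset.induction_on with
  | empty => simp
  | insert i s hi ih => rw [prod_insert hi, sum_insert hi, zpow_add₀ (by norm_num), ih]

/-- the pairs with given pivots and given dyadic profile -/
def Pc (f : Fin (r + 1) → Fin N) (a : Fin (r + 1) → ℤ) (X : ℝ) :
    Set ((Fin (r + 1) → Fin N → ℤ) × (Fin M → Fin (r + 1) → ℤ)) :=
  {z | ∃ b' c, Rd (rl z.1) f b' c ∧
    (∀ i, (2 : ℝ) ^ (a i) ≤ |b' i (f i)| ∧ |b' i (f i)| < 2 ^ (a i + 1)) ∧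
    (∃ j, z.2 j (Fin.last r) ≠ 0) ∧ ∀ j, ‖∑ i, (z.2 j i : ℝ) • rl z.1 i‖ ≤ X}

theorem box_card (M : ℕ) (ρ : Fin (r + 1) → ℝ) (hρ : ∀ i, 0 ≤ ρ i) :
    {q : Fin M → Fin (r + 1) → ℤ | ∀ j i, |(q j i : ℝ)| ≤ ρ i}.Finite ∧
    ({q : Fin M → Fin (r + 1) → ℤ | ∀ j i, |(q j i : ℝ)| ≤ ρ i}.ncard : ℝ) ≤
      (∏ i, (2 * ρ i + 1)) ^ M := by
  classical
  set P : Finset (Fin M → Fin (r + 1) → ℤ) := Fintype.piFinset fun _ =>
    Fintype.piFinset fun i => Icc ⌈(0 : ℝ) - ρ i⌉ ⌊(0 : ℝ) + ρ i⌋ with hP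
  have hsub : {q : Fin M → Fin (r + 1) → ℤ | ∀ j i, |(q j i : ℝ)| ≤ ρ i} ⊆ P := by
    intro q hq
    rw [hP, Finset.mem_coe, Fintype.mem_piFinset]
    intro j
    rw [Fintype.mem_piFinset]
    intro i
    apply mem_int
    rw [sub_zero]
    exact hq j i
  refine ⟨P.finite_toSet.subset hsub, ?_⟩
  have h1 : ({q : Fin M → Fin (r + 1) → ℤ | ∀ j i, |(q j i : ℝ)| ≤ ρ i}.ncard : ℝ) ≤ P.card := by
    have := Set.ncard_le_ncard hsub P.finite_toSet
    rw [Set.ncard_coe_finset] at this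
    exact_mod_cast this
  refine h1.trans ?_
  rw [hP, Fintype.card_piFinset]
  simp only [Fintype.card_piFinset]
  rw [prod_const, card_univ, Fintype.card_fin]
  push_cast
  apply pow_le_pow_left₀ (Finset.prod_nonneg fun i _ => Nat.cast_nonneg _)
  exact Finset.prod_le_prod (fun i _ => Nat.cast_nonneg _) fun i _ => card_int _ _ (hρ i)

/-- **one piece** -/
theorem piece (hMN : M ≤ N) (hrN : r + 1 ≤ N) : ∃ C : ℝ, 0 < C ∧
    ∀ (f : Fin (r + 1) → Fin N) (a : Fin (r + 1) → ℤ) (X : ℝ), 0 < X →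
    (Pc (M := M) f a X).Finite ∧ ((Pc (M := M) f a X).ncard : ℝ) ≤
      C * (X ^ ((r + 1) * M) * ((2 : ℝ) ^ (∑ i, a i)) ^ (N - M) * ∏ i : Fin r, (2 : ℝ) ^ (a 0 - a i.succ)) := by
  classical
  set c : ℝ := 2 ^ (r + 1) with hc
  set K : ℝ := 4 + c with hK
  obtain ⟨C, hC, hcnm⟩ := cnm N K c (by positivity) (by positivity) r hrN
  have hcC := cC_pos (r + 1)
  set D : ℝ := cC (r + 1) with hD
  set K' : ℝ := 2 * D + c * D with hK'
  refine ⟨C * K' ^ ((r + 1) * M), by positivity, ?_⟩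
  intro f a X hX
  by_cases hne : (Pc (M := M) f a X).Nonempty
  swap
  · rw [Set.not_nonempty_iff_eq_empty] at hne
    rw [hne]
    refine ⟨Set.finite_empty, ?_⟩
    rw [Set.ncard_empty, Nat.cast_zero]
    positivity
  obtain ⟨z, b', c', h1, h2, ⟨j, h3⟩, h4⟩ := hne
  have hApos : ∀ i, (0 : ℝ) < 2 ^ (a i) := fun i => by positivity
  have hA2 : ∀ i, |b' i (f i)| ≤ 2 * 2 ^ (a i) := by
    intro i
    have := (h2 i).2
    rw [zpow_add_one₀ (by norm_num)] at this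
    linarith
  have hAK : ∀ i, 4 * (2 : ℝ) ^ (a i) + 1 ≤ K * 2 ^ (a i) := by
    intro i
    have h5 := rd_lb h1 i
    have h6 := hA2 i
    have h7 : (0 : ℝ) < 2 ^ r := by positivity
    have h8 : c = 2 ^ r * 2 := by rw [hc, pow_succ]
    rw [hK, h8]
    nlinarith
  have hAc : ∀ j i, j ≤ i → (2 : ℝ) ^ (a j) ≤ c * 2 ^ (a i) := by
    intro j i hji
    have h5 := rd_mono h1 hji
    have h6 := hA2 i
    have h7 : (0 : ℝ) < 2 ^ r := by positivity
    rw [hc, pow_succ]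
    nlinarith [(h2 j).1]
  obtain ⟨h5, h6⟩ := hcnm f (fun i => (2 : ℝ) ^ (a i)) hApos hAK fun j i hji => hAc j i hji.le
  -- the bound for the profile
  have h7 : ∀ i, (2 : ℝ) ^ (a i) ≤ c * (D * X) := by
    intro i
    have h8 := coord (r + 1) _ f b' c' h1 (fun i => (z.2 j i : ℝ)) (Fin.last r)
    have h9 : (1 : ℝ) ≤ |(z.2 j (Fin.last r) : ℝ)| := by
      rw [← Int.cast_abs]
      have : 0 < |z.2 j (Fin.last r)| := abs_pos.2 h3
      exact_mod_cast (show 1 ≤ |z.2 j (Fin.last r)| by omega)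
    have h10 : D * ‖∑ i, (z.2 j i : ℝ) • rl z.1 i‖ ≤ D * X := mul_le_mul_of_nonneg_left (h4 j) hcC.le
    have h11 : (2 : ℝ) ^ (a (Fin.last r)) ≤ D * X := by
      have := (h2 (Fin.last r)).1
      have h12 := abs_nonneg (b' (Fin.last r) (f (Fin.last r)))
      nlinarith
    refine (hAc i _ (Fin.le_last i)).trans ?_
    exact mul_le_mul_of_nonneg_left h11 (by positivity)
  obtain ⟨h8, h9⟩ := box_card (r := r) M (fun i => D * X / 2 ^ (a i)) fun i => by positivity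
  have hsub : Pc (M := M) f a X ⊆ Pf f (fun i => (2 : ℝ) ^ (a i)) ×ˢ
      {q : Fin M → Fin (r + 1) → ℤ | ∀ j i, |(q j i : ℝ)| ≤ D * X / 2 ^ (a i)} := by
    rintro z ⟨b', c', g1, g2, _, g4⟩
    refine ⟨⟨b', c', g1, fun i => ?_⟩, fun j i => ?_⟩
    · have := (g2 i).2
      rw [zpow_add_one₀ (by norm_num)] at this
      show |b' i (f i)| ≤ 2 * (2 : ℝ) ^ (a i)
      linarith
    · rw [le_div_iff₀ (hApos i)]
      have g8 := coord (r + 1) _ f b' c' g1 (fun i => (z.2 j i : ℝ)) i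
      refine (mul_le_mul_of_nonneg_left (g2 i).1 (abs_nonneg _)).trans (g8.trans ?_)
      exact mul_le_mul_of_nonneg_left (g4 j) hcC.le
  refine ⟨(h5.prod h8).subset hsub, ?_⟩
  have h10 : ((Pc (M := M) f a X).ncard : ℝ) ≤ (Pf f (fun i => (2 : ℝ) ^ (a i))).ncard *
      ({q : Fin M → Fin (r + 1) → ℤ | ∀ j i, |(q j i : ℝ)| ≤ D * X / 2 ^ (a i)}.ncard : ℝ) := by
    have := Set.ncard_le_ncard hsub (h5.prod h8)
    rw [Set.ncard_prod] at this
    exact_mod_cast this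
  refine h10.trans ?_
  have h11 : (∏ i : Fin (r + 1), (2 * (D * X / 2 ^ (a i)) + 1)) ^ M ≤
      K' ^ ((r + 1) * M) * (X ^ ((r + 1) * M) / (∏ i : Fin (r + 1), (2 : ℝ) ^ (a i)) ^ M) := by
    have : K' ^ ((r + 1) * M) * (X ^ ((r + 1) * M) / (∏ i : Fin (r + 1), (2 : ℝ) ^ (a i)) ^ M) =
        (∏ i : Fin (r + 1), (K' * X / 2 ^ (a i))) ^ M := by
      rw [Finset.prod_div_distrib, prod_const, card_univ, Fintype.card_fin, div_pow, mul_pow,
        pow_mul, pow_mul]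
      rw [mul_pow]
      ring
    rw [this]
    apply pow_le_pow_left₀
    · exact Finset.prod_nonneg fun i _ => by positivity
    · refine Finset.prod_le_prod (fun i _ => by positivity) fun i _ => ?_
      have h12 : 1 ≤ c * (D * X) / 2 ^ (a i) := by
        rw [le_div_iff₀ (hApos i), one_mul]
        exact h7 i
      have h13 : K' * X / 2 ^ (a i) = 2 * (D * X / 2 ^ (a i)) + c * (D * X) / 2 ^ (a i) := by
        rw [hK']; ring
      rw [h13]
      linarith
  have hPp : (0 : ℝ) < ∏ i : Fin (r + 1), (2 : ℝ) ^ (a i) := Finset.prod_pos fun i _ => hApos i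
  calc ((Pf f (fun i => (2 : ℝ) ^ (a i))).ncard : ℝ) *
      ({q : Fin M → Fin (r + 1) → ℤ | ∀ j i, |(q j i : ℝ)| ≤ D * X / 2 ^ (a i)}.ncard : ℝ) ≤
      (C * ((∏ i, (2 : ℝ) ^ (a i)) ^ N * ∏ i : Fin r, ((2 : ℝ) ^ (a 0) / 2 ^ (a i.succ)))) *
      (K' ^ ((r + 1) * M) * (X ^ ((r + 1) * M) / (∏ i : Fin (r + 1), (2 : ℝ) ^ (a i)) ^ M)) := by
        apply mul_le_mul h6 (h9.trans h11) (Nat.cast_nonneg _)
        apply mul_nonneg hC.le
        apply mul_nonneg (pow_nonneg hPp.le _)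
        exact Finset.prod_nonneg fun i _ => by positivity
    _ = C * K' ^ ((r + 1) * M) * (X ^ ((r + 1) * M) *
        ((∏ i, (2 : ℝ) ^ (a i)) ^ N / (∏ i : Fin (r + 1), (2 : ℝ) ^ (a i)) ^ M) *
        ∏ i : Fin r, ((2 : ℝ) ^ (a 0) / 2 ^ (a i.succ))) := by ring
    _ = _ := by
        rw [← prod_zp]
        have e1 : (∏ i, (2 : ℝ) ^ (a i)) ^ N / (∏ i : Fin (r + 1), (2 : ℝ) ^ (a i)) ^ M =
            (∏ i, (2 : ℝ) ^ (a i)) ^ (N - M) := by
          rw [div_eq_iff (pow_ne_zero _ hPp.ne'), ← pow_add]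
          congr 1
          omega
        have e2 : ∀ i : Fin r, (2 : ℝ) ^ (a 0) / 2 ^ (a i.succ) = (2 : ℝ) ^ (a 0 - a i.succ) := by
          intro i
          rw [zpow_sub₀ (by norm_num)]
        rw [e1]
        simp only [e2]

theorem lg_two_pow (n : ℕ) {x : ℝ} (hx : 0 < x) : Int.log 2 (2 ^ n * x) = n + Int.log 2 x := by
  have h1 : (2 : ℝ) ^ n * x = x * ((2 : ℕ) : ℝ) ^ (n : ℤ) := by
    rw [zpow_natCast, Nat.cast_ofNat, mul_comm]
  apply le_antisymm
  · have h2 : (2 : ℝ) ^ n * x < ((2 : ℕ) : ℝ) ^ ((n : ℤ) + Int.log 2 x + 1) := by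
      have h3 := Int.lt_zpow_succ_log_self (b := 2) (by norm_num) x
      rw [show (n : ℤ) + Int.log 2 x + 1 = n + (Int.log 2 x + 1) by ring,
        zpow_add₀ (by norm_num), zpow_natCast]
      rw [Nat.cast_ofNat] at h3 ⊢
      exact mul_lt_mul_of_pos_left h3 (by positivity)
    have := (Int.lt_zpow_iff_log_lt (by norm_num) (by positivity)).1 h2
    omega
  · apply (Int.zpow_le_iff_le_log (by norm_num) (by positivity)).1
    rw [zpow_add₀ (by norm_num), zpow_natCast]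
    have h3 := Int.zpow_log_le_self (b := 2) (by norm_num) hx
    rw [Nat.cast_ofNat] at h3 ⊢
    exact mul_le_mul_of_nonneg_left h3 (by positivity)

theorem lg_self {x : ℝ} (hx : 0 < x) : (2 : ℝ) ^ (Int.log 2 x) ≤ x ∧ x < 2 ^ (Int.log 2 x + 1) := by
  have h3 := Int.zpow_log_le_self (b := 2) (by norm_num) hx
  have h4 := Int.lt_zpow_succ_log_self (b := 2) (by norm_num) x
  rw [Nat.cast_ofNat] at h3 h4
  exact ⟨h3, h4⟩

theorem lg_mono {x y : ℝ} (hx : 0 < x) (hxy : x ≤ y) : Int.log 2 x ≤ Int.log 2 y :=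
  Int.log_mono_right hx hxy

/-- the pairs with a reduced basis, logarithmic covolume in `W` and excess at least `k` -/
def Cr (X : ℝ) (W : Finset ℤ) (k : ℕ) :
    Set ((Fin (r + 1) → Fin N → ℤ) × (Fin M → Fin (r + 1) → ℤ)) :=
  {z | ∃ f b' c, Rd (rl z.1) f b' c ∧ (∑ i, Int.log 2 |b' i (f i)|) ∈ W ∧
    2 ^ k * |b' 0 (f 0)| ≤ 2 ^ r * |b' (Fin.last r) (f (Fin.last r))| ∧
    (∃ j, z.2 j (Fin.last r) ≠ 0) ∧ ∀ j, ‖∑ i, (z.2 j i : ℝ) • rl z.1 i‖ ≤ X}

theorem geo_le (E : ℕ) : ∑ n ∈ range E, (3 / 4 : ℝ) ^ n ≤ 4 := by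
  have h := geom_sum_eq (show (3 / 4 : ℝ) ≠ 1 by norm_num) E
  rw [h]
  have : (0 : ℝ) ≤ (3 / 4) ^ E := by positivity
  rw [div_le_iff_of_neg (by norm_num)]
  linarith

/-- **the crude bound** -/
theorem crd (hMN : M ≤ N) (hrN : r + 1 ≤ N) : ∃ C : ℝ, 0 < C ∧
    ∀ (X : ℝ) (W : Finset ℤ) (k : ℕ), 0 < X →
    (Cr (r := r) (N := N) (M := M) X W k).Finite ∧ ((Cr (r := r) (N := N) (M := M) X W k).ncard : ℝ) ≤
      C * ((2 / 3) ^ k * X ^ ((r + 1) * M) * ∑ s ∈ W, ((2 : ℝ) ^ s) ^ (N - M)) := by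
  classical
  obtain ⟨C, hC, hp⟩ := piece (r := r) (N := N) (M := M) hMN hrN
  refine ⟨(N : ℝ) ^ (r + 1) * (C * 2 ^ (r * r) * 4 ^ r), by
    have : (0 : ℝ) < N := by exact_mod_cast (show 0 < N by omega)
    positivity, ?_⟩
  intro X W k hX
  have hcC := cC_pos (r + 1)
  set D : ℝ := cC (r + 1) with hD
  set E : ℕ := (Int.log 2 (2 ^ r * (D * X))).toNat + r + 2 with hE
  set I : Finset ((Fin (r + 1) → Fin N) × ℤ × (Fin r → ℕ)) :=
    univ ×ˢ W ×ˢ Fintype.piFinset (fun _ => range E) with hI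
  -- the conditions for one piece
  set F : ((Fin (r + 1) → Fin N) × ℤ × (Fin r → ℕ)) →
      Set ((Fin (r + 1) → Fin N → ℤ) × (Fin M → Fin (r + 1) → ℤ)) := fun x =>
    {z | ∃ b' c, Rd (rl z.1) x.1 b' c ∧ (∑ i, Int.log 2 |b' i (x.1 i)|) = x.2.1 ∧
      (∀ i : Fin r, (x.2.2 i : ℤ) =
        Int.log 2 |b' i.succ (x.1 i.succ)| - Int.log 2 |b' 0 (x.1 0)| + (i + 1)) ∧
      2 ^ k * |b' 0 (x.1 0)| ≤ 2 ^ r * |b' (Fin.last r) (x.1 (Fin.last r))| ∧
      (∃ j, z.2 j (Fin.last r) ≠ 0) ∧ ∀ j, ‖∑ i, (z.2 j i : ℝ) • rl z.1 i‖ ≤ X} with hF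
  have hcov : Cr (r := r) (N := N) (M := M) X W k ⊆ ⋃ x ∈ I, F x := by
    rintro z ⟨f, b', c, h1, h2, h3, ⟨j, h4⟩, h5⟩
    have hpos := h1.pos
    -- exponents
    have h6 : ∀ i : Fin r, 0 ≤ Int.log 2 |b' i.succ (f i.succ)| - Int.log 2 |b' 0 (f 0)| + ((i : ℤ) + 1) := by
      intro i
      have h7 := h1.grow' ((i : ℕ) + 1) 0 i.succ (by simp)
      have h8 := lg_mono (hpos 0) h7
      rw [lg_two_pow _ (hpos _)] at h8
      push_cast at h8
      linarith
    have h9 : ∀ i : Fin r, Int.log 2 |b' i.succ (f i.succ)| - Int.log 2 |b' 0 (f 0)| + ((i : ℤ) + 1) < E := by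
      intro i
      have h10 : |b' i.succ (f i.succ)| ≤ 2 ^ r * (D * X) := by
        refine (rd_mono h1 (Fin.le_last _)).trans ?_
        have h8 := coord (r + 1) _ f b' c h1 (fun i => (z.2 j i : ℝ)) (Fin.last r)
        have h9 : (1 : ℝ) ≤ |(z.2 j (Fin.last r) : ℝ)| := by
          rw [← Int.cast_abs]
          have : 0 < |z.2 j (Fin.last r)| := abs_pos.2 h4
          exact_mod_cast (show 1 ≤ |z.2 j (Fin.last r)| by omega)
        have h10 : D * ‖∑ i, (z.2 j i : ℝ) • rl z.1 i‖ ≤ D * X :=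
          mul_le_mul_of_nonneg_left (h5 j) hcC.le
        have h11 : |b' (Fin.last r) (f (Fin.last r))| ≤ D * X := by
          have h12 := abs_nonneg (b' (Fin.last r) (f (Fin.last r)))
          nlinarith
        exact mul_le_mul_of_nonneg_left h11 (by positivity)
      have h11 := lg_mono (hpos _) h10
      have h12 : 0 ≤ Int.log 2 |b' 0 (f 0)| := by
        have := lg_mono one_pos (rd_one h1)
        rwa [Int.log_one_right] at this
      have h13 := Int.self_le_toNat (Int.log 2 (2 ^ r * (D * X)))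
      have h14 : (i : ℕ) < r := i.2
      have h15 : ((i : ℕ) : ℤ) < r := by exact_mod_cast h14
      rw [hE]
      push_cast
      linarith
    rw [Set.mem_iUnion₂]
    refine ⟨(f, ∑ i, Int.log 2 |b' i (f i)|, fun i : Fin r =>
      (Int.log 2 |b' i.succ (f i.succ)| - Int.log 2 |b' 0 (f 0)| + ((i : ℤ) + 1)).toNat), ?_, ?_⟩
    · rw [hI, mem_product, mem_product]
      refine ⟨mem_univ _, h2, ?_⟩
      rw [Fintype.mem_piFinset]
      intro i
      rw [mem_range]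
      have e1 := h9 i
      have e2 := Int.toNat_of_nonneg (h6 i)
      show (Int.log 2 |b' i.succ (f i.succ)| - Int.log 2 |b' 0 (f 0)| + ((i : ℤ) + 1)).toNat < E
      omega
    · exact ⟨b', c, h1, rfl, fun i => Int.toNat_of_nonneg (h6 i), h3, ⟨j, h4⟩, h5⟩
  -- the bound for one piece
  set B : ((Fin (r + 1) → Fin N) × ℤ × (Fin r → ℕ)) → ℝ := fun x =>
    C * 2 ^ (r * r) * ((2 / 3) ^ k * X ^ ((r + 1) * M)) * (((2 : ℝ) ^ x.2.1) ^ (N - M) *
      ∏ i : Fin r, (3 / 4 : ℝ) ^ (x.2.2 i)) with hB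
  have hFB : ∀ x ∈ I, (F x).Finite ∧ ((F x).ncard : ℝ) ≤ B x := by
    rintro ⟨f, s, e⟩ _
    by_cases hne : (F (f, s, e)).Nonempty
    swap
    · rw [Set.not_nonempty_iff_eq_empty] at hne
      rw [hne]
      refine ⟨Set.finite_empty, ?_⟩
      rw [Set.ncard_empty, Nat.cast_zero, hB]
      positivity
    obtain ⟨z₀, b₀, c₀, g1, g2, g3, g4, g5, g6⟩ := hne
    simp only at g1 g2 g3 g4
    set a : Fin (r + 1) → ℤ := fun i => Int.log 2 |b₀ i (f i)| with ha
    have hsub : F (f, s, e) ⊆ Pc (M := M) f a X := by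
      rintro z ⟨b', c, h1, h2, h3, h4, h5, h6⟩
      simp only at h1 h2 h3 h4
      refine ⟨b', c, h1, ?_, h5, h6⟩
      -- the profiles agree
      have h7 : ∀ i : Fin r, Int.log 2 |b' i.succ (f i.succ)| - Int.log 2 |b' 0 (f 0)| =
          a i.succ - a 0 := by
        intro i
        have e1 := h3 i
        have e2 := g3 i
        rw [ha]
        simp only
        linarith
      have h8 : Int.log 2 |b' 0 (f 0)| = a 0 := by
        have e1 : ∑ i, Int.log 2 |b' i (f i)| = ∑ i, a i := by rw [h2, ← g2]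
        rw [Fin.sum_univ_succ, Fin.sum_univ_succ] at e1
        have e2 : ∑ i : Fin r, Int.log 2 |b' i.succ (f i.succ)| =
            ∑ i : Fin r, (a i.succ - a 0 + Int.log 2 |b' 0 (f 0)|) :=
          sum_congr rfl fun i _ => by rw [← h7 i]; ring
        rw [e2, sum_add_distrib, Finset.sum_sub_distrib, sum_const, sum_const, card_univ,
          Fintype.card_fin, nsmul_eq_mul, nsmul_eq_mul] at e1
        have e3 : (((r : ℤ) + 1) * (Int.log 2 |b' 0 (f 0)| - a 0)) = 0 := by linarith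
        have e4 : ((r : ℤ) + 1) ≠ 0 := by positivity
        have := (mul_eq_zero.1 e3).resolve_left e4
        linarith
      intro i
      have h9 : a i = Int.log 2 |b' i (f i)| := by
        refine Fin.cases h8.symm (fun i => ?_) i
        have := h7 i
        linarith
      rw [h9]
      exact lg_self (h1.pos i)
    obtain ⟨p1, p2⟩ := hp f a X hX
    refine ⟨p1.subset hsub, ?_⟩
    have h10 : ((F (f, s, e)).ncard : ℝ) ≤ (Pc (M := M) f a X).ncard := by
      exact_mod_cast Set.ncard_le_ncard hsub p1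
    refine h10.trans (p2.trans ?_)
    have h11 : ∑ i, a i = s := g2
    rw [h11, hB]
    simp only
    -- the product of the quotients
    have h12 : ∏ i : Fin r, (2 : ℝ) ^ (a 0 - a i.succ) ≤ 2 ^ (r * r) * ((2 / 3) ^ k *
        ∏ i : Fin r, (3 / 4 : ℝ) ^ (e i)) := by
      have h13 : ∀ i : Fin r, (2 : ℝ) ^ (a 0 - a i.succ) ≤ 2 ^ r * ((2 / 3 : ℝ) ^ (e i) * (3 / 4) ^ (e i)) := by
        intro i
        have h14 : a 0 - a i.succ = ((i : ℤ) + 1) - e i := by
          have := g3 i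
          rw [ha]
          simp only
          linarith
        rw [h14, zpow_sub₀ (by norm_num)]
        have h15 : ((2 : ℝ) ^ ((i : ℤ) + 1)) ≤ 2 ^ r := by
          rw [← zpow_natCast]
          apply zpow_le_zpow_right₀ (by norm_num)
          have h14 : (i : ℕ) < r := i.2
          omega
        have h16 : (2 / 3 : ℝ) ^ (e i) * (3 / 4) ^ (e i) = ((2 : ℝ) ^ (e i : ℤ))⁻¹ := by
          rw [← mul_pow, zpow_natCast, ← inv_pow]
          norm_num
        rw [h16, div_eq_mul_inv]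
        exact mul_le_mul_of_nonneg_right h15 (by positivity)
      refine (Finset.prod_le_prod (fun i _ => by positivity) fun i _ => h13 i).trans ?_
      rw [Finset.prod_mul_distrib, prod_const, card_univ, Fintype.card_fin, ← pow_mul,
        Finset.prod_mul_distrib, Finset.prod_pow_eq_pow_sum]
      apply mul_le_mul_of_nonneg_left _ (by positivity)
      apply mul_le_mul_of_nonneg_right _ (by positivity)
      apply pow_le_pow_of_le_one (by norm_num) (by norm_num)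
      -- `k ≤ ∑ e`
      have h17 : (k : ℤ) + a 0 ≤ r + a (Fin.last r) := by
        have := lg_mono (by have := g1.pos 0; positivity) g4
        rw [lg_two_pow _ (g1.pos 0), lg_two_pow _ (g1.pos _)] at this
        exact this
      rcases Nat.eq_zero_or_pos r with h18 | h18
      · subst h18
        have : (Fin.last 0) = 0 := rfl
        rw [this] at h17
        omega
      · obtain ⟨t, rfl⟩ : ∃ t, r = t + 1 := ⟨r - 1, by omega⟩
        have h19 : k ≤ e (Fin.last t) := by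
          have h20 := g3 (Fin.last t)
          have h21 : (Fin.last t).succ = Fin.last (t + 1) := rfl
          rw [h21] at h20
          have h22 : (k : ℤ) ≤ e (Fin.last t) := by
            rw [h20]
            rw [ha] at h17
            simp only at h17
            have h23 : (((Fin.last t : Fin (t + 1)) : ℕ) : ℤ) = t := by simp
            rw [h23]
            push_cast at h17
            linarith
          exact_mod_cast h22
        exact h19.trans (Finset.single_le_sum (fun i _ => Nat.zero_le _) (mem_univ _))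
    have hnn : (0 : ℝ) ≤ X ^ ((r + 1) * M) * ((2 : ℝ) ^ s) ^ (N - M) := by positivity
    calc C * (X ^ ((r + 1) * M) * ((2 : ℝ) ^ s) ^ (N - M) * ∏ i : Fin r, (2 : ℝ) ^ (a 0 - a i.succ)) ≤
        C * (X ^ ((r + 1) * M) * ((2 : ℝ) ^ s) ^ (N - M) * (2 ^ (r * r) * ((2 / 3) ^ k *
        ∏ i : Fin r, (3 / 4 : ℝ) ^ (e i)))) :=
          mul_le_mul_of_nonneg_left (mul_le_mul_of_nonneg_left h12 hnn) hC.le
      _ = _ := by ring
  obtain ⟨h1, h2⟩ := ncard_bw hcov (fun x hx => (hFB x hx).1) (fun x hx => (hFB x hx).2)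
  refine ⟨h1, h2.trans ?_⟩
  rw [hB]
  simp only
  rw [← Finset.mul_sum, hI, Finset.sum_product]
  simp only
  rw [Finset.sum_const, card_univ, Fintype.card_pi]
  simp only [Fintype.card_fin, prod_const, card_univ, nsmul_eq_mul]
  have h3 : ∑ y ∈ W ×ˢ Fintype.piFinset (fun _ : Fin r => range E),
      (((2 : ℝ) ^ y.1) ^ (N - M) * ∏ i : Fin r, (3 / 4 : ℝ) ^ (y.2 i)) =
      (∑ s ∈ W, ((2 : ℝ) ^ s) ^ (N - M)) * (∑ n ∈ range E, (3 / 4 : ℝ) ^ n) ^ r := by
    rw [Finset.sum_product, Finset.sum_mul]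
    refine sum_congr rfl fun s _ => ?_
    simp only
    rw [← Finset.mul_sum]
    congr 1
    have h4 := Finset.prod_univ_sum (fun _ : Fin r => range E) (fun _ n => (3 / 4 : ℝ) ^ n)
    rw [prod_const, card_univ, Fintype.card_fin] at h4
    rw [h4]
  rw [h3]
  push_cast
  have h5 : (∑ n ∈ range E, (3 / 4 : ℝ) ^ n) ^ r ≤ 4 ^ r :=
    pow_le_pow_left₀ (Finset.sum_nonneg fun n _ => by positivity) (geo_le E) r
  have h6 : (0 : ℝ) ≤ ∑ s ∈ W, ((2 : ℝ) ^ s) ^ (N - M) := Finset.sum_nonneg fun s _ => by positivity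
  calc _ ≤ C * 2 ^ (r * r) * ((2 / 3) ^ k * X ^ ((r + 1) * M)) * ((N : ℝ) ^ (r + 1) *
        ((∑ s ∈ W, ((2 : ℝ) ^ s) ^ (N - M)) * 4 ^ r)) := by gcongr
    _ = _ := by ring

end Pool.Agent.K6.H78.MR
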