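import Pool.Agent.K6.H78.MR.Crs

/-!
The cells: crude bounds, points with unbalanced lattices, lower bounds.
-/

set_option autoImplicit false
set_option linter.unusedSectionVars false
set_option linter.unusedVariables false
set_option linter.deprecated false

namespace Pool.Agent.K6.H78.MR

open Finset Matrix MeasureTheory Filter Topology
open Pool.Agent.K6.H78.MF (Pm exists_pm pm_unique pm_iff IsPoly)
open Pool.Agent.K6.H78.FR (cr sc sd tt Sys)

variable {r m N : ℕ} {hne : Nonempty (PP (r + 1) m N)}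

theorem crs (hmN : m ≤ N) (hrN : r + 1 < N) (hm : 1 ≤ m) (hS : (sys (r + 1) m N hne).Ok) {e : ℕ}
    {Φ : (Ix (r + 1) m N → ℝ) → ℝ} (hΦ : (sys (r + 1) m N hne).RH Φ) (hL : Lw (r + 1) m N e Φ)
    {S₀ : Finset ℕ} {f : (Ix (r + 1) m N → ℤ) → ℝ} (hf : (sys (r + 1) m N hne).FH S₀ f)
    {H : PP (r + 1) m N → ℝ} (hH : (sys (r + 1) m N hne).HH Φ f H) : ∃ C : ℝ, 0 < C ∧
      ∀ (y : Bool → ℝ) (k : ℕ), (∀ β, 0 < y β) → ∀ Q : Set (PP (r + 1) m N),
      (∀ P ∈ Q, P ∈ (sys (r + 1) m N hne).Cl H y ∧ ∃ z, (sys (r + 1) m N hne).Good z ∧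
        (sys (r + 1) m N hne).pt z = P ∧ sd (sys (r + 1) m N hne).bk y z ∈ (sys (r + 1) m N hne).AA ∧
        ∃ f b' c, Rd (rl (bm z)) f b' c ∧
          2 ^ k * |b' 0 (f 0)| ≤ 2 ^ r * |b' (Fin.last r) (f (Fin.last r))|) →
      Q.Finite ∧ (Q.ncard : ℝ) ≤ C * (2 / 3) ^ k * tt (sys (r + 1) m N hne).bk y := by
  classical
  obtain ⟨A, hA1, hrow⟩ := row_bound hS hm hΦ hL hf hH
  obtain ⟨C, hC, hcrd⟩ := crd (r := r) (N := N) (M := m) hmN hrN.le
  obtain ⟨C₂, hC₂, hWd⟩ := Wd_sum r (N - m)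
  refine ⟨C * A ^ ((r + 1) * m) * C₂, by positivity, fun y k hy Q hQ => ?_⟩
  have hY := hy true
  have hZ := hy false
  set X := A * (y false * y true) with hX
  have hX0 : 0 < X := by positivity
  obtain ⟨hfin, hcard⟩ := hcrd X (Wd r (y true)) k hX0
  choose! ρ hρ using fun P hP => (hQ P hP).2
  set φ : PP (r + 1) m N → (Fin (r + 1) → Fin N → ℤ) × (Fin m → Fin (r + 1) → ℤ) :=
    fun P => (bm (ρ P), qm (ρ P)) with hφ
  have hmaps : ∀ P ∈ Q, φ P ∈ Cr (r := r) (N := N) (M := m) X (Wd r (y true)) k := by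
    intro P hP
    obtain ⟨h1, h2, h3, f', b', c, h4, h5⟩ := hρ P hP
    refine ⟨f', b', c, h4, (rd_facts hy h3 h4).2.2, h5, ?_, ?_⟩
    · obtain ⟨j, hj⟩ := (good_iff.1 h1).2.2.col (Fin.last r)
      refine ⟨j, fun h0 => hj ?_⟩
      show ((ρ P (Sum.inr (j, Fin.last r)) : ℤ) : ℚ) = 0
      have : ρ P (Sum.inr (j, Fin.last r)) = 0 := h0
      rw [this]; simp
    · exact hrow y hy (ρ P) h1 (by rw [h2]; exact (hQ P hP).1)
  have hinj : Set.InjOn φ Q := by
    intro P hP P' hP' he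
    have h1 : bm (ρ P) = bm (ρ P') := congrArg Prod.fst he
    have h2 : qm (ρ P) = qm (ρ P') := congrArg Prod.snd he
    have h3 : ρ P = ρ P' := by rw [← gl_eq (ρ P), h1, h2, gl_eq]
    rw [← (hρ P hP).2.1, h3, (hρ P' hP').2.1]
  have hQf : Q.Finite := Set.Finite.of_injOn (fun P hP => hmaps P hP) hinj hfin
  refine ⟨hQf, ?_⟩
  have h1 : (Q.ncard : ℝ) ≤ (Cr (r := r) (N := N) (M := m) X (Wd r (y true)) k).ncard := by
    exact_mod_cast Set.ncard_le_ncard_of_injOn φ hmaps hinj hfin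
  refine h1.trans (hcard.trans ?_)
  rw [tt_eq]
  have h2 := hWd (y true) hY
  calc C * ((2 / 3) ^ k * X ^ ((r + 1) * m) * ∑ s ∈ Wd r (y true), ((2 : ℝ) ^ s) ^ (N - m)) ≤
      C * ((2 / 3) ^ k * X ^ ((r + 1) * m) * (C₂ * (y true ^ (r + 1)) ^ (N - m))) := by gcongr
    _ = C * A ^ ((r + 1) * m) * C₂ * (2 / 3) ^ k *
        ((y true ^ ((r + 1) * m) * (y true ^ (r + 1)) ^ (N - m)) * y false ^ ((r + 1) * m)) := by
        rw [hX, mul_pow, mul_pow]; ring
    _ = _ := by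
        rw [← pow_mul, ← pow_add, ← mul_add, Nat.add_sub_cancel' hmN, mul_comm (r + 1) m]

/-- the crude bound -/
theorem hcr (hmN : m ≤ N) (hrN : r + 1 < N) (hm : 1 ≤ m) (hS : (sys (r + 1) m N hne).Ok) {e : ℕ}
    {Φ : (Ix (r + 1) m N → ℝ) → ℝ} (hΦ : (sys (r + 1) m N hne).RH Φ) (hL : Lw (r + 1) m N e Φ)
    {S₀ : Finset ℕ} {f : (Ix (r + 1) m N → ℤ) → ℝ} (hf : (sys (r + 1) m N hne).FH S₀ f)
    {H : PP (r + 1) m N → ℝ} (hH : (sys (r + 1) m N hne).HH Φ f H) : ∃ C : ℝ, 0 < C ∧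
      ∀ y : Bool → ℝ, (∀ β, 0 < y β) → ((sys (r + 1) m N hne).Cl H y).Finite ∧
      (((sys (r + 1) m N hne).Cl H y).ncard : ℝ) ≤ C * tt (sys (r + 1) m N hne).bk y ∧
      (((sys (r + 1) m N hne).Cl H y).Nonempty → ∀ β, 1 ≤ C * y β) := by
  obtain ⟨A, hA1, hrow⟩ := row_bound hS hm hΦ hL hf hH
  obtain ⟨C, hC, hcrs⟩ := crs hmN hrN hm hS hΦ hL hf hH
  have hcC := cC_pos (r + 1)
  set C₁ : ℝ := 2 ^ r * (2 ^ r * Real.exp 1) with hC₁
  set C₂ : ℝ := (r + 1).factorial * (2 ^ r * (cC (r + 1) * A)) with hC₂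
  have hF : (0 : ℝ) < ((r + 1).factorial : ℝ) := by exact_mod_cast Nat.factorial_pos _
  refine ⟨C + C₁ + C₂, by positivity, fun y hy => ?_⟩
  have hY := hy true
  have hZ := hy false
  have ht := FR.tt_pos (bk := (sys (r + 1) m N hne).bk) hy
  obtain ⟨h1, h2⟩ := hcrs y 0 hy ((sys (r + 1) m N hne).Cl H y) (by
    intro P hP
    refine ⟨hP, ?_⟩
    obtain ⟨z, h1, h2, h3, f', b', c, h4⟩ := exists_rdz hS hP
    refine ⟨z, h1, h2, h3, f', b', c, h4, ?_⟩
    rw [pow_zero, one_mul]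
    exact rd_mono h4 (Fin.le_last _))
  refine ⟨h1, ?_, ?_⟩
  · rw [pow_zero, mul_one] at h2
    refine h2.trans (mul_le_mul_of_nonneg_right ?_ ht.le)
    have : 0 < C₁ := by positivity
    have : 0 < C₂ := by positivity
    linarith
  · rintro ⟨P, hP⟩ β
    obtain ⟨z, g1, g2, g3, f', b', c, g4⟩ := exists_rdz hS hP
    obtain ⟨e1, e2⟩ := rd_ends hy g3 g4
    have hmain : 1 ≤ C₁ * y true ∧ 1 ≤ C₂ * y false := by
      constructor
      · have h5 := rd_lb g4 0
        calc (1 : ℝ) ≤ 2 ^ r * |b' 0 (f' 0)| := h5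
          _ ≤ 2 ^ r * (2 ^ r * (Real.exp 1 * y true)) := mul_le_mul_of_nonneg_left e1 (by positivity)
          _ = C₁ * y true := by rw [hC₁]; ring
      · obtain ⟨j, hj⟩ := (good_iff.1 g1).2.2.col (Fin.last r)
        have h5 := coord (r + 1) _ f' b' c g4 (fun i => ((qm z j i : ℤ) : ℝ)) (Fin.last r)
        have h6 := hrow y hy z g1 (by rw [g2]; exact hP) j
        have h7 : (1 : ℝ) ≤ |((qm z j (Fin.last r) : ℤ) : ℝ)| := by
          rw [← Int.cast_abs]
          have h8 : qm z j (Fin.last r) ≠ 0 := by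
            intro h0
            apply hj
            show ((z (Sum.inr (j, Fin.last r)) : ℤ) : ℚ) = 0
            have : z (Sum.inr (j, Fin.last r)) = 0 := h0
            rw [this]; simp
          have : 0 < |qm z j (Fin.last r)| := abs_pos.2 h8
          exact_mod_cast (show 1 ≤ |qm z j (Fin.last r)| by omega)
        have h8 : |b' (Fin.last r) (f' (Fin.last r))| ≤ cC (r + 1) * (A * (y false * y true)) := by
          calc |b' (Fin.last r) (f' (Fin.last r))| ≤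
              |((qm z j (Fin.last r) : ℤ) : ℝ)| * |b' (Fin.last r) (f' (Fin.last r))| :=
                le_mul_of_one_le_left (abs_nonneg _) h7
            _ ≤ _ := h5.trans (mul_le_mul_of_nonneg_left h6 hcC.le)
        have h9 : y true ≤ (C₂ * y false) * y true := by
          refine e2.trans ?_
          calc ((r + 1).factorial : ℝ) * (2 ^ r * |b' (Fin.last r) (f' (Fin.last r))|) ≤
              (r + 1).factorial * (2 ^ r * (cC (r + 1) * (A * (y false * y true)))) := by gcongr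
            _ = _ := by rw [hC₂]; ring
        by_contra hc
        rw [not_le] at hc
        nlinarith
    have hC₁0 : 0 < C₁ := by positivity
    have hC₂0 : 0 < C₂ := by positivity
    cases β
    · refine hmain.2.trans (mul_le_mul_of_nonneg_right ?_ hZ.le)
      linarith
    · refine hmain.1.trans (mul_le_mul_of_nonneg_right ?_ hY.le)
      linarith

/-- the points with unbalanced lattices -/
theorem hreg (hmN : m ≤ N) (hrN : r + 1 < N) (hrm : r + 1 ≤ m) (hmr : 2 ≤ m * (r + 1))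
    (hS : (sys (r + 1) m N hne).Ok) {e : ℕ}
    {Φ : (Ix (r + 1) m N → ℝ) → ℝ} (hΦ : (sys (r + 1) m N hne).RH Φ) (hL : Lw (r + 1) m N e Φ)
    {S₀ : Finset ℕ} {f : (Ix (r + 1) m N → ℤ) → ℝ} (hf : (sys (r + 1) m N hne).FH S₀ f)
    {H : PP (r + 1) m N → ℝ} (hH : (sys (r + 1) m N hne).HH Φ f H) (η : ℝ) (hη : 0 < η) :
    ∃ (Do Dc : Set (Ix (r + 1) m N → ℝ)) (Γ : Finset (GG (r + 1))),
      (sys (r + 1) m N hne).Reg Do Dc Γ ∧ ∃ L : ℝ, 0 < L ∧ ∀ y : Bool → ℝ, (∀ β, L ≤ y β) →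
        (((sys (r + 1) m N hne).NR H Dc y).ncard : ℝ) ≤ η * tt (sys (r + 1) m N hne).bk y := by
  classical
  have hm : 1 ≤ m := by omega
  obtain ⟨A, hA1, hrow⟩ := row_bound hS hm hΦ hL hf hH
  obtain ⟨C, hC, hcrs⟩ := crs hmN hrN hm hS hΦ hL hf hH
  obtain ⟨k, hk⟩ := exists_pow_lt_of_lt_one (show 0 < η / C by positivity) (show (2 / 3 : ℝ) < 1 by norm_num)
  rw [lt_div_iff₀ hC] at hk
  have hcC := cC_pos (r + 1)
  have hF : (0 : ℝ) < ((r + 1).factorial : ℝ) := by exact_mod_cast Nat.factorial_pos _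
  set K₁ : ℝ := 2 ^ r * (2 ^ k * (2 ^ r * Real.exp 1)) with hK₁
  have hK₁0 : 0 < K₁ := by positivity
  set K : ℝ := (1 + ((r + 1 : ℕ) : ℝ)) * K₁ with hK
  set R₀ : ℝ := cC (r + 1) * A * ((r + 1).factorial * K₁ ^ r) with hR₀
  have hK0 : 0 < K := by positivity
  have hR₀0 : 0 < R₀ := by positivity
  refine ⟨_, _, _, reg (by omega) hrN hrm hmr hK0 hR₀0, 1, one_pos, fun y hy1 => ?_⟩
  have hy : ∀ β, 0 < y β := fun β => by have := hy1 β; linarith
  have hY := hy true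
  have hZ := hy false
  have ht := FR.tt_pos (bk := (sys (r + 1) m N hne).bk) hy
  have hmain := (hcrs y k hy ((sys (r + 1) m N hne).NR H (Dc (r + 1) m N K R₀) y) (by
    rintro P ⟨hP, hno⟩
    refine ⟨hP, ?_⟩
    obtain ⟨z, h1, h2, h3, f', b', c, h4⟩ := exists_rdz hS hP
    refine ⟨z, h1, h2, h3, f', b', c, h4, ?_⟩
    by_contra hcon
    rw [not_le] at hcon
    apply hno z h1 h2
    obtain ⟨e1, e2⟩ := rd_ends hy h3 h4
    obtain ⟨e3, e4, _⟩ := rd_facts hy h3 h4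
    -- all vectors are bounded
    have hb : ∀ i, |b' i (f' i)| ≤ K₁ * y true := by
      intro i
      have h5 := rd_mono h4 (Fin.le_last i)
      calc |b' i (f' i)| ≤ 2 ^ r * |b' (Fin.last r) (f' (Fin.last r))| := h5
        _ ≤ 2 ^ k * |b' 0 (f' 0)| := hcon.le
        _ ≤ 2 ^ k * (2 ^ r * (Real.exp 1 * y true)) := mul_le_mul_of_nonneg_left e1 (by positivity)
        _ ≤ 2 ^ r * (2 ^ k * (2 ^ r * (Real.exp 1 * y true))) :=
            le_mul_of_one_le_left (by positivity) (one_le_pow₀ (by norm_num))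
        _ = K₁ * y true := by rw [hK₁]; ring
    -- lower bounds
    have hl : ∀ i, y true ≤ ((r + 1).factorial * K₁ ^ r) * |b' i (f' i)| := by
      intro i
      have h5 : ∏ j, |b' j (f' j)| ≤ |b' i (f' i)| * (K₁ * y true) ^ r := by
        rw [← Finset.mul_prod_erase univ _ (mem_univ i)]
        apply mul_le_mul_of_nonneg_left _ (abs_nonneg _)
        have h6 : ∏ j ∈ univ.erase i, |b' j (f' j)| ≤ ∏ _j ∈ univ.erase i, (K₁ * y true) :=
          Finset.prod_le_prod (fun j _ => abs_nonneg _) fun j _ => hb j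
        rw [prod_const, card_erase_of_mem (mem_univ i), card_univ, Fintype.card_fin,
          Nat.add_sub_cancel] at h6
        exact h6
      have h6 : y true * y true ^ r ≤ (((r + 1).factorial * K₁ ^ r) * |b' i (f' i)|) * y true ^ r := by
        calc y true * y true ^ r = y true ^ (r + 1) := by ring
          _ ≤ (r + 1).factorial * ∏ i, |b' i (f' i)| := e3
          _ ≤ (r + 1).factorial * (|b' i (f' i)| * (K₁ * y true) ^ r) :=
              mul_le_mul_of_nonneg_left h5 hF.le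
          _ = _ := by rw [mul_pow]; ring
      exact le_of_mul_le_mul_right h6 (by positivity)
    refine ⟨(aa_pl h3).1, (aa_pl h3).2.le, ?_, ?_⟩
    · rw [pi_norm_le_iff_of_nonneg hK0.le]
      intro p
      have h5 := rd_norm_le h4 hb (by positivity) p.1 p.2
      show |(z (Sum.inl p) : ℝ) / y true| ≤ K
      rw [abs_div, abs_of_pos hY, div_le_iff₀ hY]
      calc |(z (Sum.inl p) : ℝ)| ≤ (1 + ((r + 1 : ℕ) : ℝ)) * (K₁ * y true) := h5
        _ = K * y true := by rw [hK]; ring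
    · rw [pi_norm_le_iff_of_nonneg hR₀0.le]
      intro p
      have h5 := coord (r + 1) _ f' b' c h4 (fun i => ((qm z p.1 i : ℤ) : ℝ)) p.2
      have h6 := hrow y hy z h1 (by rw [h2]; exact hP) p.1
      have h7 : |((qm z p.1 p.2 : ℤ) : ℝ)| * |b' p.2 (f' p.2)| ≤
          cC (r + 1) * (A * (y false * y true)) :=
        h5.trans (mul_le_mul_of_nonneg_left h6 hcC.le)
      show |(z (Sum.inr p) : ℝ) / y false| ≤ R₀
      rw [abs_div, abs_of_pos hZ, div_le_iff₀ hZ]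
      have h8 : |(z (Sum.inr p) : ℝ)| * y true ≤ (R₀ * y false) * y true := by
        calc |(z (Sum.inr p) : ℝ)| * y true ≤
            |(z (Sum.inr p) : ℝ)| * (((r + 1).factorial * K₁ ^ r) * |b' p.2 (f' p.2)|) :=
              mul_le_mul_of_nonneg_left (hl p.2) (abs_nonneg _)
          _ = ((r + 1).factorial * K₁ ^ r) * (|((qm z p.1 p.2 : ℤ) : ℝ)| * |b' p.2 (f' p.2)|) := by
              show _ = ((r + 1).factorial * K₁ ^ r) * (|(z (Sum.inr p) : ℝ)| * |b' p.2 (f' p.2)|)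
              ring
          _ ≤ ((r + 1).factorial * K₁ ^ r) * (cC (r + 1) * (A * (y false * y true))) :=
              mul_le_mul_of_nonneg_left h7 (by positivity)
          _ = _ := by rw [hR₀]; ring
      exact le_of_mul_le_mul_right h8 hY)).2
  refine hmain.trans (mul_le_mul_of_nonneg_right ?_ ht.le)
  linarith

/-- points of small height in a region -/
theorem hlow (hrN : r + 1 < N) (hrm : r + 1 ≤ m) (hmr : 2 ≤ m * (r + 1))
    (hS : (sys (r + 1) m N hne).Ok) {Φ : (Ix (r + 1) m N → ℝ) → ℝ}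
    (hΦ : (sys (r + 1) m N hne).RH Φ) :
    ∃ (Do Dc : Set (Ix (r + 1) m N → ℝ)) (Γ : Finset (GG (r + 1))),
      (sys (r + 1) m N hne).Reg Do Dc Γ ∧ ∀ M : ℝ, 0 < M → ∃ u ∈ Do, Φ u * M < 1 := by
  classical
  have hm : 1 ≤ m := by omega
  set n₁ : ℝ := ‖pl (sb ℝ (r + 1) N)‖ with hn₁
  have hn₁0 : 0 < n₁ := by
    rw [hn₁, norm_pos_iff]
    intro h
    have h1 := congrFun h (Fin.castLE hrN.le)
    rw [pl_sb] at h1
    exact one_ne_zero h1
  set a : ℝ := (Real.exp (1 / 2) / n₁) ^ ((1 : ℝ) / ((r + 1 : ℕ) : ℝ)) with ha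
  have ha0 : 0 < a := by positivity
  have hapow : a ^ (r + 1) = Real.exp (1 / 2) / n₁ := by
    rw [ha, ← Real.rpow_natCast, ← Real.rpow_mul (by positivity), one_div_mul_cancel (by positivity),
      Real.rpow_one]
  refine ⟨_, _, _, reg (by omega) hrN hrm hmr (show (0 : ℝ) < a + 1 by positivity)
    (show (0 : ℝ) < 2 by norm_num), fun M hM => ?_⟩
  set u₁ : Ix (r + 1) m N → ℝ := gl (a • sb ℝ (r + 1) N) (Matrix.of fun _ _ => 1) with hu₁
  have hpl : ‖pl (bm u₁)‖ = Real.exp (1 / 2) := by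
    rw [hu₁, bm_gl, pl_smul]
    have h : (fun f => a ^ (r + 1) * pl (sb ℝ (r + 1) N) f) = a ^ (r + 1) • pl (sb ℝ (r + 1) N) := rfl
    rw [h, norm_smul, norm_pow, Real.norm_eq_abs, abs_of_pos ha0, hapow, ← hn₁,
      div_mul_cancel₀ _ hn₁0.ne']
  have hOm : u₁ ∈ (sys (r + 1) m N hne).Om := by
    refine ⟨?_, ?_⟩
    · rw [← norm_pos_iff, hpl]
      positivity
    · intro h
      have h1 := congrFun h (⟨0, hm⟩, 0)
      exact one_ne_zero h1
  have hpos := hΦ.pos u₁ hOm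
  set δ : ℝ := min 1 (1 / (2 * (Φ u₁ * M))) with hδ
  have hδ0 : 0 < δ := by positivity
  have hδ1 : δ ≤ 1 := min_le_left _ _
  have hδ2 : δ * (Φ u₁ * M) ≤ 1 / 2 := by
    have h1 : δ ≤ 1 / (2 * (Φ u₁ * M)) := min_le_right _ _
    rw [le_div_iff₀ (by positivity)] at h1
    linarith
  set w : Bool → ℝ := fun β => if β = true then 1 else δ with hw
  have hw1 : w true = 1 := by rw [hw]; simp
  have hw2 : w false = δ := by rw [hw]; simp
  have hw0 : ∀ β, 0 < w β := by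
    intro β
    cases β
    · rw [hw2]; exact hδ0
    · rw [hw1]; exact one_pos
  refine ⟨sc (sys (r + 1) m N hne).bk w u₁, ?_, ?_⟩
  · have e1 : bm (sc (sys (r + 1) m N hne).bk w u₁) = bm u₁ := by rw [bm_sc, hw1, one_smul]
    have e2 : qv (sc (sys (r + 1) m N hne).bk w u₁) = fun _ => δ := by
      rw [qv_sc, hw2]
      funext p
      show δ * 1 = δ
      ring
    refine ⟨?_, ?_, ?_, ?_, ?_⟩
    · rw [e1, hpl]
      exact Real.one_lt_exp_iff.2 (by norm_num)
    · rw [e1, hpl]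
      apply Real.exp_lt_exp.2
      push_cast
      have : (0 : ℝ) ≤ r := Nat.cast_nonneg r
      linarith
    · rw [pi_norm_lt_iff (by positivity)]
      intro p
      have h1 : bv (sc (sys (r + 1) m N hne).bk w u₁) p = bm (sc (sys (r + 1) m N hne).bk w u₁) p.1 p.2 := rfl
      rw [h1, e1, hu₁, bm_gl, Real.norm_eq_abs]
      show |a * (if (p.2 : ℕ) = p.1 then (1 : ℝ) else 0)| < a + 1
      split_ifs
      · rw [mul_one, abs_of_pos ha0]; linarith
      · rw [mul_zero, abs_zero]; linarith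
    · rw [e2]
      intro h
      have h1 := congrFun h (⟨0, hm⟩, 0)
      have h2 : δ = 0 := h1
      linarith
    · rw [e2, pi_norm_lt_iff (by norm_num)]
      intro p
      rw [Real.norm_eq_abs, abs_of_pos hδ0]
      linarith
  · rw [hΦ.scal w hw0 u₁ hOm, tt_eq, hw1, hw2, one_pow, one_mul]
    have h1 : δ ^ (m * (r + 1)) ≤ δ := by
      calc δ ^ (m * (r + 1)) ≤ δ ^ 1 := pow_le_pow_of_le_one hδ0.le hδ1 (by omega)
        _ = δ := pow_one δ
    have h2 : 0 < Φ u₁ * M := by positivity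
    calc δ ^ (m * (r + 1)) * Φ u₁ * M = δ ^ (m * (r + 1)) * (Φ u₁ * M) := by ring
      _ ≤ δ * (Φ u₁ * M) := mul_le_mul_of_nonneg_right h1 h2.le
      _ < 1 := by linarith

end Pool.Agent.K6.H78.MR
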