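import Pool.Agent.K6.H78.MR.Rdc

/-!
Existence of reduced bases.
-/

set_option autoImplicit false
set_option linter.unusedSectionVars false
set_option linter.unusedVariables false

namespace Pool.Agent.K6.H78.MR

open Finset Submodule

variable {r N : ℕ}

/-- discreteness -/
theorem disc {b : Fin r → Fin N → ℝ} (hb : LinearIndependent ℝ b) (R : ℝ) :
    {x | x ∈ span ℤ (Set.range b) ∧ ‖x‖ ≤ R}.Finite := by
  set φ : (Fin r → ℝ) →ₗ[ℝ] (Fin N → ℝ) := Fintype.linearCombination ℝ b with hφ
  have hφx : ∀ n : Fin r → ℝ, φ n = ∑ i, n i • b i := fun n => by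
    rw [hφ, Fintype.linearCombination_apply]
  have hker : LinearMap.ker φ = ⊥ := by
    rw [LinearMap.ker_eq_bot']
    intro n hn
    rw [hφx] at hn
    funext i
    exact Fintype.linearIndependent_iff.1 hb n hn i
  obtain ⟨K, hK, hanti⟩ := LinearMap.exists_antilipschitzWith φ hker
  have hnorm : ∀ n : Fin r → ℝ, ‖n‖ ≤ K * ‖φ n‖ := by
    intro n
    have := hanti.le_mul_dist n 0
    rwa [map_zero, dist_zero_right, dist_zero_right] at this
  have hfin : (Set.Icc (fun _ : Fin r => -⌈(K : ℝ) * R⌉) (fun _ : Fin r => ⌈(K : ℝ) * R⌉)).Finite :=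
    Set.finite_Icc _ _
  refine (hfin.image fun n : Fin r → ℤ => ∑ i, (n i : ℝ) • b i).subset ?_
  rintro x ⟨hx, hxR⟩
  rw [mem_span_range_iff_exists_fun] at hx
  obtain ⟨n, hn⟩ := hx
  have hn' : ∑ i, (n i : ℝ) • b i = x := by
    rw [← hn]
    refine sum_congr rfl fun i _ => ?_
    rw [← Int.cast_smul_eq_zsmul ℝ]
  refine ⟨n, ?_, hn'⟩
  have h1 := hnorm fun i => (n i : ℝ)
  rw [hφx, hn'] at h1
  have h2 : ∀ i, |(n i : ℝ)| ≤ K * R := by
    intro i
    have h3 := (norm_le_pi_norm (fun i => (n i : ℝ)) i).trans h1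
    rw [Real.norm_eq_abs] at h3
    exact h3.trans (mul_le_mul_of_nonneg_left hxR K.2)
  rw [Set.mem_Icc]
  constructor
  · intro i
    have h3 := (abs_le.1 (h2 i)).1
    have h4 : ((-⌈(K : ℝ) * R⌉ : ℤ) : ℝ) ≤ n i := by
      push_cast
      have := Int.le_ceil ((K : ℝ) * R)
      linarith
    exact_mod_cast h4
  · intro i
    have h3 := (abs_le.1 (h2 i)).2
    have h4 : (n i : ℝ) ≤ ⌈(K : ℝ) * R⌉ := h3.trans (Int.le_ceil _)
    exact_mod_cast h4

theorem li_of_span {b b₁ : Fin r → Fin N → ℝ} (hb : LinearIndependent ℝ b)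
    (h : span ℤ (Set.range b₁) = span ℤ (Set.range b)) : LinearIndependent ℝ b₁ := by
  have h1 : span ℝ (Set.range b₁) = span ℝ (Set.range b) := by
    rw [← span_span_of_tower ℤ ℝ (Set.range b₁), h, span_span_of_tower]
  rw [linearIndependent_iff_card_eq_finrank_span] at hb ⊢
  rw [hb]
  unfold Set.finrank
  rw [h1]

/-- existence of reduced bases -/
theorem exists_rd : ∀ (r : ℕ) (b : Fin r → Fin N → ℝ), LinearIndependent ℝ b →
    ∃ (b₁ : Fin r → Fin N → ℝ) (f : Fin r → Fin N) (b' : Fin r → Fin N → ℝ)
      (c : Fin r → Fin r → ℝ), Rd b₁ f b' c ∧ span ℤ (Set.range b₁) = span ℤ (Set.range b) := by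
  intro r
  induction r with
  | zero =>
    intro b hb
    refine ⟨b, fun i => i.elim0, b, fun i => i.elim0, ⟨?_, ?_, ?_, ?_, ?_, ?_⟩, rfl⟩ <;>
      intro i <;> exact i.elim0
  | succ r ih =>
    intro b hb
    set Λ := span ℤ (Set.range b) with hΛ
    -- a shortest first vector
    set 𝒱 : Set (Fin N → ℝ) := {x | ∃ c : Fin (r + 1) → Fin N → ℝ, c 0 = x ∧
      span ℤ (Set.range c) = Λ} with h𝒱
    have hsub : ∀ x ∈ 𝒱, x ∈ Λ := by
      rintro x ⟨c, rfl, hc⟩
      rw [← hc]
      exact subset_span ⟨0, rfl⟩
    have hfin : {x | x ∈ 𝒱 ∧ ‖x‖ ≤ ‖b 0‖}.Finite :=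
      (disc hb ‖b 0‖).subset fun x hx => ⟨hsub x hx.1, hx.2⟩
    obtain ⟨v, ⟨hv, hvb⟩, hmin'⟩ := Set.exists_min_image _ (fun x : Fin N → ℝ => ‖x‖) hfin
      ⟨b 0, ⟨b, rfl, rfl⟩, le_rfl⟩
    have hmin : ∀ x ∈ 𝒱, ‖v‖ ≤ ‖x‖ := by
      intro x hx
      by_cases h : ‖x‖ ≤ ‖b 0‖
      · exact hmin' x ⟨hx, h⟩
      · exact hvb.trans (not_le.1 h).le
    obtain ⟨c, hc0, hcs⟩ := hv
    have hcli : LinearIndependent ℝ c := li_of_span hb hcs
    have hv0 : v ≠ 0 := by
      rw [← hc0]
      exact hcli.ne_zero 0
    -- the pivot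
    obtain ⟨l₀, hl₀⟩ := Function.ne_iff.1 hv0
    have : Nonempty (Fin N) := ⟨l₀⟩
    obtain ⟨f₀, hf₀⟩ := Finite.exists_max fun l => |v l|
    have hvf : 0 < |v f₀| := lt_of_lt_of_le (abs_pos.2 hl₀) (hf₀ l₀)
    have hvf0 : v f₀ ≠ 0 := abs_pos.1 hvf
    have hvn : ‖v‖ = |v f₀| := by
      apply le_antisymm
      · rw [pi_norm_le_iff_of_nonneg hvf.le]
        intro l
        rw [Real.norm_eq_abs]
        exact hf₀ l
      · have := norm_le_pi_norm v f₀
        rwa [Real.norm_eq_abs] at this
    -- the projection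
    set π : (Fin N → ℝ) →ₗ[ℝ] (Fin N → ℝ) :=
      LinearMap.id - (((v f₀)⁻¹ • (LinearMap.proj f₀ : (Fin N → ℝ) →ₗ[ℝ] ℝ))).smulRight v with hπ
    have hπx : ∀ x, π x = x - (x f₀ / v f₀) • v := by
      intro x
      rw [hπ]
      simp only [LinearMap.sub_apply, LinearMap.id_coe, id_eq, LinearMap.smulRight_apply,
        LinearMap.smul_apply, LinearMap.coe_proj, Function.eval, smul_eq_mul]
      rw [div_eq_inv_mul]
    have hπf : ∀ x, (π x) f₀ = 0 := by
      intro x
      rw [hπx, Pi.sub_apply, Pi.smul_apply, smul_eq_mul]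
      field_simp
      ring
    set w : Fin r → Fin N → ℝ := fun i => π (c i.succ) with hw
    have hcli' := hcli
    rw [Fintype.linearIndependent_iff] at hcli'
    have hkey : ∀ a : Fin r → ℝ, ∑ i, a i • w i = 0 → ∀ i, a i = 0 := by
      intro a ha i
      have h1 : π (∑ i, a i • c i.succ) = 0 := by
        rw [map_sum, ← ha]
        exact sum_congr rfl fun i _ => by rw [map_smul]
      rw [hπx] at h1
      set s := (∑ i, a i • c i.succ) f₀ / v f₀ with hs
      have h2 := hcli' (Fin.cons (-s) a) (by
        rw [Fin.sum_univ_succ]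
        simp only [Fin.cons_zero, Fin.cons_succ]
        rw [hc0, neg_smul, neg_add_eq_sub]
        exact h1) i.succ
      simpa using h2
    have hwli : LinearIndependent ℝ w := by
      rw [Fintype.linearIndependent_iff]
      exact hkey
    obtain ⟨w₁, f', w', c', hRd, hsp⟩ := ih w hwli
    have hmap : span ℤ (Set.range w) =
        (span ℤ (Set.range fun i : Fin r => c i.succ)).map (π.restrictScalars ℤ) := by
      rw [map_span, ← Set.range_comp]
      rfl
    have hy : ∀ i, ∃ y ∈ span ℤ (Set.range fun i : Fin r => c i.succ), π y = w₁ i := by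
      intro i
      have h1 : w₁ i ∈ span ℤ (Set.range w) := by
        rw [← hsp]
        exact subset_span ⟨i, rfl⟩
      rw [hmap] at h1
      obtain ⟨y, hy1, hy2⟩ := h1
      exact ⟨y, hy1, hy2⟩
    choose y hyS hyπ using hy
    have hcΛ : span ℤ (Set.range fun i : Fin r => c i.succ) ≤ Λ := by
      rw [← hcs]
      apply span_mono
      rintro _ ⟨i, rfl⟩
      exact ⟨i.succ, rfl⟩
    set n : Fin r → ℤ := fun i => round (y i f₀ / v f₀) with hn
    set b₁ : Fin (r + 1) → Fin N → ℝ := Fin.cons v fun i => y i - (n i : ℝ) • v with hb₁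
    -- the span
    have hvΛ : v ∈ Λ := by
      rw [← hc0]
      exact hsub _ ⟨c, rfl, hcs⟩
    have hzs : ∀ (a : ℤ) (x : Fin N → ℝ), (a : ℝ) • x = a • x := fun a x =>
      Int.cast_smul_eq_zsmul ℝ a x
    have hspan : span ℤ (Set.range b₁) = Λ := by
      apply le_antisymm
      · rw [span_le]
        rintro _ ⟨i, rfl⟩
        refine Fin.cases ?_ (fun i => ?_) i
        · exact hvΛ
        · rw [hb₁]
          simp only [Fin.cons_succ]
          rw [hzs]
          exact Λ.sub_mem (hcΛ (hyS i)) (Λ.smul_mem _ hvΛ)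
      · have hv1 : v ∈ span ℤ (Set.range b₁) := subset_span ⟨0, rfl⟩
        have hy1 : ∀ i, y i ∈ span ℤ (Set.range b₁) := by
          intro i
          have h1 : b₁ i.succ ∈ span ℤ (Set.range b₁) := subset_span ⟨i.succ, rfl⟩
          have h2 : y i = b₁ i.succ + n i • v := by
            rw [hb₁]
            simp only [Fin.cons_succ]
            rw [hzs]
            abel
          rw [h2]
          exact add_mem h1 (smul_mem _ _ hv1)
        rw [← hcs, span_le]
        rintro _ ⟨i, rfl⟩
        refine Fin.cases ?_ (fun i => ?_) i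
        · rw [hc0]
          exact hv1
        · have h1 : w i ∈ span ℤ (Set.range w₁) := by
            rw [hsp]
            exact subset_span ⟨i, rfl⟩
          rw [mem_span_range_iff_exists_fun] at h1
          obtain ⟨a, ha⟩ := h1
          -- the difference is in the kernel of the projection
          have h2 : π (c i.succ - ∑ j, a j • y j) = 0 := by
            rw [map_sub, map_sum, sub_eq_zero]
            rw [show π (c i.succ) = w i from rfl, ← ha]
            refine sum_congr rfl fun j _ => ?_
            rw [map_zsmul, hyπ]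
          have h3 : c i.succ - ∑ j, a j • y j ∈ span ℤ (Set.range fun i : Fin r => c i.succ) := by
            refine sub_mem (subset_span ⟨i, rfl⟩) (sum_mem fun j _ => smul_mem _ _ (hyS j))
          rw [mem_span_range_iff_exists_fun] at h3
          obtain ⟨d, hd⟩ := h3
          have h4 := hkey (fun j => (d j : ℝ)) (by
            rw [← h2, ← hd, map_sum]
            refine sum_congr rfl fun j _ => ?_
            rw [← hzs, map_smul])
          have h5 : c i.succ - ∑ j, a j • y j = 0 := by
            rw [← hd]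
            refine sum_eq_zero fun j _ => ?_
            rw [← hzs, h4 j, zero_smul]
          rw [sub_eq_zero.1 h5]
          exact sum_mem fun j _ => smul_mem _ _ (hy1 j)
    -- the new vectors
    set μ : Fin r → ℝ := fun i => y i f₀ / v f₀ - n i with hμ
    have hμb : ∀ i, |μ i| ≤ 1 / 2 := fun i => abs_sub_round _
    have hyw : ∀ i, b₁ i.succ = w₁ i + μ i • v := by
      intro i
      rw [hb₁]
      simp only [Fin.cons_succ]
      rw [← hyπ i, hπx, hμ, sub_smul]
      abel
    have hw₁f : ∀ i, w₁ i f₀ = 0 := fun i => by rw [← hyπ i]; exact hπf _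
    have hw'f : ∀ k : ℕ, ∀ i : Fin r, (i : ℕ) = k → w' i f₀ = 0 := by
      intro k
      induction k using Nat.strong_induction_on with
      | _ k ihk =>
        intro i hi
        have h1 := congrFun (hRd.exp i) f₀
        rw [hw₁f, Pi.add_apply, Finset.sum_apply] at h1
        have h2 : ∑ j, ((if j < i then c' i j else 0) • w' j) f₀ = 0 := by
          refine sum_eq_zero fun j _ => ?_
          by_cases hj : j < i
          · rw [Pi.smul_apply, ihk j (by rw [← hi]; exact hj) j rfl, smul_zero]
          · simp [hj]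
        rw [h2, add_zero] at h1
        exact h1.symm
    refine ⟨b₁, Fin.cons f₀ f', Fin.cons v w',
      Fin.cons (fun _ => 0) fun i => Fin.cons (μ i) (c' i), ⟨?_, ?_, ?_, ?_, ?_, ?_⟩, hspan⟩
    · intro i
      refine Fin.cases ?_ (fun i => ?_) i
      · simp [hb₁]
      · rw [hyw, hRd.exp i, Fin.sum_univ_succ]
        simp only [Fin.cons_zero, Fin.cons_succ, Fin.succ_pos, if_true, Fin.succ_lt_succ_iff]
        abel
    · intro i j
      refine Fin.cases ?_ (fun i => ?_) i
      · simp
      · refine Fin.cases ?_ (fun j => ?_) j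
        · simpa using hμb i
        · simpa using hRd.cb i j
    · intro i j
      refine Fin.cases ?_ (fun i => ?_) i
      · intro h; exact absurd h (Fin.not_lt_zero j)
      · refine Fin.cases ?_ (fun j => ?_) j
        · intro _
          simpa using hw'f i i rfl
        · intro h
          simpa using hRd.zero i j (Fin.succ_lt_succ_iff.1 h)
    · intro i l
      refine Fin.cases ?_ (fun i => ?_) i
      · simpa using hf₀ l
      · simpa using hRd.max i l
    · intro i j hij
      revert hij
      refine Fin.cases ?_ (fun j => ?_) j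
      · intro h; simp at h
      · refine Fin.cases ?_ (fun i => ?_) i
        · intro h
          have hj : (j : ℕ) = 0 := by simpa using h.symm
          simp only [Fin.cons_zero, Fin.cons_succ]
          -- exchange the first two vectors
          have h1 : b₁ j.succ ∈ 𝒱 := by
            refine ⟨fun i => b₁ (Equiv.swap 0 j.succ i), by simp, ?_⟩
            rw [← hspan]
            congr 1
            exact (Equiv.swap 0 j.succ).surjective.range_comp b₁
          have h2 := hmin _ h1
          have h3 : b₁ j.succ = w' j + μ j • v := by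
            rw [hyw, hRd.exp j]
            have h4 : ∑ k, (if k < j then c' j k else 0) • w' k = 0 := by
              refine sum_eq_zero fun k _ => ?_
              have h5 : ¬ k < j := by
                intro h6
                have h7 : (k : ℕ) < j := h6
                omega
              simp [h5]
            rw [h4, add_zero]
          rw [h3] at h2
          have h4 : ‖w' j + μ j • v‖ ≤ ‖w' j‖ + 1 / 2 * ‖v‖ := by
            refine (norm_add_le _ _).trans ?_
            rw [norm_smul, Real.norm_eq_abs]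
            have := mul_le_mul_of_nonneg_right (hμb j) (norm_nonneg v)
            linarith
          rw [← hvn, ← hRd.norm j]
          linarith
        · intro h
          simpa using hRd.grow i j (by simpa using h)
    · intro i
      refine Fin.cases ?_ (fun i => ?_) i
      · simpa using hvf
      · simpa using hRd.pos i

end Pool.Agent.K6.H78.MR
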