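import Pool.Agent.K6.H78.MR.Arc

/-!
The asymptotic formula.
-/

set_option autoImplicit false
set_option linter.unusedSectionVars false
set_option linter.unusedVariables false
set_option linter.deprecated false

namespace Pool.Agent.K6.H78.MR

open Finset Matrix MeasureTheory Filter Topology
open Pool.Agent.K6.H78.MF (Pm exists_pm pm_unique pm_iff IsPoly)
open Pool.Agent.K6.H78.FR (cr sc sd tt Sys cp ext ext_smul mulHeight_eq)

variable {r m N : ℕ}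

theorem cr_pl (z : Ix r m N → ℤ) : pl (bm (cr z)) = cr (pl (bm z)) := by
  funext f
  exact pl_cr z f

theorem cr_tm (z : Ix r m N → ℤ) : tm (qm (cr z)) (bm (cr z)) = cr (tm (qm z) (bm z)) := by
  funext x
  show (qm (cr z) * bm (cr z)) x.1 x.2 = (((qm z * bm z) x.1 x.2 : ℤ) : ℝ)
  rw [Matrix.mul_apply, Matrix.mul_apply]
  push_cast
  rfl

/-- the height of points -/
noncomputable def Hp (r m N e : ℕ) (S : Finset Nat.Primes)
    (φ₀ : ((Fin r → Fin N) → ℝ) → (Fin m × Fin N → ℝ) → ℝ)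
    (φ : ∀ p : Nat.Primes, ((Fin r → Fin N) → ℚ_[p]) → (Fin m × Fin N → ℚ_[p]) → ℝ)
    (P : PP r m N) : ℝ :=
  P.1.mulHeight ^ e * P.2.mulHeight ^ (r * m) * (φ₀ (ext ℝ P.1.rep) (ext ℝ P.2.rep) *
    ∏ p ∈ S, φ p (ext ℚ_[p] P.1.rep) (ext ℚ_[p] P.2.rep))

theorem hh {hne : Nonempty (PP r m N)} {e : ℕ} (hS : (sys r m N hne).Ok) (S : Finset Nat.Primes)
    (φ₀ : ((Fin r → Fin N) → ℝ) → (Fin m × Fin N → ℝ) → ℝ) (h₀ : LF r m N φ₀)
    (φ : ∀ p : Nat.Primes, ((Fin r → Fin N) → ℚ_[p]) → (Fin m × Fin N → ℚ_[p]) → ℝ)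
    (h : ∀ p ∈ S, LF r m N (φ p)) :
    (sys r m N hne).HH (Ph e φ₀) (fun z => ∏ p ∈ S, fp p (φ p) z) (Hp r m N e S φ₀ φ) := by
  intro z hz
  have hg := good_iff.1 hz
  obtain ⟨⟨c, hc, h1⟩, d, hd, h2⟩ := hg.pt_spec (hne := hne)
  have hT := hg.tm_pm
  unfold Hp
  rw [mulHeight_eq hc hg.1 h1, mulHeight_eq hd hT h2]
  unfold Ph
  rw [cr_pl, cr_tm, h1, h2, ext_smul, ext_smul]
  have e3 : φ₀ ((c : ℝ) • fun i => ((pl (bm z) i : ℤ) : ℝ))
      ((d : ℝ) • fun i => ((tm (qm z) (bm z) i : ℤ) : ℝ)) =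
      φ₀ (cr (pl (bm z))) (cr (tm (qm z) (bm z))) := by
    have hom := hS.good_om z hz
    have hmem := mem_Cn (u := cr z) hom.1 hom.2
    rw [cr_pl, cr_tm] at hmem
    exact h₀.invariant _ hmem _ _ (by exact_mod_cast hc) (by exact_mod_cast hd)
  rw [e3]
  have e4 : ∏ p ∈ S, φ p (ext ℚ_[p] fun i => c * ((pl (bm z) i : ℤ) : ℚ))
      (ext ℚ_[p] fun i => d * ((tm (qm z) (bm z) i : ℤ) : ℚ)) = ∏ p ∈ S, fp p (φ p) z := by
    refine prod_congr rfl fun p hp => ?_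
    rw [ext_smul, ext_smul]
    have hmem := Kp_mem (cp_mem (p := p) (hne := hne) (hz.1 p p.2))
    rw [pl_cp, tm_cp] at hmem
    exact (h p hp).invariant _ hmem _ _ (by exact_mod_cast hc) (by exact_mod_cast hd)
  rw [e4]
  ring

theorem pts_eq {hne : Nonempty (PP r m N)} (hr : 1 ≤ r) : (sys r m N hne).Pts = UU r m N := by
  ext P
  constructor
  · rintro ⟨z, hz, rfl⟩
    exact rep_mem hr (good_iff.1 hz) (good_iff.1 hz).pt_spec
  · intro hP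
    obtain ⟨z, hz, hzP⟩ := exists_rep hr hP
    exact ⟨z, good_iff.2 hz, hz.pt_spec.pt_unique hzP⟩

theorem main_all {e : ℕ} (he : N = m + e) (hr : 1 ≤ r) (hrN : r < N) (hrm : r ≤ m) (hmr : 2 ≤ m * r)
    (S : Finset Nat.Primes) (φ₀ : ((Fin r → Fin N) → ℝ) → (Fin m × Fin N → ℝ) → ℝ)
    (h₀ : LF r m N φ₀)
    (φ : ∀ p : Nat.Primes, ((Fin r → Fin N) → ℚ_[p]) → (Fin m × Fin N → ℚ_[p]) → ℝ)
    (h : ∀ p ∈ S, LF r m N (φ p)) :
    ∃ c : ℝ, 0 < c ∧ Tendsto (fun B : ℝ => ({P : PP r m N | P ∈ UU r m N ∧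
      Hp r m N e S φ₀ φ P ≤ B}.ncard : ℝ) / (B * Real.log B)) atTop (𝓝 c) := by
  have hm : 1 ≤ m := by omega
  have hne : Nonempty (PP r m N) := by
    have i1 : Nonempty (Fin N) := ⟨⟨0, by omega⟩⟩
    have i2 : Nonempty (Fin m) := ⟨⟨0, hm⟩⟩
    have n1 : (fun _ => 1 : (Fin r → Fin N) → ℚ) ≠ 0 := by
      intro h0
      have := congrFun h0 (fun _ => ⟨0, by omega⟩)
      exact one_ne_zero this
    have n2 : (fun _ => 1 : Fin m × Fin N → ℚ) ≠ 0 := by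
      intro h0
      have := congrFun h0 (⟨0, hm⟩, ⟨0, by omega⟩)
      exact one_ne_zero this
    exact ⟨(Projectivization.mk ℚ _ n1, Projectivization.mk ℚ _ n2)⟩
  have hS := ok (hne := hne) hr hrN hm hmr
  obtain ⟨hΦ, hL⟩ := RH_of_LF (hne := hne) he h₀
  obtain ⟨S₀, hS₀⟩ := FR.FH_prod (S := sys r m N hne) S (fun p => fp p (φ p)) fun p hp =>
    FH_of_LF (h p hp)
  have hH := hh (e := e) hS S φ₀ h₀ φ h
  obtain ⟨r', rfl⟩ : ∃ r', r = r' + 1 := ⟨r - 1, by omega⟩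
  have hmN : m ≤ N := by omega
  obtain ⟨c, hc, hlim⟩ := FR.asm hS hΦ hS₀ hH (hcr hmN hrN hm hS hΦ hL hS₀ hH)
    (fun η hη => hreg hmN hrN hrm hmr hS hΦ hL hS₀ hH η hη) (hlow hrN hrm hmr hS hΦ)
  refine ⟨c, hc, ?_⟩
  rw [pts_eq hr] at hlim
  simpa using hlim

end Pool.Agent.K6.H78.MR
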