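import Pool.Agent.K6.H78.MR.Rp

/-!
The assumptions of the frame.
-/

set_option autoImplicit false
set_option linter.unusedSectionVars false
set_option linter.unusedVariables false
set_option linter.deprecated false

namespace Pool.Agent.K6.H78.MR

open Finset Matrix MeasureTheory
open Pool.Agent.K6.H78.MF (Pm exists_pm pm_unique pm_iff IsPoly)
open Pool.Agent.K6.H78.FR (cr sc sd tt Sys)

variable {r m N : ℕ} {hne : Nonempty (PP r m N)}

theorem cont_bm : Continuous fun u : Ix r m N → ℝ => bm u := by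
  refine continuous_matrix fun i l => ?_
  exact continuous_apply _

theorem cont_pl {n : ℕ} : Continuous fun b : Matrix (Fin n) (Fin N) ℝ => pl b := by
  refine continuous_pi fun f => ?_
  unfold pl
  exact Continuous.matrix_det (continuous_id.matrix_submatrix _ _)

theorem cont_qv : Continuous fun u : Ix r m N → ℝ => qv u := by
  unfold qv
  fun_prop

theorem cont_plb : Continuous fun u : Ix r m N → ℝ => pl (bm u) := cont_pl.comp cont_bm

theorem card_Ix : Fintype.card (Ix r m N) = r * N + m * r := by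
  rw [Fintype.card_sum, Fintype.card_prod, Fintype.card_prod, Fintype.card_fin, Fintype.card_fin,
    Fintype.card_fin]

/-- the standard basis -/
def sb (R : Type*) [Zero R] [One R] (r N : ℕ) : Matrix (Fin r) (Fin N) R :=
  Matrix.of fun i l => if (l : ℕ) = i then 1 else 0

theorem pl_sb (R : Type*) [CommRing R] {r N : ℕ} (h : r ≤ N) :
    pl (sb R r N) (Fin.castLE h) = 1 := by
  unfold pl
  have : (sb R r N).submatrix id (Fin.castLE h) = 1 := by
    ext i j
    unfold sb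
    rw [Matrix.submatrix_apply, Matrix.of_apply, Matrix.one_apply]
    by_cases hij : i = j
    · rw [hij]; simp
    · have : ¬ ((Fin.castLE h j : Fin N) : ℕ) = (id i : Fin r) := by
        intro h1
        apply hij
        exact Fin.ext h1.symm
      rw [if_neg this, if_neg hij]
  rw [this, Matrix.det_one]

theorem card_mat (a b p : ℕ) [NeZero p] : Nat.card (Matrix (Fin a) (Fin b) (ZMod p)) = p ^ (a * b) := by
  have h : Nat.card (Matrix (Fin a) (Fin b) (ZMod p)) = Nat.card (Fin a → Fin b → ZMod p) := rfl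
  rw [h, Nat.card_eq_fintype_card, Fintype.card_fun, Fintype.card_fun, Fintype.card_fin,
    Fintype.card_fin, ZMod.card, ← pow_mul, mul_comm b a]

theorem tp_card_aux (hr : 1 ≤ r) (hrN : r < N) (hmr : 2 ≤ m * r) (p : ℕ) (hp : p.Prime) :
    ((((sys r m N hne).Tp p)ᶜ).ncard : ℝ) * (p : ℝ) ^ 2 ≤
      (r + 1 : ℝ) * (p : ℝ) ^ Fintype.card (Ix r m N) := by
  classical
  obtain ⟨r', rfl⟩ : ∃ r', r = r' + 1 := ⟨r - 1, by omega⟩
  have : Fact p.Prime := ⟨hp⟩
  set g₁ : Matrix (Fin (r' + 1)) (Fin N) (ZMod p) × Matrix (Fin m) (Fin (r' + 1)) (ZMod p) →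
    (Ix (r' + 1) m N → ZMod p) := fun x => gl x.1 x.2 with hg₁
  have hsub : ((sys (r' + 1) m N hne).Tp p)ᶜ ⊆
      g₁ '' ({b | pl b = 0} ×ˢ Set.univ) ∪ g₁ '' (Set.univ ×ˢ {0}) := by
    intro t ht
    have h1 : pl (bm t) = 0 ∨ qv t = 0 := by
      by_contra hcon
      push Not at hcon
      exact ht hcon
    rcases h1 with h1 | h1
    · left
      exact ⟨(bm t, qm t), ⟨h1, Set.mem_univ _⟩, gl_eq t⟩
    · right
      refine ⟨(bm t, qm t), ⟨Set.mem_univ _, ?_⟩, gl_eq t⟩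
      by_contra h2
      exact qv_ne.2 h2 h1
  have h1 := Set.ncard_le_ncard hsub (Set.toFinite _)
  have h2 : (g₁ '' ({b | pl b = 0} ×ˢ Set.univ)).ncard ≤
      (r' + 1) * p ^ (r' + r' * N) * p ^ (m * (r' + 1)) := by
    refine (Set.ncard_image_le (Set.toFinite _)).trans ?_
    rw [Set.ncard_prod, Set.ncard_univ, card_mat]
    exact Nat.mul_le_mul_right _ (card_pl0 r' N p hp)
  have h3 : (g₁ '' (Set.univ ×ˢ {0})).ncard ≤ p ^ ((r' + 1) * N) := by
    refine (Set.ncard_image_le (Set.toFinite _)).trans ?_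
    rw [Set.ncard_prod, Set.ncard_univ, card_mat, Set.ncard_singleton, mul_one]
  have h4 := Set.ncard_union_le (g₁ '' ({b | pl b = 0} ×ˢ Set.univ)) (g₁ '' (Set.univ ×ˢ {0}))
  have h5 : (((sys (r' + 1) m N hne).Tp p)ᶜ).ncard * p ^ 2 ≤
      (r' + 2) * p ^ Fintype.card (Ix (r' + 1) m N) := by
    rw [card_Ix]
    have e1 : p ^ (r' + r' * N) * p ^ (m * (r' + 1)) * p ^ 2 ≤ p ^ ((r' + 1) * N + m * (r' + 1)) := by
      rw [← pow_add, ← pow_add]
      apply Nat.pow_le_pow_right hp.pos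
      nlinarith
    have e2 : p ^ ((r' + 1) * N) * p ^ 2 ≤ p ^ ((r' + 1) * N + m * (r' + 1)) := by
      rw [← pow_add]
      apply Nat.pow_le_pow_right hp.pos
      omega
    calc (((sys (r' + 1) m N hne).Tp p)ᶜ).ncard * p ^ 2 ≤
        ((r' + 1) * p ^ (r' + r' * N) * p ^ (m * (r' + 1)) + p ^ ((r' + 1) * N)) * p ^ 2 :=
          Nat.mul_le_mul_right _ (by omega)
      _ = (r' + 1) * (p ^ (r' + r' * N) * p ^ (m * (r' + 1)) * p ^ 2) +
          p ^ ((r' + 1) * N) * p ^ 2 := by ring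
      _ ≤ (r' + 1) * p ^ ((r' + 1) * N + m * (r' + 1)) + p ^ ((r' + 1) * N + m * (r' + 1)) :=
          Nat.add_le_add (Nat.mul_le_mul_left _ e1) e2
      _ = _ := by ring
  have h6 : ((((sys (r' + 1) m N hne).Tp p)ᶜ).ncard : ℝ) * (p : ℝ) ^ 2 ≤
      ((r' + 2 : ℕ) : ℝ) * (p : ℝ) ^ Fintype.card (Ix (r' + 1) m N) := by exact_mod_cast h5
  refine h6.trans (le_of_eq ?_)
  push_cast
  ring

theorem ok (hr : 1 ≤ r) (hrN : r < N) (hm : 1 ≤ m) (hmr : 2 ≤ m * r) : (sys r m N hne).Ok := by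
  classical
  have hr0 : (0 : ℝ) < r := by exact_mod_cast hr
  refine ⟨?_, ?_, ?_, ?_, ?_, ?_, ?_, ?_, ?_, ?_, ?_, ?_, ?_, ?_, ?_, ?_, ?_⟩
  · intro β
    cases β
    · exact ⟨Sum.inr (⟨0, hm⟩, ⟨0, hr⟩), rfl⟩
    · exact ⟨Sum.inl (⟨0, hr⟩, ⟨0, by omega⟩), rfl⟩
  · intro p hp
    have : Fact p.Prime := ⟨hp⟩
    refine ⟨gl (sb (ZMod p) r N) (Matrix.of fun _ _ => 1), ?_, ?_⟩
    · intro h
      have h1 := congrFun h (Fin.castLE hrN.le)
      rw [bm_gl, pl_sb] at h1
      exact one_ne_zero h1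
    · intro h
      have h1 := congrFun h (⟨0, hm⟩, ⟨0, hr⟩)
      exact one_ne_zero h1
  · exact ⟨(r + 1 : ℝ), fun p hp => tp_card_aux hr hrN hmr p hp⟩
  · exact (isOpen_ne_fun cont_plb continuous_const).inter (isOpen_ne_fun cont_qv continuous_const)
  · intro a ha u hu
    refine ⟨?_, ?_⟩
    · rw [bm_sc]
      obtain ⟨f, hf⟩ := Function.ne_iff.1 hu.1
      intro h0
      have := congrFun h0 f
      rw [pl_smul] at this
      exact mul_ne_zero (pow_ne_zero r (ha true).ne') hf this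
    · rw [qv_sc]
      exact smul_ne_zero (ha false).ne' hu.2
  · intro z hz
    have hg := good_iff.1 hz
    refine ⟨pl_cr_ne.2 hg.1.ne, ?_⟩
    intro h0
    apply hg.2.1.ne
    funext x
    have h1 : ((z (Sum.inr x) : ℤ) : ℝ) = 0 := congrFun h0 x
    show z (Sum.inr x) = 0
    exact_mod_cast h1
  · intro g
    refine ⟨{ toFun := (sys r m N hne).act g, map_add' := ?_, map_smul' := ?_,
              invFun := (sys r m N hne).act g⁻¹, left_inv := ?_, right_inv := ?_ }, fun u => rfl⟩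
    · intro u v
      have e1 : bm (u + v) = bm u + bm v := rfl
      have e2 : qm (u + v) = qm u + qm v := rfl
      show gl _ _ = gl _ _ + gl _ _
      rw [e1, e2, Matrix.mul_add, Matrix.add_mul, smul_add]
      funext i
      rcases i with i | i <;> rfl
    · intro c u
      have e1 : bm (c • u) = c • bm u := rfl
      have e2 : qm (c • u) = c • qm u := rfl
      show gl _ _ = c • gl _ _
      rw [e1, e2, Matrix.mul_smul, Matrix.smul_mul, smul_comm]
      funext i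
      rcases i with i | i <;> rfl
    · intro u
      show ac (gR g⁻¹.1) (gR (g⁻¹.1)⁻¹) _ (ac (gR g.1) (gR g.1⁻¹) _ u) = u
      rw [← ac_mul]
      have e1 : gR g⁻¹.1 * gR g.1 = 1 := gR_inv_mul g.1
      have e2 : gR g.1⁻¹ * gR (g⁻¹.1)⁻¹ = 1 := by
        have : (g⁻¹.1)⁻¹ = g.1 := inv_inv g.1
        rw [this]; exact gR_inv_mul g.1
      have e3 : (((g⁻¹).2 : ℤ) : ℝ) * ((g.2 : ℤ) : ℝ) = 1 := by
        have : (g⁻¹).2 = (g.2)⁻¹ := rfl
        rw [this, ← Int.cast_mul, Units.inv_mul]; simp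
      rw [e1, e2, e3, ac_one]
    · intro u
      show ac (gR g.1) (gR g.1⁻¹) _ (ac (gR g⁻¹.1) (gR (g⁻¹.1)⁻¹) _ u) = u
      rw [← ac_mul]
      have e1 : gR g.1 * gR g⁻¹.1 = 1 := gR_mul_inv g.1
      have e2 : gR (g⁻¹.1)⁻¹ * gR g.1⁻¹ = 1 := by
        have : (g⁻¹.1)⁻¹ = g.1 := inv_inv g.1
        rw [this]; exact gR_mul_inv g.1
      have e3 : ((g.2 : ℤ) : ℝ) * (((g⁻¹).2 : ℤ) : ℝ) = 1 := by
        have : (g⁻¹).2 = (g.2)⁻¹ := rfl
        rw [this, ← Int.cast_mul, Units.mul_inv]; simp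
      rw [e1, e2, e3, ac_one]
  · intro g z
    have hm1 : ∀ {a b c : ℕ} (x : Matrix (Fin a) (Fin b) ℤ) (y : Matrix (Fin b) (Fin c) ℤ)
        (i : Fin a) (j : Fin c), (((x * y) i j : ℤ) : ℝ) =
          (x.map (Int.castRingHom ℝ) * y.map (Int.castRingHom ℝ)) i j := by
      intro a b c x y i j
      rw [← Matrix.map_mul]
      rfl
    funext i
    rcases i with i | i
    · exact hm1 _ _ _ _
    · show ((((g.2 : ℤ) * (qm z * ((g.1⁻¹ : (Matrix (Fin r) (Fin r) ℤ)ˣ) :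
        Matrix (Fin r) (Fin r) ℤ)) i.1 i.2 : ℤ)) : ℝ) = ((g.2 : ℤ) : ℝ) * _
      rw [Int.cast_mul, hm1]
      rfl
  · intro g a u
    funext i
    rcases i with i | i
    · show ((gR g.1) * (a true • bm u)) i.1 i.2 = a true * ((gR g.1) * bm u) i.1 i.2
      rw [Matrix.mul_smul]
      rfl
    · show ((g.2 : ℤ) : ℝ) * ((a false • qm u) * gR g.1⁻¹) i.1 i.2 =
        a false * (((g.2 : ℤ) : ℝ) * (qm u * gR g.1⁻¹) i.1 i.2)
      rw [Matrix.smul_mul, Matrix.smul_apply, smul_eq_mul]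
      ring
  · intro g h u
    show ac (gR (g.1 * h.1)) (gR (g.1 * h.1)⁻¹) (((g.2 * h.2 : ℤˣ) : ℤ) : ℝ) u = _
    rw [gR_mul, _root_.mul_inv_rev, gR_mul, Units.val_mul, Int.cast_mul, ac_mul]
    rfl
  · intro u
    show ac (gR 1) (gR 1⁻¹) (((1 : ℤˣ) : ℤ) : ℝ) u = u
    rw [inv_one, gR_one, Units.val_one, Int.cast_one, ac_one]
  · intro g u hu
    refine ⟨pl_ne_mul hu.1 (gR_det_ne g.1), ?_⟩
    rw [qv_ne]
    exact qm_ne_mul (qv_ne.1 hu.2) (gR_inv_mul g.1) (e_ne g.2)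
  · intro g z hz
    exact good_iff.2 ((good_iff.1 hz).ac g)
  · intro g z hz h
    exact ac_free (good_iff.1 hz) h
  · intro z z' hz hz'
    have h1 := good_iff.1 hz
    have h1' := good_iff.1 hz'
    constructor
    · intro he
      have h2 := h1'.pt_spec (hne := hne)
      rw [he] at h2
      exact rep_rel h1 h1' h1.pt_spec h2
    · rintro ⟨g, rfl⟩
      exact h1'.pt_spec.pt_unique (h1.pt_spec.ac g)
  · intro β hβ a ha u hu
    show (1 / r) * Real.log ‖pl (bm (sc (sys r m N hne).bk a u))‖ = _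
    have hβ' : β = true := by
      cases β
      · exact absurd rfl hβ
      · rfl
    rw [bm_sc, pl_smul, hβ']
    have h1 : (fun f => a true ^ r * pl (bm u) f) = a true ^ r • pl (bm u) := rfl
    rw [h1, norm_smul, Real.log_mul (norm_ne_zero_iff.2 (pow_ne_zero r (ha true).ne'))
      (norm_ne_zero_iff.2 hu.1), norm_pow, Real.log_pow, Real.norm_eq_abs, abs_of_pos (ha true)]
    show _ = (1 / r) * Real.log ‖pl (bm u)‖ + Real.log (a true)
    field_simp
    ring
  · intro β hβ g u hu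
    show (1 / r) * Real.log ‖pl (gR g.1 * bm u)‖ = (1 / r) * Real.log ‖pl (bm u)‖
    rw [pl_norm_gl (gR_det g.1)]

end Pool.Agent.K6.H78.MR
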