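import Pool.Agent.K6.H78.MR.Crd
import Pool.Agent.K6.H78.MR.Ex
import Pool.Agent.K6.H78.MR.Alg

/-!
Minors of reduced bases; reduced integer bases.
-/

set_option autoImplicit false
set_option linter.unusedSectionVars false
set_option linter.unusedVariables false

namespace Pool.Agent.K6.H78.MR

open Finset Matrix

variable {r N : ℕ}

theorem abs_det_le_prod (M : Matrix (Fin r) (Fin r) ℝ) (A : Fin r → ℝ) (hM : ∀ i j, |M i j| ≤ A i) :
    |M.det| ≤ r.factorial * ∏ i, A i := by
  rw [Matrix.det_apply]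
  refine (Finset.abs_sum_le_sum_abs _ _).trans ?_
  have h1 : ∀ σ ∈ (univ : Finset (Equiv.Perm (Fin r))),
      |Equiv.Perm.sign σ • ∏ i, M (σ i) i| ≤ ∏ i, A i := by
    intro σ _
    have h2 : |Equiv.Perm.sign σ • ∏ i, M (σ i) i| = |∏ i, M (σ i) i| := by
      rcases Int.units_eq_one_or (Equiv.Perm.sign σ) with h | h <;> rw [h] <;> simp
    rw [h2, Finset.abs_prod]
    have h3 : ∏ i, A i = ∏ i, A (σ i) := (Equiv.prod_comp σ A).symm
    rw [h3]
    exact Finset.prod_le_prod (fun i _ => abs_nonneg _) fun i _ => hM _ _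
  refine (Finset.sum_le_card_nsmul _ _ _ h1).trans ?_
  rw [card_univ, Fintype.card_perm, Fintype.card_fin, nsmul_eq_mul]

/-- the unipotent matrix -/
theorem rd_mul {b b' : Fin r → Fin N → ℝ} {f : Fin r → Fin N} {c : Fin r → Fin r → ℝ}
    (h : Rd b f b' c) : (Matrix.of b : Matrix (Fin r) (Fin N) ℝ) =
      (Matrix.of fun i j => if j < i then c i j else if j = i then 1 else 0) *
        (Matrix.of b' : Matrix (Fin r) (Fin N) ℝ) := by
  ext i l
  rw [Matrix.mul_apply]
  simp only [Matrix.of_apply]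
  rw [h.exp i, Pi.add_apply, Finset.sum_apply]
  have h1 : ∀ j, (if j < i then c i j else if j = i then 1 else 0) * b' j l =
      ((if j < i then c i j else 0) • b' j) l + if j = i then b' j l else 0 := by
    intro j
    rw [Pi.smul_apply, smul_eq_mul]
    by_cases h2 : j < i
    · simp [h2, h2.ne]
    · by_cases h3 : j = i <;> simp [h2, h3]
  rw [Finset.sum_congr rfl fun j _ => h1 j, Finset.sum_add_distrib]
  simp
  ring

theorem rd_pl {b b' : Fin r → Fin N → ℝ} {f : Fin r → Fin N} {c : Fin r → Fin r → ℝ}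
    (h : Rd b f b' c) : pl (Matrix.of b) = pl (Matrix.of b' : Matrix (Fin r) (Fin N) ℝ) := by
  rw [rd_mul h, pl_mul]
  have h1 : (Matrix.of fun i j => if j < i then c i j else if j = i then 1 else 0 :
      Matrix (Fin r) (Fin r) ℝ).det = 1 := by
    rw [Matrix.det_of_lowerTriangular]
    · simp
    · intro i j hij
      have h2 : i < j := hij
      simp [h2.not_gt, h2.ne']
  rw [h1]
  simp

theorem rd_lower {b b' : Fin r → Fin N → ℝ} {f : Fin r → Fin N} {c : Fin r → Fin r → ℝ}
    (h : Rd b f b' c) : ∏ i, |b' i (f i)| ≤ ‖pl (Matrix.of b : Matrix (Fin r) (Fin N) ℝ)‖ := by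
  rw [rd_pl h]
  refine le_trans ?_ (norm_le_pi_norm _ f)
  unfold pl
  rw [Matrix.det_of_upperTriangular, Real.norm_eq_abs, Finset.abs_prod]
  · rfl
  · intro i j hij
    exact h.zero i j hij

theorem rd_upper {b b' : Fin r → Fin N → ℝ} {f : Fin r → Fin N} {c : Fin r → Fin r → ℝ}
    (h : Rd b f b' c) : ‖pl (Matrix.of b : Matrix (Fin r) (Fin N) ℝ)‖ ≤
      r.factorial * ∏ i, |b' i (f i)| := by
  rw [rd_pl h, pi_norm_le_iff_of_nonneg (by positivity)]
  intro g
  rw [Real.norm_eq_abs]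
  exact abs_det_le_prod _ _ fun i j => h.max i (g j)

theorem rd_norm_le {b b' : Fin r → Fin N → ℝ} {f : Fin r → Fin N} {c : Fin r → Fin r → ℝ}
    (h : Rd b f b' c) {X : ℝ} (hX : ∀ i, |b' i (f i)| ≤ X) (hX0 : 0 ≤ X) (i : Fin r) (l : Fin N) :
    |b i l| ≤ (1 + r) * X := by
  rw [h.exp i, Pi.add_apply, Finset.sum_apply]
  refine (abs_add_le _ _).trans ?_
  rw [add_mul, one_mul]
  refine add_le_add ((h.max i l).trans (hX i)) ?_
  refine (Finset.abs_sum_le_sum_abs _ _).trans ?_
  have h1 : ∀ j ∈ (univ : Finset (Fin r)), |((if j < i then c i j else 0) • b' j) l| ≤ X := by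
    intro j _
    rw [Pi.smul_apply, smul_eq_mul, abs_mul]
    have h2 : |(if j < i then c i j else 0)| ≤ 1 := by
      split_ifs
      · exact (h.cb i j).trans (by norm_num)
      · simp
    calc _ ≤ 1 * X := mul_le_mul h2 ((h.max j l).trans (hX j)) (abs_nonneg _) (by norm_num)
      _ = X := one_mul X
  refine (Finset.sum_le_card_nsmul _ _ _ h1).trans ?_
  rw [card_univ, Fintype.card_fin, nsmul_eq_mul]

theorem li_of_pl {b : Matrix (Fin r) (Fin N) ℝ} (h : pl b ≠ 0) :
    LinearIndependent ℝ (fun i => b i : Fin r → Fin N → ℝ) := by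
  obtain ⟨f, hf⟩ := Function.ne_iff.1 h
  have h1 : IsUnit (b.submatrix id f) := by
    rw [Matrix.isUnit_iff_isUnit_det]
    exact isUnit_iff_ne_zero.2 hf
  have h2 := Matrix.linearIndependent_rows_of_isUnit h1
  exact LinearIndependent.of_comp (LinearMap.funLeft ℝ ℝ f) h2

/-- reduced integer bases -/
theorem exists_rd_int {b : Matrix (Fin r) (Fin N) ℤ} (h : pl b ≠ 0) :
    ∃ (g g' : Matrix (Fin r) (Fin r) ℤ) (f : Fin r → Fin N) (b' : Fin r → Fin N → ℝ)
      (c : Fin r → Fin r → ℝ), g * g' = 1 ∧ g' * g = 1 ∧ Rd (rl (g * b)) f b' c := by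
  have hR : pl (b.map (Int.cast : ℤ → ℝ)) ≠ 0 := by
    obtain ⟨f, hf⟩ := Function.ne_iff.1 h
    intro h0
    apply hf
    have h1 := congrFun h0 f
    have h2 := pl_map (Int.castRingHom ℝ) b f
    have h3 : ((pl b f : ℤ) : ℝ) = 0 := by
      have h4 : pl (b.map (Int.cast : ℤ → ℝ)) f = ((pl b f : ℤ) : ℝ) := h2
      rw [← h4, h1]
      rfl
    simp only [Pi.zero_apply]
    exact_mod_cast h3
  have hli : LinearIndependent ℝ (rl b) := li_of_pl hR
  obtain ⟨b₁, f, b', c, hrd, hsp⟩ := exists_rd r (rl b) hli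
  have hli₁ : LinearIndependent ℝ b₁ := li_of_span hli hsp
  have h1 : ∀ i, ∃ g : Fin r → ℤ, ∑ j, g j • rl b j = b₁ i := by
    intro i
    have : b₁ i ∈ Submodule.span ℤ (Set.range (rl b)) := by
      rw [← hsp]
      exact Submodule.subset_span ⟨i, rfl⟩
    exact (Submodule.mem_span_range_iff_exists_fun ℤ).1 this
  have h2 : ∀ i, ∃ g : Fin r → ℤ, ∑ j, g j • b₁ j = rl b i := by
    intro i
    have : rl b i ∈ Submodule.span ℤ (Set.range b₁) := by
      rw [hsp]
      exact Submodule.subset_span ⟨i, rfl⟩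
    exact (Submodule.mem_span_range_iff_exists_fun ℤ).1 this
  choose g hg using h1
  choose g' hg' using h2
  have key : ∀ (x : Fin r → Fin N → ℝ) (a : Fin r → Fin r → ℤ) (a' : Fin r → Fin r → ℤ)
      (x' : Fin r → Fin N → ℝ), LinearIndependent ℝ x → (∀ i, ∑ j, a i j • x j = x' i) →
      (∀ i, ∑ j, a' i j • x' j = x i) → (Matrix.of a' * Matrix.of a : Matrix (Fin r) (Fin r) ℤ) = 1 := by
    intro x a a' x' hx h3 h4
    ext i k
    have h5 : ∑ k, ((Matrix.of a' * Matrix.of a : Matrix (Fin r) (Fin r) ℤ) i k : ℝ) • x k = x i := by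
      rw [← h4 i]
      have h6 : ∀ j, a' i j • x' j = ∑ k, ((a' i j * a j k : ℤ) : ℝ) • x k := by
        intro j
        rw [← h3 j, Finset.smul_sum]
        refine sum_congr rfl fun k _ => ?_
        rw [smul_smul]
        exact (Int.cast_smul_eq_zsmul ℝ _ _).symm
      rw [Finset.sum_congr rfl fun j _ => h6 j, Finset.sum_comm]
      refine sum_congr rfl fun k _ => ?_
      rw [← Finset.sum_smul, Matrix.mul_apply]
      push_cast
      rfl
    have h7 : ∑ k, (((Matrix.of a' * Matrix.of a : Matrix (Fin r) (Fin r) ℤ) i k : ℝ) -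
        if k = i then 1 else 0) • x k = 0 := by
      simp only [sub_smul]
      rw [Finset.sum_sub_distrib, h5]
      simp
    have h8 := Fintype.linearIndependent_iff.1 hx _ h7 k
    have h9 : (((Matrix.of a' * Matrix.of a : Matrix (Fin r) (Fin r) ℤ) i k : ℤ) : ℝ) =
        (((1 : Matrix (Fin r) (Fin r) ℤ) i k : ℤ) : ℝ) := by
      rw [Matrix.one_apply]
      have h10 : (i = k) ↔ (k = i) := eq_comm
      by_cases hik : k = i
      · rw [if_pos hik] at h8
        rw [if_pos hik.symm]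
        push_cast
        linarith
      · rw [if_neg hik] at h8
        rw [if_neg (fun h => hik h.symm)]
        push_cast
        linarith
    exact_mod_cast h9
  refine ⟨Matrix.of g, Matrix.of g', f, b', c, ?_, ?_, ?_⟩
  · exact key b₁ g' g (rl b) hli₁ hg' hg
  · exact key (rl b) g g' b₁ hli hg hg'
  · have h3 : rl (Matrix.of g * b) = b₁ := by
      funext i l
      rw [← hg i, Finset.sum_apply]
      unfold rl
      rw [Matrix.mul_apply]
      push_cast
      refine sum_congr rfl fun j _ => ?_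
      rw [Pi.smul_apply, zsmul_eq_mul]
      rfl
    rw [h3]
    exact hrd

end Pool.Agent.K6.H78.MR
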