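import Pool.Agent.K6.H78.MR.Okk

/-!
The regions.
-/

set_option autoImplicit false
set_option linter.unusedSectionVars false
set_option linter.unusedVariables false
set_option linter.deprecated false

namespace Pool.Agent.K6.H78.MR

open Finset Matrix MeasureTheory
open Pool.Agent.K6.H78.MF (Pm exists_pm pm_unique pm_iff IsPoly)
open Pool.Agent.K6.H78.FR (cr sc sd tt Sys)

variable {r m N : ℕ} {hne : Nonempty (PP r m N)}

/-! ### null sets -/

theorem null_norm {σ J : Type} [Fintype σ] [Fintype J] {P : (σ → ℝ) → J → ℝ}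
    (hP : ∀ j, IsPoly fun u => P u j) (h0 : ∀ j, P 0 j = 0) {c : ℝ} (hc : 0 < c) :
    volume {u : σ → ℝ | ‖P u‖ = c} = 0 := by
  have hsub : {u : σ → ℝ | ‖P u‖ = c} ⊆ (⋃ j, {u | P u j - c = 0}) ∪ ⋃ j, {u | P u j + c = 0} := by
    intro u hu
    have hu' : ‖P u‖ = c := hu
    rcases isEmpty_or_nonempty J with hJ | hJ
    · exfalso
      have : ‖P u‖ = 0 := by
        rw [norm_eq_zero]
        funext j
        exact hJ.elim j
      linarith
    · obtain ⟨j, hj⟩ := Finite.exists_max fun j => ‖P u j‖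
      have h6 : ‖P u‖ = ‖P u j‖ := by
        apply le_antisymm
        · rw [pi_norm_le_iff_of_nonneg (norm_nonneg _)]
          exact hj
        · exact norm_le_pi_norm _ _
      rw [h6, Real.norm_eq_abs] at hu'
      rcases abs_choice (P u j) with h7 | h7
      · left
        rw [Set.mem_iUnion]
        exact ⟨j, by rw [h7] at hu'; show P u j - c = 0; linarith⟩
      · right
        rw [Set.mem_iUnion]
        exact ⟨j, by rw [h7] at hu'; show P u j + c = 0; linarith⟩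
  refine measure_mono_null hsub (measure_union_null ?_ ?_)
  · rw [measure_iUnion_null_iff]
    intro j
    exact ((hP j).sub (MF.IsPoly.const c)).null 0 (by rw [h0]; linarith)
  · rw [measure_iUnion_null_iff]
    intro j
    exact ((hP j).add (MF.IsPoly.const c)).null 0 (by rw [h0]; linarith)

/-! ### boxes -/

theorem boxJ (J : Type) [Fintype J] (A : ℝ) (hA : 1 ≤ A) :
    {q : J → ℤ | ∀ j, |(q j : ℝ)| ≤ A}.Finite ∧
    ({q : J → ℤ | ∀ j, |(q j : ℝ)| ≤ A}.ncard : ℝ) ≤ (3 * A) ^ Fintype.card J := by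
  classical
  set P : Finset (J → ℤ) := Fintype.piFinset fun _ => Icc ⌈(0 : ℝ) - A⌉ ⌊(0 : ℝ) + A⌋ with hP
  have hsub : {q : J → ℤ | ∀ j, |(q j : ℝ)| ≤ A} ⊆ P := by
    intro q hq
    rw [hP, Finset.mem_coe, Fintype.mem_piFinset]
    intro i
    apply mem_int
    rw [sub_zero]
    exact hq i
  refine ⟨P.finite_toSet.subset hsub, ?_⟩
  have h1 : ({q : J → ℤ | ∀ j, |(q j : ℝ)| ≤ A}.ncard : ℝ) ≤ P.card := by
    have := Set.ncard_le_ncard hsub P.finite_toSet
    rw [Set.ncard_coe_finset] at this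
    exact_mod_cast this
  refine h1.trans ?_
  rw [hP, Fintype.card_piFinset, prod_const, card_univ]
  push_cast
  apply pow_le_pow_left₀ (Nat.cast_nonneg _)
  exact (card_int _ _ (by linarith)).trans (by linarith)

/-! ### the regions -/

/-- the basis as a vector -/
def bv {R : Type*} (u : Ix r m N → R) : Fin r × Fin N → R := fun p => u (Sum.inl p)

/-- the open region -/
def Do (r m N : ℕ) (K R₀ : ℝ) : Set (Ix r m N → ℝ) :=
  {u | 1 < ‖pl (bm u)‖ ∧ ‖pl (bm u)‖ < Real.exp r ∧ ‖bv u‖ < K ∧ qv u ≠ 0 ∧ ‖qv u‖ < R₀}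

/-- the closed region -/
def Dc (r m N : ℕ) (K R₀ : ℝ) : Set (Ix r m N → ℝ) :=
  {u | 1 ≤ ‖pl (bm u)‖ ∧ ‖pl (bm u)‖ ≤ Real.exp r ∧ ‖bv u‖ ≤ K ∧ ‖qv u‖ ≤ R₀}

theorem cont_bv : Continuous fun u : Ix r m N → ℝ => bv u := by
  unfold bv
  fun_prop

theorem Do_sub (K R₀ : ℝ) : Do r m N K R₀ ⊆ Dc r m N K R₀ :=
  fun _ ⟨h1, h2, h3, _, h5⟩ => ⟨h1.le, h2.le, h3.le, h5.le⟩

theorem Do_open (K R₀ : ℝ) : IsOpen (Do r m N K R₀) := by
  have e : Do r m N K R₀ = {u | 1 < ‖pl (bm u)‖} ∩ {u | ‖pl (bm u)‖ < Real.exp r} ∩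
      {u | ‖bv u‖ < K} ∩ {u | qv u ≠ 0} ∩ {u | ‖qv u‖ < R₀} := by
    ext u
    simp only [Do, Set.mem_setOf_eq, Set.mem_inter_iff]
    tauto
  rw [e]
  refine (((IsOpen.inter ?_ ?_).inter ?_).inter ?_).inter ?_
  · exact isOpen_lt continuous_const cont_plb.norm
  · exact isOpen_lt cont_plb.norm continuous_const
  · exact isOpen_lt cont_bv.norm continuous_const
  · exact isOpen_ne_fun cont_qv continuous_const
  · exact isOpen_lt cont_qv.norm continuous_const

theorem Dc_closed (K R₀ : ℝ) : IsClosed (Dc r m N K R₀) := by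
  have e : Dc r m N K R₀ = {u | 1 ≤ ‖pl (bm u)‖} ∩ {u | ‖pl (bm u)‖ ≤ Real.exp r} ∩
      {u | ‖bv u‖ ≤ K} ∩ {u | ‖qv u‖ ≤ R₀} := by
    ext u
    simp only [Dc, Set.mem_setOf_eq, Set.mem_inter_iff]
    tauto
  rw [e]
  refine ((IsClosed.inter ?_ ?_).inter ?_).inter ?_
  · exact isClosed_le continuous_const cont_plb.norm
  · exact isClosed_le cont_plb.norm continuous_const
  · exact isClosed_le cont_bv.norm continuous_const
  · exact isClosed_le cont_qv.norm continuous_const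

theorem Dc_bdd {K R₀ : ℝ} (hK : 0 ≤ K) : Bornology.IsBounded (Dc r m N K R₀) := by
  rw [isBounded_iff_forall_norm_le]
  refine ⟨max K R₀, fun u hu => ?_⟩
  rw [pi_norm_le_iff_of_nonneg (le_max_of_le_left hK)]
  intro i
  rcases i with i | i
  · exact (norm_le_pi_norm (bv u) i).trans (hu.2.2.1.trans (le_max_left _ _))
  · exact (norm_le_pi_norm (qv u) i).trans (hu.2.2.2.trans (le_max_right _ _))

theorem poly_plb (f : Fin r → Fin N) : IsPoly fun u : Ix r m N → ℝ => pl (bm u) f :=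
  poly_det (fun u => (bm u).submatrix id f) fun i j => IsPoly.coord _

theorem bdry_null (hr : 1 ≤ r) (hm : 1 ≤ m) {K R₀ : ℝ} (hK : 0 < K) (hR : 0 < R₀) :
    volume (Dc r m N K R₀ \ Do r m N K R₀) = 0 := by
  have hpl0 : ∀ f, pl (bm (0 : Ix r m N → ℝ)) f = 0 := by
    intro f
    unfold pl
    have h1 : (bm (0 : Ix r m N → ℝ)).submatrix id f = 0 := rfl
    have : Nonempty (Fin r) := ⟨⟨0, hr⟩⟩
    rw [h1, Matrix.det_zero]
  have n1 := null_norm (P := fun u : Ix r m N → ℝ => pl (bm u)) poly_plb hpl0 one_pos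
  have n2 := null_norm (P := fun u : Ix r m N → ℝ => pl (bm u)) poly_plb hpl0 (Real.exp_pos r)
  have n3 := null_norm (P := fun u : Ix r m N → ℝ => bv u) (fun j => IsPoly.coord _)
    (fun _ => rfl) hK
  have n4 := null_norm (P := fun u : Ix r m N → ℝ => qv u) (fun j => IsPoly.coord _)
    (fun _ => rfl) hR
  have n5 : volume {u : Ix r m N → ℝ | u (Sum.inr (⟨0, hm⟩, ⟨0, hr⟩)) = 0} = 0 :=
    (IsPoly.coord _).null (fun _ => 1) one_ne_zero
  refine measure_mono_null ?_ (measure_union_null n1 (measure_union_null n2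
    (measure_union_null n3 (measure_union_null n4 n5))))
  rintro u ⟨⟨h1, h2, h3, h4⟩, hn⟩
  by_contra hcon
  simp only [Set.mem_union, Set.mem_setOf_eq, not_or] at hcon
  obtain ⟨c1, c2, c3, c4, c5⟩ := hcon
  apply hn
  refine ⟨lt_of_le_of_ne h1 (Ne.symm c1), lt_of_le_of_ne h2 c2, lt_of_le_of_ne h3 c3, ?_,
    lt_of_le_of_ne h4 c4⟩
  intro h
  exact c5 (congrFun h _)

theorem Do_aa (hr : 1 ≤ r) (K R₀ : ℝ) : Do r m N K R₀ ⊆ (sys r m N hne).AA := by
  rintro u ⟨h1, h2, h3, h4, h5⟩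
  have hr0 : (0 : ℝ) < r := by exact_mod_cast hr
  have hpl : pl (bm u) ≠ 0 := by
    intro h
    rw [h, norm_zero] at h1
    linarith
  refine ⟨⟨hpl, h4⟩, fun β _ => ?_⟩
  show 0 ≤ (1 / r) * Real.log ‖pl (bm u)‖ ∧ (1 / r) * Real.log ‖pl (bm u)‖ < 1
  have h6 := Real.log_nonneg h1.le
  have h7 : Real.log ‖pl (bm u)‖ < r := by
    rw [Real.log_lt_iff_lt_exp (by linarith)]
    exact h2
  constructor
  · positivity
  · rw [one_div_mul_eq_div, div_lt_one hr0]
    exact h7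

/-- the finite set of group elements -/
noncomputable def Gm (r : ℕ) (K : ℝ) : Finset (GG r) :=
  (units_fin r (r.factorial * K ^ r)).toFinset ×ˢ univ

theorem Gm_fin {K R₀ : ℝ} {u : Ix r m N → ℝ} (hu : u ∈ Dc r m N K R₀) {g : GG r}
    (hg : (sys r m N hne).act g u ∈ Dc r m N K R₀) : g ∈ Gm r K := by
  unfold Gm
  rw [mem_product, Set.Finite.mem_toFinset]
  refine ⟨fun i j => ?_, mem_univ _⟩
  have h1 : ∀ i l, |bm u i l| ≤ K := fun i l =>
    (norm_le_pi_norm (bv u) (i, l)).trans hu.2.2.1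
  have h2 : ∀ i l, |(gR g.1 * bm u) i l| ≤ K := fun i l =>
    (norm_le_pi_norm (bv ((sys r m N hne).act g u)) (i, l)).trans hg.2.2.1
  exact g_bound h1 h2 hu.1 i j

theorem tt_eq (y : Bool → ℝ) : tt (sys r m N hne).bk y = y true ^ (r * N) * y false ^ (m * r) := by
  unfold tt
  rw [Fintype.prod_sum_type]
  show (∏ _ : Fin r × Fin N, y true) * (∏ _ : Fin m × Fin r, y false) = _
  rw [prod_const, prod_const, card_univ, card_univ, Fintype.card_prod, Fintype.card_prod,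
    Fintype.card_fin, Fintype.card_fin, Fintype.card_fin]

theorem rk_of_det (hrm : r ≤ m) {q : Matrix (Fin m) (Fin r) ℤ}
    (h : (q.submatrix (Fin.castLE hrm) id).det ≠ 0) : Rk (q.map (Int.castRingHom ℚ)) := by
  set Q := q.map (Int.castRingHom ℚ) with hQ
  have h1 : (Q.submatrix (Fin.castLE hrm) id).det ≠ 0 := by
    have h2 : (Q.submatrix (Fin.castLE hrm) id).det =
        (((q.submatrix (Fin.castLE hrm) id).det : ℤ) : ℚ) := by
      have h3 : Q.submatrix (Fin.castLE hrm) id =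
          (Int.castRingHom ℚ).mapMatrix (q.submatrix (Fin.castLE hrm) id) := rfl
      rw [h3, ← RingHom.map_det]
      rfl
    rw [h2]
    exact_mod_cast h
  refine ⟨(Q.submatrix (Fin.castLE hrm) id)⁻¹ *
    (1 : Matrix (Fin m) (Fin m) ℚ).submatrix (Fin.castLE hrm) id, ?_⟩
  rw [Matrix.mul_assoc]
  have h2 : (1 : Matrix (Fin m) (Fin m) ℚ).submatrix (Fin.castLE hrm) id * Q =
      Q.submatrix (Fin.castLE hrm) id := by
    ext i j
    simp [Matrix.mul_apply, Matrix.one_apply]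
  rw [h2, Matrix.nonsing_inv_mul _ (isUnit_iff_ne_zero.2 h1)]

theorem TB_finite (r N P₀ : ℕ) {A : ℝ} (hA : 1 ≤ A) : (TB r N P₀ A).Finite := by
  have h := (boxJ (Fin r × Fin N) A hA).1
  refine Set.Finite.of_finite_image (f := fun b : Matrix (Fin r) (Fin N) ℤ =>
    (fun p => b p.1 p.2 : Fin r × Fin N → ℤ)) ?_ (by
      intro b _ b' _ he
      ext i l
      exact congrFun he (i, l))
  refine h.subset ?_
  rintro _ ⟨b, hb, rfl⟩
  exact fun p => hb.1 p.1 p.2

theorem vol_le {z : ℤ} {Y K : ℝ} (hY : 0 < Y) (h : |(z : ℝ) / Y| ≤ K) : |(z : ℝ)| ≤ K * Y := by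
  rw [abs_div, abs_of_pos hY, div_le_iff₀ hY] at h
  exact h

/-- **the regions satisfy the assumptions of the frame** -/
theorem reg (hr : 1 ≤ r) (hrN : r < N) (hrm : r ≤ m) (hmr : 2 ≤ m * r) {K R₀ : ℝ} (hK : 0 < K)
    (hR₀ : 0 < R₀) : (sys r m N hne).Reg (Do r m N K R₀) (Dc r m N K R₀) (Gm r K) := by
  classical
  have hm : 1 ≤ m := hr.trans hrm
  refine ⟨Do_open K R₀, Dc_closed K R₀, Dc_bdd hK.le, Do_sub K R₀, Do_aa hr K R₀,
    bdry_null hr hm hK hR₀, fun u hu g hg => Gm_fin hu hg, ?_⟩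
  obtain ⟨r', rfl⟩ : ∃ r', r = r' + 1 := ⟨r - 1, by omega⟩
  obtain ⟨C₁, hC₁, htail⟩ := tail_b hrN
  -- the region of the degenerate coordinates
  set D₃ : Set (Ix (r' + 1) m N → ℝ) := Dc (r' + 1) m N K R₀ ∩
    {u | ((qm u).submatrix (Fin.castLE hrm) id).det = 0} with hD₃
  have hp : IsPoly fun u : Ix (r' + 1) m N → ℝ => ((qm u).submatrix (Fin.castLE hrm) id).det :=
    poly_det (fun u => (qm u).submatrix (Fin.castLE hrm) id) fun i j => IsPoly.coord _
  have hD₃c : IsClosed D₃ := by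
    refine (Dc_closed K R₀).inter (isClosed_eq ?_ continuous_const)
    refine Continuous.matrix_det (continuous_matrix fun i j => ?_)
    exact continuous_apply _
  have hD₃n : volume D₃ = 0 := by
    refine measure_mono_null Set.inter_subset_right (hp.null (gl 0
      (Matrix.of fun j i => if (j : ℕ) = i then 1 else 0)) ?_)
    rw [qm_gl]
    have h1 : (Matrix.of fun (j : Fin m) (i : Fin (r' + 1)) => if (j : ℕ) = i then (1 : ℝ) else 0).submatrix
        (Fin.castLE hrm) id = 1 := by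
      ext i j
      rw [Matrix.submatrix_apply, Matrix.of_apply, Matrix.one_apply]
      by_cases hij : i = j
      · rw [hij]; simp
      · have : ¬ ((Fin.castLE hrm i : Fin m) : ℕ) = (id j : Fin (r' + 1)) := by
          intro h1
          exact hij (Fin.ext h1)
        rw [if_neg this, if_neg hij]
    rw [h1, Matrix.det_one]
    exact one_ne_zero
  have hD₃b : Bornology.IsBounded D₃ := (Dc_bdd hK.le).subset Set.inter_subset_left
  have hD₃f : volume (frontier D₃) = 0 := measure_mono_null hD₃c.frontier_subset hD₃n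
  set nb : ℕ := (r' + 1) * N with hnb
  set nq : ℕ := m * (r' + 1) with hnq
  refine ⟨C₁ * K ^ nb * (3 * R₀) ^ nq + (3 * K) ^ nb * (3 * R₀) ^ nq + 1, by positivity,
    fun P₀ hP₀ => ?_⟩
  have hP₀0 : (0 : ℝ) < P₀ := by exact_mod_cast hP₀
  obtain ⟨L, hL, hlpc⟩ := Pool.Agent.Y592.KE.LPC.lpc (Ix (r' + 1) m N) D₃ hD₃b hD₃c.measurableSet hD₃f
    1 one_pos Set.univ (1 / P₀) (by positivity)
  refine ⟨max L (max (1 / K) (1 / R₀)), by positivity, fun y hy => ?_⟩
  have hyL : ∀ β, L ≤ y β := fun β => (le_max_left _ _).trans (hy β)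
  have hy0 : ∀ β, 0 < y β := fun β => lt_of_lt_of_le hL (hyL β)
  set Y := y true with hY
  set Z := y false with hZ
  have hY0 : 0 < Y := hy0 true
  have hZ0 : 0 < Z := hy0 false
  have hKY : 1 ≤ K * Y := by
    have := (le_max_left _ _).trans ((le_max_right _ _).trans (hy true))
    rw [div_le_iff₀ hK] at this
    linarith
  have hRZ : 1 ≤ R₀ * Z := by
    have := (le_max_right _ _).trans ((le_max_right _ _).trans (hy false))
    rw [div_le_iff₀ hR₀] at this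
    linarith
  rw [tt_eq]
  set t : ℝ := Y ^ nb * Z ^ nq with ht
  have ht0 : 0 < t := by positivity
  obtain ⟨bqf, bqc⟩ := boxJ (Fin m × Fin (r' + 1)) (R₀ * Z) hRZ
  obtain ⟨bbf, bbc⟩ := boxJ (Fin (r' + 1) × Fin N) (K * Y) hKY
  obtain ⟨tqf, tqc⟩ := tail_q (Fin m × Fin (r' + 1)) (by
    rw [Fintype.card_prod, Fintype.card_fin, Fintype.card_fin]; exact hmr) P₀ (R₀ * Z) hP₀ hRZ
  rw [Fintype.card_prod, Fintype.card_fin, Fintype.card_fin] at bqc bbc tqc
  set Bq : Set (Fin m × Fin (r' + 1) → ℤ) := {q | ∀ j, |(q j : ℝ)| ≤ R₀ * Z} with hBq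
  set Bb : Set (Fin (r' + 1) × Fin N → ℤ) := {q | ∀ j, |(q j : ℝ)| ≤ K * Y} with hBb
  set Tq : Set (Fin m × Fin (r' + 1) → ℤ) := {q | (∀ j, |(q j : ℝ)| ≤ R₀ * Z) ∧ q ≠ 0 ∧
    ∃ p : ℕ, p.Prime ∧ P₀ < p ∧ ∀ j, (p : ℤ) ∣ q j} with hTq
  have tbf := TB_finite (r' + 1) N P₀ hKY
  have tbc := htail P₀ (K * Y) hP₀ (by linarith)
  set E₁ : Set (Ix (r' + 1) m N → ℤ) := (fun x : Matrix (Fin (r' + 1)) (Fin N) ℤ ×
    (Fin m × Fin (r' + 1) → ℤ) => Sum.elim (fun p => x.1 p.1 p.2) x.2) ''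
      (TB (r' + 1) N P₀ (K * Y) ×ˢ Bq) with hE₁
  set E₂ : Set (Ix (r' + 1) m N → ℤ) := (fun x : (Fin (r' + 1) × Fin N → ℤ) ×
    (Fin m × Fin (r' + 1) → ℤ) => Sum.elim x.1 x.2) '' (Bb ×ˢ Tq) with hE₂
  set E₃ : Set (Ix (r' + 1) m N → ℤ) := {z | sd (sys (r' + 1) m N hne).bk y z ∈ D₃} with hE₃
  have e₁f : E₁.Finite := (tbf.prod bqf).image _
  have e₂f : E₂.Finite := (bbf.prod tqf).image _
  have e₃f : E₃.Finite := FR.fin_bdd hD₃b hy0
  set S : Set (Ix (r' + 1) m N → ℤ) := {z | sd (sys (r' + 1) m N hne).bk y z ∈ Do (r' + 1) m N K R₀ ∧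
    ((∃ p : ℕ, p.Prime ∧ P₀ < p ∧ ¬ (sys (r' + 1) m N hne).Lc p z) ∨
      ¬ (sys (r' + 1) m N hne).Nz z)} with hS
  have hsub : S ⊆ E₁ ∪ (E₂ ∪ E₃) := by
    rintro z ⟨hz, hbad⟩
    have hzc := Do_sub K R₀ hz
    have hb : ∀ p : Fin (r' + 1) × Fin N, |(z (Sum.inl p) : ℝ)| ≤ K * Y := fun p =>
      vol_le hY0 ((norm_le_pi_norm (bv (sd (sys (r' + 1) m N hne).bk y z)) p).trans hzc.2.2.1)
    have hq : ∀ p : Fin m × Fin (r' + 1), |(z (Sum.inr p) : ℝ)| ≤ R₀ * Z := fun p =>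
      vol_le hZ0 ((norm_le_pi_norm (qv (sd (sys (r' + 1) m N hne).bk y z)) p).trans hzc.2.2.2)
    have hOm : cr z ∈ (sys (r' + 1) m N hne).Om := by
      rw [FR.cr_eq (bk := (sys (r' + 1) m N hne).bk) hy0 z]
      exact (ok hr hrN hm hmr).om_sc y hy0 _ (Do_aa (hne := hne) hr K R₀ hz).1
    have hpl : pl (bm z) ≠ 0 := pl_cr_ne.1 hOm.1
    have hq0 : qv z ≠ 0 := by
      intro h0
      apply hOm.2
      funext x
      have h1 := congrFun h0 x
      show ((z (Sum.inr x) : ℤ) : ℝ) = 0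
      have h2 : z (Sum.inr x) = 0 := h1
      rw [h2]; simp
    rcases hbad with ⟨p, hp, hPp, hL⟩ | hnz
    · rw [lc_iff, not_and_or, not_not, not_not] at hL
      rcases hL with hL | hL
      · left
        refine ⟨(bm z, qv z), ⟨⟨fun i l => hb (i, l), hpl, p, hp, hPp, hL⟩, hq⟩, ?_⟩
        funext i
        rcases i with i | i <;> rfl
      · right; left
        refine ⟨(bv z, qv z), ⟨hb, hq, hq0, p, hp, hPp, hL⟩, ?_⟩
        funext i
        rcases i with i | i <;> rfl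
    · right; right
      refine ⟨hzc, ?_⟩
      have h1 : ((qm z).submatrix (Fin.castLE hrm) id).det = 0 := by
        by_contra h2
        exact hnz (rk_of_det hrm h2)
      have h2 : (qm (sd (sys (r' + 1) m N hne).bk y z)).submatrix (Fin.castLE hrm) id =
          Z⁻¹ • (Int.castRingHom ℝ).mapMatrix ((qm z).submatrix (Fin.castLE hrm) id) := by
        ext i j
        show (z (Sum.inr (Fin.castLE hrm i, j)) : ℝ) / Z = Z⁻¹ * (z (Sum.inr (Fin.castLE hrm i, j)) : ℝ)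
        rw [div_eq_inv_mul]
      show ((qm (sd (sys (r' + 1) m N hne).bk y z)).submatrix (Fin.castLE hrm) id).det = 0
      rw [h2, Matrix.det_smul, ← RingHom.map_det, h1, map_zero, mul_zero]
  refine ⟨(e₁f.union (e₂f.union e₃f)).subset hsub, ?_⟩
  have hc : (S.ncard : ℝ) ≤ E₁.ncard + (E₂.ncard + E₃.ncard) := by
    have h1 := Set.ncard_le_ncard hsub (e₁f.union (e₂f.union e₃f))
    have h2 := Set.ncard_union_le E₁ (E₂ ∪ E₃)
    have h3 := Set.ncard_union_le E₂ E₃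
    exact_mod_cast (by omega : S.ncard ≤ E₁.ncard + (E₂.ncard + E₃.ncard))
  have h1 : (E₁.ncard : ℝ) ≤ (C₁ * (K * Y) ^ nb / P₀) * (3 * (R₀ * Z)) ^ nq := by
    have h2 : (E₁.ncard : ℝ) ≤ (TB (r' + 1) N P₀ (K * Y)).ncard * Bq.ncard := by
      have := Set.ncard_image_le (f := fun x : Matrix (Fin (r' + 1)) (Fin N) ℤ ×
        (Fin m × Fin (r' + 1) → ℤ) => (Sum.elim (fun p => x.1 p.1 p.2) x.2 : Ix (r' + 1) m N → ℤ))
        (tbf.prod bqf)
      rw [Set.ncard_prod] at this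
      exact_mod_cast this
    exact h2.trans (mul_le_mul tbc bqc (Nat.cast_nonneg _) (by positivity))
  have h2 : (E₂.ncard : ℝ) ≤ (3 * (K * Y)) ^ nb * ((3 * (R₀ * Z)) ^ nq / P₀) := by
    have h2 : (E₂.ncard : ℝ) ≤ Bb.ncard * Tq.ncard := by
      have := Set.ncard_image_le (f := fun x : (Fin (r' + 1) × Fin N → ℤ) ×
        (Fin m × Fin (r' + 1) → ℤ) => (Sum.elim x.1 x.2 : Ix (r' + 1) m N → ℤ)) (bbf.prod tqf)
      rw [Set.ncard_prod] at this
      exact_mod_cast this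
    exact h2.trans (mul_le_mul bbc tqc (Nat.cast_nonneg _) (by positivity))
  have h3 : (E₃.ncard : ℝ) ≤ 1 / P₀ * t := by
    have h4 := hlpc (fun i => y ((sys (r' + 1) m N hne).bk i)) fun i => hyL _
    have h5 : ∏ i, y ((sys (r' + 1) m N hne).bk i) = t := tt_eq (hne := hne) y
    have h6 : volume.real D₃ = 0 := by
      rw [measureReal_def, hD₃n]; rfl
    have h7 : {z : Ix (r' + 1) m N → ℤ | (fun i => (z i : ZMod 1)) ∈
        (Set.univ : Set (Ix (r' + 1) m N → ZMod 1)) ∧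
        (fun i => (z i : ℝ) / y ((sys (r' + 1) m N hne).bk i)) ∈ D₃} = E₃ := by
      ext z
      simp only [Set.mem_setOf_eq, Set.mem_univ, true_and]
      rfl
    rw [h5, h6, h7, zero_mul, zero_div, sub_zero, abs_of_nonneg (by positivity),
      div_le_iff₀ ht0] at h4
    exact h4
  calc (S.ncard : ℝ) ≤ E₁.ncard + (E₂.ncard + E₃.ncard) := hc
    _ ≤ (C₁ * (K * Y) ^ nb / P₀) * (3 * (R₀ * Z)) ^ nq +
        ((3 * (K * Y)) ^ nb * ((3 * (R₀ * Z)) ^ nq / P₀) + 1 / P₀ * t) := by gcongr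
    _ = _ := by
        rw [ht]
        simp only [mul_pow]
        ring

end Pool.Agent.K6.H78.MR
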