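import Pool.Agent.K6.H78.MR.Sy

/-!
Points and their representatives; the assumptions of the frame.
-/

set_option autoImplicit false
set_option linter.unusedSectionVars false
set_option linter.unusedVariables false
set_option linter.deprecated false

namespace Pool.Agent.K6.H78.MR

open Finset Matrix MeasureTheory
open Pool.Agent.K6.H78.MF (Pm exists_pm pm_unique pm_iff IsPoly)
open Pool.Agent.K6.H78.FR (cr sc sd tt Sys)

variable {r m N : ℕ} {hne : Nonempty (PP r m N)}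

/-- integer vectors as rational vectors -/
def cq {J : Type*} (v : J → ℤ) : J → ℚ := fun i => (v i : ℚ)

theorem pl_cq (z : Ix r m N → ℤ) : pl (bm (cq z)) = cq (pl (bm z)) := by
  funext f
  exact pl_map (Int.castRingHom ℚ) (bm z) f

theorem tm_cq (z : Ix r m N → ℤ) : tm (qm (cq z)) (bm (cq z)) = cq (tm (qm z) (bm z)) := by
  funext p
  show (qm (cq z) * bm (cq z)) p.1 p.2 = (((qm z * bm z) p.1 p.2 : ℤ) : ℚ)
  rw [Matrix.mul_apply, Matrix.mul_apply]
  push_cast
  rfl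

theorem cq_ne {J : Type*} {v : J → ℤ} (h : v ≠ 0) : cq v ≠ 0 := by
  intro h0
  apply h
  funext i
  have h1 : ((v i : ℤ) : ℚ) = 0 := congrFun h0 i
  show v i = 0
  exact_mod_cast h1

theorem proj_eq {J : Type} {P P' : Projectivization ℚ (J → ℚ)} {x : J → ℤ} {c c' : ℚ} (hc : c ≠ 0)
    (hc' : c' ≠ 0) (h : P.rep = fun i => c * (x i : ℤ)) (h' : P'.rep = fun i => c' * (x i : ℤ)) :
    P = P' := by
  rw [← P.mk_rep, ← P'.mk_rep, Projectivization.mk_eq_mk_iff']
  refine ⟨c / c', ?_⟩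
  rw [h, h']
  funext i
  rw [Pi.smul_apply, smul_eq_mul]
  field_simp

theorem IsRep.pt_unique {z : Ix r m N → ℤ} {P P' : PP r m N} (h : IsRep z P) (h' : IsRep z P') :
    P = P' := by
  obtain ⟨⟨c, hc, h1⟩, d, hd, h2⟩ := h
  obtain ⟨⟨c', hc', h1'⟩, d', hd', h2'⟩ := h'
  exact Prod.ext (proj_eq hc hc' h1 h1') (proj_eq hd hd' h2 h2')

theorem pm_rel {J : Type} [Fintype J] {x y : J → ℤ} (hx : Pm x) (hy : Pm y) {P : J → ℚ} {c c' : ℚ}
    (hc : c ≠ 0) (hc' : c' ≠ 0) (h : P = fun i => c * (x i : ℤ)) (h' : P = fun i => c' * (y i : ℤ)) :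
    y = x ∨ y = -x := by
  have h1 : ∀ i, (y i : ℚ) = c / c' * x i := by
    intro i
    have h2 : c * (x i : ℤ) = c' * (y i : ℤ) := by
      have := congrFun (h.symm.trans h') i
      exact this
    field_simp
    linarith
  rcases pm_unique hx hy h1 with h2 | h2
  · exact Or.inl h2.1
  · exact Or.inr h2.1

theorem Gd.tm_pm {z : Ix r m N → ℤ} (h : Gd z) : Pm (tm (qm z) (bm z)) := (pm_T h.1).2 h.2.1

theorem Gd.exists_pt {z : Ix r m N → ℤ} (h : Gd z) : ∃ P : PP r m N, IsRep z P := by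
  have hp0 := cq_ne h.1.ne
  have hT0 := cq_ne h.tm_pm.ne
  obtain ⟨a, ha⟩ := Projectivization.exists_smul_eq_mk_rep ℚ _ hp0
  obtain ⟨b, hb⟩ := Projectivization.exists_smul_eq_mk_rep ℚ _ hT0
  refine ⟨(Projectivization.mk ℚ _ hp0, Projectivization.mk ℚ _ hT0),
    ⟨a, a.ne_zero, ?_⟩, b, b.ne_zero, ?_⟩
  · simp only
    rw [← ha, Units.smul_def]
    funext p
    unfold cq
    rw [Pi.smul_apply, smul_eq_mul]
  · simp only
    rw [← hb, Units.smul_def]
    funext p
    unfold cq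
    rw [Pi.smul_apply, smul_eq_mul]

theorem Gd.pt_spec {z : Ix r m N → ℤ} (h : Gd z) : IsRep z ((sys r m N hne).pt z) :=
  Classical.epsilon_spec h.exists_pt

theorem det_one_unit {g : (Matrix (Fin r) (Fin r) ℤ)ˣ} :
    (g : Matrix (Fin r) (Fin r) ℤ).det * (g : Matrix (Fin r) (Fin r) ℤ).det = 1 := by
  rcases det_unit g with h | h <;> rw [h] <;> norm_num

theorem tm_ac {R : Type*} [CommRing R] {g g' : Matrix (Fin r) (Fin r) R} (h : g' * g = 1) (e : R)
    (u : Ix r m N → R) : tm (qm (ac g g' e u)) (bm (ac g g' e u)) =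
      fun p => e * tm (qm u) (bm u) p := by
  funext p
  unfold tm
  rw [bm_ac, qm_ac, Matrix.smul_mul, Matrix.mul_assoc, ← Matrix.mul_assoc g', h, Matrix.one_mul]
  rfl

theorem IsRep.ac {z : Ix r m N → ℤ} {P : PP r m N} (h : IsRep z P) (g : GG r) :
    IsRep ((sys r m N hne).actZ g z) P := by
  obtain ⟨⟨c, hc, h1⟩, d, hd, h2⟩ := h
  have hdd := det_one_unit (g := g.1)
  have hee : (g.2 : ℤ) * (g.2 : ℤ) = 1 := by rcases e_pm g.2 with h | h <;> rw [h] <;> norm_num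
  refine ⟨⟨c * ((g.1 : Matrix (Fin r) (Fin r) ℤ).det : ℚ), mul_ne_zero hc ?_, ?_⟩,
    ⟨d * ((g.2 : ℤ) : ℚ), mul_ne_zero hd ?_, ?_⟩⟩
  · rcases det_unit g.1 with h | h <;> rw [h] <;> norm_num
  · rw [h1]
    funext f
    have h3 : pl (bm ((sys r m N hne).actZ g z)) f =
        (g.1 : Matrix (Fin r) (Fin r) ℤ).det * pl (bm z) f :=
      congrFun (pl_mul (g.1 : Matrix (Fin r) (Fin r) ℤ) (bm z)) f
    rw [h3, Int.cast_mul]
    have h4 : ((g.1 : Matrix (Fin r) (Fin r) ℤ).det : ℚ) *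
        ((g.1 : Matrix (Fin r) (Fin r) ℤ).det : ℚ) = 1 := by exact_mod_cast hdd
    linear_combination (-(c * ((pl (bm z) f : ℤ) : ℚ))) * h4
  · rcases e_pm g.2 with h | h <;> rw [h] <;> norm_num
  · rw [h2]
    funext p
    have h3 : tm (qm ((sys r m N hne).actZ g z)) (bm ((sys r m N hne).actZ g z)) p =
        (g.2 : ℤ) * tm (qm z) (bm z) p :=
      congrFun (tm_ac (g.1.inv_mul) (g.2 : ℤ) z) p
    rw [h3, Int.cast_mul]
    have h4 : ((g.2 : ℤ) : ℚ) * ((g.2 : ℤ) : ℚ) = 1 := by exact_mod_cast hee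
    linear_combination (-(d * ((tm (qm z) (bm z) p : ℤ) : ℚ))) * h4

/-- two representatives -/
theorem rep_rel {z z' : Ix r m N → ℤ} {P : PP r m N} (hz : Gd z) (hz' : Gd z') (h : IsRep z P)
    (h' : IsRep z' P) : ∃ g, z' = (sys r m N hne).actZ g z := by
  obtain ⟨_, d, hd, h2⟩ := h
  obtain ⟨_, d', hd', h2'⟩ := h'
  obtain ⟨ε, hε, hT⟩ : ∃ ε : ℤˣ, True ∧ tm (qm z') (bm z') = fun p => (ε : ℤ) * tm (qm z) (bm z) p := by
    rcases pm_rel hz.tm_pm hz'.tm_pm hd hd' h2 h2' with h3 | h3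
    · exact ⟨1, trivial, by rw [h3]; funext p; simp⟩
    · exact ⟨-1, trivial, by rw [h3]; funext p; simp⟩
  have hTm : qm z' * bm z' = (ε : ℤ) • (qm z * bm z) := by
    ext j l
    exact congrFun hT (j, l)
  obtain ⟨ξ, hξ⟩ := dual_of_pm hz.1
  obtain ⟨ξ', hξ'⟩ := dual_of_pm hz'.1
  -- the comparison of the bases
  have key : ∀ (b b' : Matrix (Fin r) (Fin N) ℤ) (q q' : Matrix (Fin m) (Fin r) ℤ) (e : ℤ)
      (ξ : Matrix (Fin N) (Fin r) ℤ), b * ξ = 1 → Rk (q'.map (Int.castRingHom ℚ)) →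
      q' * b' = e • (q * b) → b' = (b' * ξ) * b := by
    intro b b' q q' e ξ hξ ⟨p, hp⟩ he
    set φ := Int.castRingHom ℚ with hφ
    have m1 : ∀ {a b c : ℕ} (x : Matrix (Fin a) (Fin b) ℤ) (y : Matrix (Fin b) (Fin c) ℤ),
        (x * y).map φ = x.map φ * y.map φ := fun x y => Matrix.map_mul
    have h3 : b'.map φ = ((e : ℚ) • (p * q.map φ)) * b.map φ := by
      calc b'.map φ = (p * q'.map φ) * b'.map φ := by
            have : p * q'.map φ = 1 := hp
            rw [this, Matrix.one_mul]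
        _ = p * (q' * b').map φ := by rw [m1, Matrix.mul_assoc]
        _ = p * ((e : ℚ) • (q.map φ * b.map φ)) := by
            rw [he, ← m1]
            congr 1
            ext i j
            simp [hφ]
        _ = _ := by rw [Matrix.mul_smul, Matrix.smul_mul, Matrix.mul_assoc]
    have h4 : (b' * ξ).map φ = (e : ℚ) • (p * q.map φ) := by
      rw [m1, h3, Matrix.mul_assoc, ← m1, hξ]
      have : (1 : Matrix (Fin r) (Fin r) ℤ).map φ = 1 := Matrix.map_one _ (map_zero _) (map_one _)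
      rw [this, Matrix.mul_one]
    have h5 : b'.map φ = ((b' * ξ) * b).map φ := by
      rw [m1, h4, ← h3]
    have hinj : Function.Injective (φ : ℤ → ℚ) := Int.cast_injective
    exact Matrix.map_injective hinj h5
  have hε2 : (ε : ℤ) * (ε : ℤ) = 1 := by rcases e_pm ε with h | h <;> rw [h] <;> norm_num
  have hb' : bm z' = (bm z' * ξ) * bm z := key _ _ _ _ _ ξ hξ hz'.2.2 hTm
  have hTm' : qm z * bm z = (ε : ℤ) • (qm z' * bm z') := by
    rw [hTm, smul_smul, hε2, one_smul]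
  have hb : bm z = (bm z * ξ') * bm z' := key _ _ _ _ _ ξ' hξ' hz.2.2 hTm'
  set g := bm z' * ξ with hg
  set g' := bm z * ξ' with hg'
  have e1 : g * g' = 1 := by
    have h3 : bm z' = (g * g') * bm z' := by rw [Matrix.mul_assoc, ← hb, ← hb']
    have h4 : bm z' * ξ' = (g * g') * (bm z' * ξ') := by rw [← Matrix.mul_assoc, ← h3]
    rw [hξ', Matrix.mul_one] at h4
    exact h4.symm
  have e2 : g' * g = 1 := by
    have h3 : bm z = (g' * g) * bm z := by rw [Matrix.mul_assoc, ← hb', ← hb]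
    have h4 : bm z * ξ = (g' * g) * (bm z * ξ) := by rw [← Matrix.mul_assoc, ← h3]
    rw [hξ, Matrix.mul_one] at h4
    exact h4.symm
  have hq : qm z' * g = (ε : ℤ) • qm z := by
    rw [hg, ← Matrix.mul_assoc, hTm, Matrix.smul_mul, Matrix.mul_assoc, hξ, Matrix.mul_one]
  have hq' : qm z' = (ε : ℤ) • (qm z * g') := by
    have h3 : qm z' = (qm z' * g) * g' := by rw [Matrix.mul_assoc, e1, Matrix.mul_one]
    rw [h3, hq, Matrix.smul_mul]
  refine ⟨(⟨g, g', e1, e2⟩, ε), ?_⟩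
  rw [← gl_eq z']
  show gl (bm z') (qm z') = gl (g * bm z) ((ε : ℤ) • (qm z * g'))
  rw [← hb', ← hq']

theorem ac_free {z : Ix r m N → ℤ} (hz : Gd z) {g : GG r} (h : (sys r m N hne).actZ g z = z) :
    g = 1 := by
  obtain ⟨ξ, hξ⟩ := dual_of_pm hz.1
  have h1 : (g.1 : Matrix (Fin r) (Fin r) ℤ) * bm z = bm z := by
    have : bm ((sys r m N hne).actZ g z) = bm z := by rw [h]
    exact this
  have h2 : (g.1 : Matrix (Fin r) (Fin r) ℤ) = 1 := by
    have h3 : (g.1 : Matrix (Fin r) (Fin r) ℤ) * (bm z * ξ) = bm z * ξ := by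
      rw [← Matrix.mul_assoc, h1]
    rwa [hξ, Matrix.mul_one] at h3
  have h2' : g.1 = 1 := Units.ext h2
  have h3 : (g.2 : ℤ) • (qm z * ((g.1⁻¹ : (Matrix (Fin r) (Fin r) ℤ)ˣ) : Matrix (Fin r) (Fin r) ℤ)) =
      qm z := by
    have : qm ((sys r m N hne).actZ g z) = qm z := by rw [h]
    exact this
  rw [h2', inv_one, Units.val_one, Matrix.mul_one] at h3
  have hq0 : qm z ≠ 0 := qv_ne.1 hz.2.1.ne
  have h4 : g.2 = 1 := by
    rcases Int.units_eq_one_or g.2 with h5 | h5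
    · exact h5
    · exfalso
      rw [h5] at h3
      apply hq0
      ext j i
      have h6 := congrFun (congrFun h3 j) i
      rw [Matrix.smul_apply] at h6
      simp only [Units.val_neg, Units.val_one, neg_smul, one_smul] at h6
      show qm z j i = 0
      omega
  exact Prod.ext h2' h4

end Pool.Agent.K6.H78.MR
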