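import Pool.Agent.K6.H78.MR.Blk
import Pool.Agent.K6.H78.FR.Asm

/-!
The system of the pairs (basis, coordinates).
-/

set_option autoImplicit false
set_option linter.unusedSectionVars false
set_option linter.unusedVariables false
set_option linter.deprecated false

namespace Pool.Agent.K6.H78.MR

open Finset Matrix MeasureTheory
open Pool.Agent.K6.H78.MF (Pm exists_pm pm_unique pm_iff IsPoly)
open Pool.Agent.K6.H78.FR (cr sc sd tt Sys)

variable {r m N : ℕ}

/-- the coordinates of the pairs -/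
abbrev Ix (r m N : ℕ) : Type := (Fin r × Fin N) ⊕ (Fin m × Fin r)

section ring

variable {R : Type*} [CommRing R]

/-- the basis -/
def bm (u : Ix r m N → R) : Matrix (Fin r) (Fin N) R := Matrix.of fun i l => u (Sum.inl (i, l))

/-- the coordinates -/
def qm (u : Ix r m N → R) : Matrix (Fin m) (Fin r) R := Matrix.of fun j i => u (Sum.inr (j, i))

/-- the coordinates as a vector -/
def qv (u : Ix r m N → R) : Fin m × Fin r → R := fun p => u (Sum.inr p)

/-- pairs as vectors -/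
def gl (b : Matrix (Fin r) (Fin N) R) (q : Matrix (Fin m) (Fin r) R) : Ix r m N → R :=
  Sum.elim (fun p => b p.1 p.2) fun p => q p.1 p.2

theorem bm_gl (b : Matrix (Fin r) (Fin N) R) (q : Matrix (Fin m) (Fin r) R) : bm (gl b q) = b := rfl
theorem qm_gl (b : Matrix (Fin r) (Fin N) R) (q : Matrix (Fin m) (Fin r) R) : qm (gl b q) = q := rfl
theorem qv_gl (b : Matrix (Fin r) (Fin N) R) (q : Matrix (Fin m) (Fin r) R) :
    qv (gl b q) = fun p => q p.1 p.2 := rfl
theorem gl_eq (u : Ix r m N → R) : gl (bm u) (qm u) = u := by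
  funext i
  rcases i with i | i <;> rfl

theorem qv_ne {u : Ix r m N → R} : qv u ≠ 0 ↔ qm u ≠ 0 := by
  rw [not_iff_not]
  constructor
  · intro h
    ext j i
    exact congrFun h (j, i)
  · intro h
    funext p
    exact congrFun (congrFun h p.1) p.2

/-- the action of the general linear group -/
def ac (g g' : Matrix (Fin r) (Fin r) R) (e : R) (u : Ix r m N → R) : Ix r m N → R :=
  gl (g * bm u) (e • (qm u * g'))

theorem bm_ac (g g' : Matrix (Fin r) (Fin r) R) (e : R) (u : Ix r m N → R) :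
    bm (ac g g' e u) = g * bm u := rfl
theorem qm_ac (g g' : Matrix (Fin r) (Fin r) R) (e : R) (u : Ix r m N → R) :
    qm (ac g g' e u) = e • (qm u * g') := rfl

theorem ac_mul (g g' h h' : Matrix (Fin r) (Fin r) R) (e d : R) (u : Ix r m N → R) :
    ac (g * h) (h' * g') (e * d) u = ac g g' e (ac h h' d u) := by
  unfold ac
  rw [bm_gl, qm_gl, Matrix.mul_assoc, Matrix.smul_mul, smul_smul, Matrix.mul_assoc]

theorem ac_one (u : Ix r m N → R) : ac 1 1 1 u = u := by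
  unfold ac
  rw [Matrix.one_mul, Matrix.mul_one, one_smul, gl_eq]

end ring

/-- the group -/
abbrev GG (r : ℕ) : Type := (Matrix (Fin r) (Fin r) ℤ)ˣ × ℤˣ

/-- integer matrices as real matrices -/
def gR (g : (Matrix (Fin r) (Fin r) ℤ)ˣ) : Matrix (Fin r) (Fin r) ℝ :=
  (Int.castRingHom ℝ).mapMatrix (g : Matrix (Fin r) (Fin r) ℤ)

theorem gR_mul (g h : (Matrix (Fin r) (Fin r) ℤ)ˣ) : gR (g * h) = gR g * gR h := by
  unfold gR
  rw [Units.val_mul, map_mul]

theorem gR_one : gR (1 : (Matrix (Fin r) (Fin r) ℤ)ˣ) = 1 := by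
  unfold gR
  rw [Units.val_one, map_one]

theorem gR_inv_mul (g : (Matrix (Fin r) (Fin r) ℤ)ˣ) : gR g⁻¹ * gR g = 1 := by
  rw [← gR_mul, inv_mul_cancel, gR_one]

theorem gR_mul_inv (g : (Matrix (Fin r) (Fin r) ℤ)ˣ) : gR g * gR g⁻¹ = 1 := by
  rw [← gR_mul, mul_inv_cancel, gR_one]

theorem gR_det (g : (Matrix (Fin r) (Fin r) ℤ)ˣ) : |(gR g).det| = 1 := by
  unfold gR
  rw [← RingHom.map_det]
  rcases det_unit g with h | h <;> rw [h] <;> simp

theorem gR_det_ne (g : (Matrix (Fin r) (Fin r) ℤ)ˣ) : (gR g).det ≠ 0 := by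
  intro h
  have := gR_det g
  rw [h] at this
  norm_num at this

/-- the ambient space -/
abbrev PP (r m N : ℕ) : Type :=
  Projectivization ℚ ((Fin r → Fin N) → ℚ) × Projectivization ℚ (Fin m × Fin N → ℚ)

/-- the pair represents the point -/
def IsRep (z : Ix r m N → ℤ) (P : PP r m N) : Prop :=
  (∃ c : ℚ, c ≠ 0 ∧ P.1.rep = fun i => c * (pl (bm z) i : ℤ)) ∧
    ∃ c : ℚ, c ≠ 0 ∧ P.2.rep = fun i => c * (tm (qm z) (bm z) i : ℤ)

/-- the system -/
noncomputable def sys (r m N : ℕ) (hne : Nonempty (PP r m N)) : Sys Bool (Ix r m N) (GG r) (PP r m N) where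
  bk := Sum.elim (fun _ => true) fun _ => false
  i₀ := false
  Tp := fun p => {t | pl (bm t) ≠ 0 ∧ qv t ≠ 0}
  Nz := fun z => Rk (qm fun i => (z i : ℚ))
  Om := {u | pl (bm u) ≠ 0 ∧ qv u ≠ 0}
  act := fun g => ac (gR g.1) (gR g.1⁻¹) ((g.2 : ℤ) : ℝ)
  actZ := fun g => ac (g.1 : Matrix (Fin r) (Fin r) ℤ) ((g.1⁻¹ : (Matrix (Fin r) (Fin r) ℤ)ˣ) :
    Matrix (Fin r) (Fin r) ℤ) (g.2 : ℤ)
  pt := fun z => Classical.epsilon fun P => IsRep z P
  lam := fun _ u => (1 / r) * Real.log ‖pl (bm u)‖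

variable {hne : Nonempty (PP r m N)}

theorem lc_iff {p : ℕ} {z : Ix r m N → ℤ} : (sys r m N hne).Lc p z ↔
    (¬ ∀ f, (p : ℤ) ∣ pl (bm z) f) ∧ ¬ ∀ x, (p : ℤ) ∣ qv z x := by
  unfold FR.Sys.Lc
  show (pl (bm fun i => (z i : ZMod p)) ≠ 0 ∧ qv (fun i => (z i : ZMod p)) ≠ 0) ↔ _
  refine and_congr (not_congr ?_) (not_congr ?_)
  · rw [funext_iff]
    refine forall_congr' fun f => ?_
    rw [← ZMod.intCast_zmod_eq_zero_iff_dvd]
    have h : pl (bm fun i => (z i : ZMod p)) f = ((pl (bm z) f : ℤ) : ZMod p) :=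
      pl_map (Int.castRingHom (ZMod p)) (bm z) f
    rw [h]
    rfl
  · rw [funext_iff]
    refine forall_congr' fun r => ?_
    rw [← ZMod.intCast_zmod_eq_zero_iff_dvd]
    rfl

/-- good pairs -/
def Gd (z : Ix r m N → ℤ) : Prop :=
  Pm (pl (bm z)) ∧ Pm (qv z) ∧ Rk (qm fun i => (z i : ℚ))

theorem good_iff {z : Ix r m N → ℤ} : (sys r m N hne).Good z ↔ Gd z := by
  unfold FR.Sys.Good Gd
  constructor
  · rintro ⟨h1, h2⟩
    exact ⟨fun p hp => (lc_iff.1 (h1 p hp)).1, fun p hp => (lc_iff.1 (h1 p hp)).2, h2⟩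
  · rintro ⟨h1, h2, h3⟩
    exact ⟨fun p hp => lc_iff.2 ⟨h1 p hp, h2 p hp⟩, h3⟩

theorem bm_cr (z : Ix r m N → ℤ) : bm (cr z) = (bm z).map (Int.castRingHom ℝ) := rfl

theorem pl_cr (z : Ix r m N → ℤ) (f : Fin r → Fin N) : pl (bm (cr z)) f = ((pl (bm z) f : ℤ) : ℝ) :=
  pl_map (Int.castRingHom ℝ) (bm z) f

theorem pl_cr_ne {z : Ix r m N → ℤ} : pl (bm (cr z)) ≠ 0 ↔ pl (bm z) ≠ 0 := by
  rw [not_iff_not]
  constructor
  · intro h
    funext f
    have h1 := congrFun h f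
    rw [pl_cr] at h1
    have h2 : ((pl (bm z) f : ℤ) : ℝ) = 0 := h1
    show pl (bm z) f = 0
    exact_mod_cast h2
  · intro h
    funext f
    rw [pl_cr, h]
    simp

theorem bm_sc (a : Bool → ℝ) (u : Ix r m N → ℝ) :
    bm (sc (sys r m N hne).bk a u) = a true • bm u := rfl

theorem qm_sc (a : Bool → ℝ) (u : Ix r m N → ℝ) :
    qm (sc (sys r m N hne).bk a u) = a false • qm u := rfl

theorem qv_sc (a : Bool → ℝ) (u : Ix r m N → ℝ) :
    qv (sc (sys r m N hne).bk a u) = a false • qv u := rfl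

theorem pl_ne_mul {R : Type*} [CommRing R] [IsDomain R] {b : Matrix (Fin r) (Fin N) R}
    (h : pl b ≠ 0) {g : Matrix (Fin r) (Fin r) R} (hg : g.det ≠ 0) : pl (g * b) ≠ 0 := by
  obtain ⟨f, hf⟩ := Function.ne_iff.1 h
  intro h0
  have := congrFun h0 f
  rw [pl_mul] at this
  exact mul_ne_zero hg hf this

theorem qm_ne_mul {R : Type*} [CommRing R] [IsDomain R] {q : Matrix (Fin m) (Fin r) R}
    (h : q ≠ 0) {g g' : Matrix (Fin r) (Fin r) R} (hg : g * g' = 1) {e : R} (he : e ≠ 0) :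
    e • (q * g) ≠ 0 := by
  intro h0
  rcases smul_eq_zero.1 h0 with h1 | h1
  · exact he h1
  · apply h
    have h2 : q = (q * g) * g' := by rw [Matrix.mul_assoc, hg, Matrix.mul_one]
    rw [h2, h1, Matrix.zero_mul]

theorem e_ne (e : ℤˣ) : ((e : ℤ) : ℝ) ≠ 0 := by
  rcases Int.units_eq_one_or e with h | h <;> rw [h] <;> simp

theorem e_pm (e : ℤˣ) : (e : ℤ) = 1 ∨ (e : ℤ) = -1 := by
  rcases Int.units_eq_one_or e with h | h <;> rw [h] <;> simp

/-- good pairs are mapped to good pairs -/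
theorem Gd.ac {z : Ix r m N → ℤ} (h : Gd z) (g : GG r) : Gd ((sys r m N hne).actZ g z) := by
  obtain ⟨h1, h2, h3⟩ := h
  have hd := det_unit g.1
  have he := e_pm g.2
  refine ⟨?_, ?_, ?_⟩
  · show Pm (pl ((g.1 : Matrix (Fin r) (Fin r) ℤ) * bm z))
    rw [pl_mul]
    intro p hp hdv
    apply h1 p hp
    intro f
    have h5 : (p : ℤ) ∣ (g.1 : Matrix (Fin r) (Fin r) ℤ).det * pl (bm z) f := hdv f
    rcases hd with h | h
    · rwa [h, one_mul] at h5
    · rw [h, neg_one_mul] at h5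
      exact (dvd_neg).1 h5
  · intro p hp hdv
    apply h2 p hp
    intro x
    have h4 : qm z = (g.2 : ℤ) • (((g.2 : ℤ) • (qm z * ((g.1⁻¹ : (Matrix (Fin r) (Fin r) ℤ)ˣ) :
        Matrix (Fin r) (Fin r) ℤ))) * (g.1 : Matrix (Fin r) (Fin r) ℤ)) := by
      rw [Matrix.smul_mul, smul_smul, Matrix.mul_assoc, Units.inv_mul, Matrix.mul_one]
      have : (g.2 : ℤ) * (g.2 : ℤ) = 1 := by rcases he with h | h <;> rw [h] <;> norm_num
      rw [this, one_smul]
    show (p : ℤ) ∣ qm z x.1 x.2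
    rw [h4, Matrix.smul_apply, smul_eq_mul, Matrix.mul_apply]
    exact (Finset.dvd_sum fun i _ => (hdv (x.1, i)).mul_right _).mul_left _
  · have h5 : (qm fun i => (((sys r m N hne).actZ g z i : ℤ) : ℚ)) = ((g.2 : ℤ) : ℚ) •
        ((qm fun i => (z i : ℚ)) * (Int.castRingHom ℚ).mapMatrix
          ((g.1⁻¹ : (Matrix (Fin r) (Fin r) ℤ)ˣ) : Matrix (Fin r) (Fin r) ℤ)) := by
      ext j i
      show (((((g.2 : ℤ) • (qm z * ((g.1⁻¹ : (Matrix (Fin r) (Fin r) ℤ)ˣ) :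
        Matrix (Fin r) (Fin r) ℤ))) j i : ℤ)) : ℚ) = _
      rw [Matrix.smul_apply, Matrix.smul_apply, smul_eq_mul, smul_eq_mul, Matrix.mul_apply,
        Matrix.mul_apply]
      push_cast
      rfl
    show Rk (qm fun i => (((sys r m N hne).actZ g z i : ℤ) : ℚ))
    rw [h5]
    apply Rk.smul
    · apply h3.mul
      rw [← RingHom.map_det]
      rcases det_unit g.1⁻¹ with h | h <;> rw [h] <;> simp
    · rcases he with h | h <;> rw [h] <;> simp

end Pool.Agent.K6.H78.MR
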