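import Pool.Agent.K6.H78.MR.Red
import Pool.Agent.K6.H78.MF.Tail

/-!
Integer matrices whose maximal minors have a large common prime factor.
-/

set_option autoImplicit false
set_option linter.unusedSectionVars false
set_option linter.unusedVariables false

namespace Pool.Agent.K6.H78.MR

open Finset Matrix
open Pool.Agent.K6.H78.MF (Pm exists_pm pm_unique pm_iff bq mem_bq card_bq tail_one)

variable {r m N : ℕ}

theorem geoW (hi : ℤ) (n : ℕ) : ∑ s ∈ Finset.Icc (hi - n) hi, (2 : ℝ) ^ s ≤ 2 * 2 ^ hi - 2 ^ (hi - n) := by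
  induction n with
  | zero => simp; linarith
  | succ n ih =>
    have h1 : Finset.Icc (hi - ((n + 1 : ℕ) : ℤ)) hi =
        insert (hi - ((n + 1 : ℕ) : ℤ)) (Finset.Icc (hi - n) hi) := by
      ext s
      rw [Finset.mem_insert, Finset.mem_Icc, Finset.mem_Icc]
      push_cast
      omega
    rw [h1, sum_insert (by rw [Finset.mem_Icc]; push_cast; omega)]
    have h2 : (2 : ℝ) ^ (hi - (n : ℤ)) = 2 * 2 ^ (hi - ((n + 1 : ℕ) : ℤ)) := by
      rw [show hi - (n : ℤ) = (hi - ((n + 1 : ℕ) : ℤ)) + 1 by push_cast; ring, zpow_add_one₀ (by norm_num)]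
      ring
    rw [h2] at ih
    linarith

theorem geoW' (lo hi : ℤ) : ∑ s ∈ Finset.Icc lo hi, (2 : ℝ) ^ s ≤ 2 * 2 ^ hi := by
  rcases le_total lo hi with h | h
  · have h1 := geoW hi (hi - lo).toNat
    rw [Int.toNat_of_nonneg (by omega), sub_sub_cancel] at h1
    have : (0 : ℝ) < 2 ^ lo := by positivity
    linarith
  · rcases h.lt_or_eq with h | h
    · rw [Finset.Icc_eq_empty (by omega), sum_empty]
      positivity
    · rw [h, Finset.Icc_self, sum_singleton]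
      have : (0 : ℝ) < 2 ^ lo := by positivity
      linarith

theorem geoWn (lo hi : ℤ) {n : ℕ} (hn : 1 ≤ n) {Q : ℝ} (hQ : (2 : ℝ) ^ hi ≤ Q) :
    ∑ s ∈ Finset.Icc lo hi, ((2 : ℝ) ^ s) ^ n ≤ 2 * Q ^ n := by
  obtain ⟨k, rfl⟩ : ∃ k, n = k + 1 := ⟨n - 1, by omega⟩
  have hQ0 : 0 < Q := lt_of_lt_of_le (by positivity) hQ
  have h1 : ∀ s ∈ Finset.Icc lo hi, ((2 : ℝ) ^ s) ^ (k + 1) ≤ Q ^ k * 2 ^ s := by
    intro s hs
    rw [Finset.mem_Icc] at hs
    rw [pow_succ]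
    apply mul_le_mul_of_nonneg_right _ (by positivity)
    apply pow_le_pow_left₀ (by positivity)
    exact (zpow_le_zpow_right₀ (by norm_num) hs.2).trans hQ
  refine (sum_le_sum h1).trans ?_
  rw [← mul_sum]
  calc Q ^ k * ∑ s ∈ Finset.Icc lo hi, (2 : ℝ) ^ s ≤ Q ^ k * (2 * 2 ^ hi) :=
        mul_le_mul_of_nonneg_left (geoW' _ _) (by positivity)
    _ ≤ Q ^ k * (2 * Q) := by gcongr
    _ = 2 * Q ^ (k + 1) := by ring

/-- bad matrices -/
def TB (r N : ℕ) (P₀ : ℕ) (A : ℝ) : Set (Matrix (Fin r) (Fin N) ℤ) :=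
  {b | (∀ i l, |(b i l : ℝ)| ≤ A) ∧ pl b ≠ 0 ∧ ∃ p : ℕ, p.Prime ∧ P₀ < p ∧ ∀ f, (p : ℤ) ∣ pl b f}

theorem det_last_ne {q : Matrix (Fin (r + 1)) (Fin (r + 1)) ℤ} (h : q.det ≠ 0) :
    ∃ j, q j (Fin.last r) ≠ 0 := by
  by_contra hcon
  push Not at hcon
  exact h (Matrix.det_eq_zero_of_column_eq_zero (Fin.last r) hcon)

theorem rl_mul_norm (q : Matrix (Fin m) (Fin r) ℤ) (b : Matrix (Fin r) (Fin N) ℤ) (j : Fin m) {X : ℝ}
    (hX : 0 ≤ X) (h : ∀ l, |((q * b) j l : ℝ)| ≤ X) : ‖∑ i, (q j i : ℝ) • rl b i‖ ≤ X := by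
  rw [pi_norm_le_iff_of_nonneg hX]
  intro l
  rw [Real.norm_eq_abs]
  have h1 : (∑ i, (q j i : ℝ) • rl b i) l = ((q * b) j l : ℝ) := by
    rw [Finset.sum_apply, Matrix.mul_apply]
    push_cast
    rfl
  rw [h1]
  exact h l

/-- **the tail** -/
theorem tail_b (hrN : r + 1 < N) : ∃ C : ℝ, 0 < C ∧ ∀ (P₀ : ℕ) (A : ℝ), 1 ≤ P₀ → 0 < A →
    ((TB (r + 1) N P₀ A).ncard : ℝ) ≤ C * A ^ ((r + 1) * N) / P₀ := by
  classical
  obtain ⟨C, hC, hcrd⟩ := crd (r := r) (N := N) (M := r + 1) hrN.le hrN.le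
  set F : ℝ := ((r + 1).factorial : ℝ) with hF
  have hF0 : 0 < F := by rw [hF]; exact_mod_cast Nat.factorial_pos _
  refine ⟨C * (2 * F ^ (N - (r + 1))), by positivity, fun P₀ A hP₀ hA => ?_⟩
  have hP₀0 : (0 : ℝ) < P₀ := by exact_mod_cast hP₀
  set Q : ℝ := F * A ^ (r + 1) / P₀ with hQ
  have hQ0 : 0 < Q := by positivity
  set W : Finset ℤ := Finset.Icc (-((r + 1 : ℕ) * r : ℤ)) (Int.log 2 Q) with hW
  obtain ⟨hfin, hcard⟩ := hcrd A W 0 hA
  set φ : (Fin (r + 1) → Fin N → ℤ) × (Fin (r + 1) → Fin (r + 1) → ℤ) →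
    Matrix (Fin (r + 1)) (Fin N) ℤ := fun z => (Matrix.of z.2) * (Matrix.of z.1) with hφ
  have hsub : TB (r + 1) N P₀ A ⊆ φ '' Cr (r := r) (N := N) (M := r + 1) A W 0 := by
    rintro b ⟨h1, h2, p, hp, hPp, hd⟩
    obtain ⟨b₁, g, hPm, hb, hg⟩ := exists_prim b h2
    obtain ⟨g₁, g₁', f, b', c, e1, e2, hrd⟩ := exists_rd_int hPm.ne
    set q : Matrix (Fin (r + 1)) (Fin (r + 1)) ℤ := g * g₁' with hq
    have hqb : q * (g₁ * b₁) = b := by
      rw [hq, Matrix.mul_assoc, ← Matrix.mul_assoc g₁', e2, Matrix.one_mul, hb]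
    have hdet : g₁.det * g₁'.det = 1 := by rw [← det_mul, e1, det_one]
    have hu : g₁'.det = 1 ∨ g₁'.det = -1 := Int.isUnit_iff.1 (IsUnit.of_mul_eq_one_right _ hdet)
    have hqdet : q.det ≠ 0 := by
      rw [hq, det_mul]
      refine mul_ne_zero hg ?_
      rcases hu with h | h <;> rw [h] <;> norm_num
    have hpd : (p : ℤ) ∣ g.det := by
      by_contra hnd
      apply hPm p hp
      intro f
      have h3 := hd f
      rw [hb, pl_mul] at h3
      exact ((Nat.prime_iff_prime_int.1 hp).dvd_or_dvd h3).resolve_left hnd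
    have hqabs : (P₀ : ℝ) ≤ |(q.det : ℝ)| := by
      have h3 : |q.det| = |g.det| := by
        rw [hq, det_mul, abs_mul]
        rcases hu with h | h <;> rw [h] <;> simp
      have h4 := Int.le_of_dvd (abs_pos.2 hg) ((dvd_abs _ _).2 hpd)
      have h5 : (P₀ : ℤ) ≤ |q.det| := by
        rw [h3]
        have : (P₀ : ℤ) < p := by exact_mod_cast hPp
        omega
      rw [← Int.cast_abs]
      exact_mod_cast h5
    refine ⟨(g₁ * b₁, q), ?_, hqb⟩
    refine ⟨f, b', c, hrd, ?_, ?_, det_last_ne hqdet, fun j => ?_⟩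
    · -- the covolume
      rw [hW, Finset.mem_Icc]
      have hlow : ∀ i, -(r : ℤ) ≤ Int.log 2 |b' i (f i)| := by
        intro i
        have h3 := lg_mono one_pos (rd_lb hrd i)
        rw [Int.log_one_right, lg_two_pow _ (hrd.pos i)] at h3
        linarith
      constructor
      · have h3 : ∑ i : Fin (r + 1), (-(r : ℤ)) ≤ ∑ i, Int.log 2 |b' i (f i)| :=
          sum_le_sum fun i _ => hlow i
        rw [sum_const, card_univ, Fintype.card_fin, nsmul_eq_mul] at h3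
        push_cast at h3 ⊢
        linarith
      · have h3 : (2 : ℝ) ^ (∑ i, Int.log 2 |b' i (f i)|) ≤ Q := by
          rw [← prod_zp]
          have h4 : ∏ i, (2 : ℝ) ^ Int.log 2 |b' i (f i)| ≤ ∏ i, |b' i (f i)| :=
            Finset.prod_le_prod (fun i _ => by positivity) fun i _ => (lg_self (hrd.pos i)).1
          refine h4.trans ((rd_lower hrd).trans ?_)
          rw [pi_norm_le_iff_of_nonneg hQ0.le]
          intro f'
          have h5 : pl (Matrix.of (rl (g₁ * b₁)) : Matrix (Fin (r + 1)) (Fin N) ℝ) f' =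
              ((pl (g₁ * b₁) f' : ℤ) : ℝ) := pl_map (Int.castRingHom ℝ) (g₁ * b₁) f'
          rw [h5, Real.norm_eq_abs, hQ, le_div_iff₀ hP₀0]
          have h6 : ((pl b f' : ℤ) : ℝ) = (q.det : ℝ) * ((pl (g₁ * b₁) f' : ℤ) : ℝ) := by
            rw [← hqb, pl_mul]
            push_cast
            rfl
          have h7 : |((pl b f' : ℤ) : ℝ)| ≤ F * A ^ (r + 1) := by
            have h8 := abs_det_le_prod ((b.map (Int.castRingHom ℝ)).submatrix id f') (fun _ => A)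
              (fun i j => h1 i (f' j))
            rw [prod_const, card_univ, Fintype.card_fin] at h8
            have h9 : ((b.map (Int.castRingHom ℝ)).submatrix id f').det = ((pl b f' : ℤ) : ℝ) :=
              pl_map (Int.castRingHom ℝ) b f'
            rw [h9] at h8
            exact h8
          rw [h6, abs_mul] at h7
          have := abs_nonneg ((pl (g₁ * b₁) f' : ℤ) : ℝ)
          nlinarith
        have h4 := lg_mono (by positivity) h3
        have h5 : Int.log 2 ((2 : ℝ) ^ (∑ i, Int.log 2 |b' i (f i)|)) = ∑ i, Int.log 2 |b' i (f i)| := by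
          have := Int.log_zpow (R := ℝ) (b := 2) (by norm_num) (∑ i, Int.log 2 |b' i (f i)|)
          rw [Nat.cast_ofNat] at this
          exact this
        rw [h5] at h4
        exact h4
    · rw [pow_zero, one_mul]
      exact rd_mono hrd (Fin.le_last _)
    · apply rl_mul_norm _ _ _ hA.le
      intro l
      rw [hqb]
      exact h1 j l
  have h1 : ((TB (r + 1) N P₀ A).ncard : ℝ) ≤ (Cr (r := r) (N := N) (M := r + 1) A W 0).ncard := by
    exact_mod_cast (Set.ncard_le_ncard hsub (hfin.image _)).trans (Set.ncard_image_le hfin)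
  refine h1.trans (hcard.trans ?_)
  have h2 : ∑ s ∈ W, ((2 : ℝ) ^ s) ^ (N - (r + 1)) ≤ 2 * Q ^ (N - (r + 1)) :=
    geoWn _ _ (by omega) (lg_self hQ0).1
  rw [pow_zero, one_mul]
  have h3 : Q ^ (N - (r + 1)) ≤ F ^ (N - (r + 1)) * A ^ ((r + 1) * (N - (r + 1))) / P₀ := by
    rw [hQ, div_pow, mul_pow, ← pow_mul]
    apply div_le_div_of_nonneg_left (by positivity) hP₀0
    obtain ⟨k, hk⟩ : ∃ k, N - (r + 1) = k + 1 := ⟨N - (r + 1) - 1, by omega⟩
    rw [hk, pow_succ]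
    have : (1 : ℝ) ≤ (P₀ : ℝ) ^ k := one_le_pow₀ (by exact_mod_cast hP₀)
    nlinarith
  calc C * (A ^ ((r + 1) * (r + 1)) * ∑ s ∈ W, ((2 : ℝ) ^ s) ^ (N - (r + 1))) ≤
      C * (A ^ ((r + 1) * (r + 1)) * (2 * (F ^ (N - (r + 1)) * A ^ ((r + 1) * (N - (r + 1))) / P₀))) := by
        gcongr
        exact h2.trans (mul_le_mul_of_nonneg_left h3 (by norm_num))
    _ = C * (2 * F ^ (N - (r + 1))) * (A ^ ((r + 1) * (r + 1)) * A ^ ((r + 1) * (N - (r + 1)))) / P₀ := by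
        ring
    _ = _ := by
        rw [← pow_add]
        congr 3
        obtain ⟨k, hk⟩ : ∃ k, N = k + (r + 1) := ⟨N - (r + 1), by omega⟩
        rw [hk, Nat.add_sub_cancel]
        ring

/-- the tail for vectors -/
theorem tail_q (J : Type) [Fintype J] [DecidableEq J] (hJ : 2 ≤ Fintype.card J) (P₀ : ℕ) (A : ℝ)
    (hP₀ : 1 ≤ P₀) (hA : 1 ≤ A) :
    {q : J → ℤ | (∀ j, |(q j : ℝ)| ≤ A) ∧ q ≠ 0 ∧ ∃ p : ℕ, p.Prime ∧ P₀ < p ∧
      ∀ j, (p : ℤ) ∣ q j}.Finite ∧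
    ({q : J → ℤ | (∀ j, |(q j : ℝ)| ≤ A) ∧ q ≠ 0 ∧ ∃ p : ℕ, p.Prime ∧ P₀ < p ∧
      ∀ j, (p : ℤ) ∣ q j}.ncard : ℝ) ≤ (3 * A) ^ Fintype.card J / P₀ := by
  classical
  set B : ℕ := ⌊A⌋₊ with hB
  set S := (bq J B).filter fun q => q ≠ 0 ∧ ∃ p : ℕ, p.Prime ∧ P₀ < p ∧ ∀ j, (p : ℤ) ∣ q j with hS
  have hsub : {q : J → ℤ | (∀ j, |(q j : ℝ)| ≤ A) ∧ q ≠ 0 ∧ ∃ p : ℕ, p.Prime ∧ P₀ < p ∧
      ∀ j, (p : ℤ) ∣ q j} ⊆ S := by
    rintro q ⟨h1, h2⟩
    rw [hS, mem_coe, mem_filter]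
    refine ⟨?_, h2⟩
    rw [mem_bq]
    intro j
    have h3 : (q j).natAbs ≤ B := by
      apply Nat.le_floor
      rw [Nat.cast_natAbs]
      push_cast
      exact h1 j
    omega
  refine ⟨S.finite_toSet.subset hsub, ?_⟩
  have h1 := tail_one (J := J) hJ P₀ B hP₀
  have h2 : ({q : J → ℤ | (∀ j, |(q j : ℝ)| ≤ A) ∧ q ≠ 0 ∧ ∃ p : ℕ, p.Prime ∧ P₀ < p ∧
      ∀ j, (p : ℤ) ∣ q j}.ncard : ℝ) ≤ S.card := by
    have := Set.ncard_le_ncard hsub S.finite_toSet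
    rw [Set.ncard_coe_finset] at this
    exact_mod_cast this
  have h4 : (B : ℝ) ≤ A := Nat.floor_le (by linarith)
  have hP₀0 : (0 : ℝ) < P₀ := by exact_mod_cast hP₀
  have h5 : (3 * (B : ℝ)) ^ Fintype.card J / P₀ ≤ (3 * A) ^ Fintype.card J / P₀ := by
    gcongr
  refine h2.trans (le_trans ?_ h5)
  exact h1

end Pool.Agent.K6.H78.MR
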